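import Pool.Agent.Work.MP_308fa9_nt.TD.Defs
import Pool.Agent.Work.MP_308fa9_nt.SC.SqRoot
import Pool.Agent.Work.MP_308fa9_nt.SC.LocUnit

set_option autoImplicit false

/-!
The class of a point depends only on its reduction.
-/

namespace Stoll308.TD

open Polynomial Finset BF

theorem cls_near {m : ℕ} (b : Fin (m + 1) → ℤ) (p : ℕ) [Fact p.Prime] (h2 : p ≠ 2)
    (h0 : ¬ (p : ℤ) ∣ b 0) (t : ℚ_[p]) (r : ℤ) (ht : ‖t - (r : ℚ_[p])‖ < 1)
    (hr : ¬ (p : ℤ) ∣ (GZ ℤ b).eval r) (ε : ℚ[X]) (u : ℚ_[p]) (hu : u ≠ 0) (s : ℚ_[p][X])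
    (h : GZ ℚ_[p] b ∣ (C t - X) - C u * ε.map (algebraMap ℚ ℚ_[p]) * s ^ 2) :
    ClsAt b ε p r := by
  obtain ⟨g, c, hc, hg, hgn, hgm, hgf⟩ := SC.exists_mon p b h0
  -- the point and its reduction
  have ht1 : ‖t‖ ≤ 1 := by
    have : t = (t - (r : ℚ_[p])) + (r : ℚ_[p]) := by ring
    rw [this]
    exact (Padic.nonarchimedean _ _).trans (max_le ht.le (Padic.norm_int_le_one _))
  obtain ⟨T, rfl⟩ : ∃ T : ℤ_[p], (T : ℚ_[p]) = t := ⟨⟨t, ht1⟩, rfl⟩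
  have hdv : (p : ℤ_[p]) ∣ T - (r : ℤ_[p]) := by
    rw [← PadicInt.norm_lt_one_iff_dvd, PadicInt.norm_def]
    push_cast
    exact ht
  obtain ⟨τ, hτ⟩ := hdv
  -- the value of `g` is a unit
  have hgr : IsUnit (g.eval (r : ℤ_[p])) := by
    have h3 : c * g.eval (r : ℤ_[p]) = (((GZ ℤ b).eval r : ℤ) : ℤ_[p]) := by
      have h4 : C c * g = (GZ ℤ b).map (Int.castRingHom ℤ_[p]) := by
        apply SC.Core.toQ_inj
        rw [hgf]
        unfold SC.toQ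
        rw [Polynomial.map_map, BF.LocLat.GZ_map]
      have h5 := congrArg (eval (r : ℤ_[p])) h4
      rw [eval_mul, eval_C, eval_intCast_map, eq_intCast, Int.cast_id] at h5
      exact h5
    have h6 : IsUnit (c * g.eval (r : ℤ_[p])) := by
      rw [h3, PadicInt.isUnit_iff, PadicInt.norm_def, PadicInt.coe_intCast]
      exact SC.norm_int_eq_one hr
    exact (IsUnit.mul_iff.1 h6).2
  obtain ⟨v, hv⟩ := hgr.exists_right_inv
  obtain ⟨k, hk⟩ : (X - C (r : ℤ_[p])) ∣ g - C (g.eval (r : ℤ_[p])) :=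
    X_sub_C_dvd_sub_C_eval
  have hCv : C (g.eval (r : ℤ_[p])) * C v = 1 := by
    rw [← C_mul, hv, C_1]
  set V : ℤ_[p][X] := C v * k with hV
  have e1 : (C (r : ℤ_[p]) - X) * V - 1 = g * (-C v) := by
    rw [hV]
    linear_combination (C v) * hk + hCv
  obtain ⟨S, U, ⟨a2, e2⟩, ⟨a3, e3⟩⟩ := SC.sq_root p h2 g (C τ * V) hg
  have hT : C T - X = (C (r : ℤ_[p]) - X) + C (p : ℤ_[p]) * C τ := by
    rw [← C_mul, ← hτ, C_sub]
    ring
  -- the congruence over `ℤ_p`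
  have hcong : g ∣ (C (r : ℤ_[p]) - X) - (C T - X) * U ^ 2 := by
    refine ⟨-(C (r : ℤ_[p]) - X) * a3 * (S * U + 1) - (C (r : ℤ_[p]) - X) * a2 * U ^ 2 +
      C (p : ℤ_[p]) * C τ * (-C v) * U ^ 2, ?_⟩
    rw [hT]
    linear_combination (-(C (r : ℤ_[p]) - X) * (S * U + 1)) * e3 +
      (-(C (r : ℤ_[p]) - X) * U ^ 2) * e2 + (C (p : ℤ_[p]) * C τ * U ^ 2) * e1
  -- the congruence over `ℚ_p`
  have hcongQ : GZ ℚ_[p] b ∣ (C (r : ℚ_[p]) - X) - (C (T : ℚ_[p]) - X) * SC.toQ U ^ 2 := by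
    obtain ⟨w, hw⟩ := hcong
    obtain ⟨c', hc'⟩ := hc.exists_right_inv
    have hcc : C (c : ℚ_[p]) * C (c' : ℚ_[p]) = 1 := by
      rw [← C_mul, ← PadicInt.coe_mul, hc', PadicInt.coe_one, C_1]
    refine ⟨C (c' : ℚ_[p]) * SC.toQ w, ?_⟩
    have h3 := congrArg SC.toQ hw
    unfold SC.toQ at h3 ⊢
    simp only [Polynomial.map_sub, Polynomial.map_mul, Polynomial.map_pow, map_X, map_C,
      PadicInt.algebraMap_apply, PadicInt.coe_intCast] at h3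
    rw [h3, ← hgf]
    unfold SC.toQ
    rw [Polynomial.map_mul, map_C, PadicInt.algebraMap_apply]
    linear_combination (-(g.map (algebraMap ℤ_[p] ℚ_[p]) *
      w.map (algebraMap ℤ_[p] ℚ_[p]))) * hcc
  refine ⟨u, s * SC.toQ U, hu, ?_⟩
  have h7 : (C (r : ℚ_[p]) - X) - C u * ε.map (algebraMap ℚ ℚ_[p]) * (s * SC.toQ U) ^ 2 =
      ((C (r : ℚ_[p]) - X) - (C (T : ℚ_[p]) - X) * SC.toQ U ^ 2) +
        ((C (T : ℚ_[p]) - X) - C u * ε.map (algebraMap ℚ ℚ_[p]) * s ^ 2) * SC.toQ U ^ 2 := by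
    ring
  rw [h7]
  exact dvd_add hcongQ (h.mul_right _)

end Stoll308.TD
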