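import Pool.Agent.Work.MP_308fa9_nt.Mert3

set_option autoImplicit false

/-!
Primes with given quadratic characters of three independent integers.
-/

namespace Stoll308.TD

open Finset AP NumberTheorySymbols

lemma ns_ne {a : ℤ} (h : ¬ IsSquare a) : a ≠ 0 := by
  rintro rfl
  exact h ⟨0, by norm_num⟩

lemma jac_pm {a : ℤ} {p : ℕ} (hp : p.Prime) (ha : a ≠ 0) (h : a.natAbs < p) :
    J(a | p) = 1 ∨ J(a | p) = -1 := by
  refine jacobiSym.eq_one_or_neg_one ?_
  rw [← Int.isCoprime_iff_gcd_eq_one, isCoprime_comm,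
    Prime.coprime_iff_not_dvd (Nat.prime_iff_prime_int.mp hp)]
  intro hd
  have h1 := Int.natAbs_dvd_natAbs.2 hd
  rw [Int.natAbs_natCast] at h1
  have h2 := Nat.le_of_dvd (Int.natAbs_pos.2 ha) h1
  omega

private lemma pm_eq {x s : ℤ} (hx : x = 1 ∨ x = -1) (hs : s = 1 ∨ s = -1)
    (h : (1 : ℝ) + s * x ≠ 0) : x = s := by
  rcases hx with rfl | rfl <;> rcases hs with rfl | rfl
  · rfl
  · exact absurd (by norm_num) h
  · exact absurd (by norm_num) h
  · rfl

private lemma pm_le {x s : ℤ} (hx : |(x : ℝ)| ≤ 1) (hs : s = 1 ∨ s = -1) :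
    0 ≤ (1 : ℝ) + s * x ∧ (1 : ℝ) + s * x ≤ 2 := by
  have h := abs_le.1 hx
  rcases hs with rfl | rfl
  · push_cast
    constructor <;> linarith
  · push_cast
    constructor <;> linarith

private lemma jac_abs (a : ℤ) (p : ℕ) : |((J(a | p) : ℤ) : ℝ)| ≤ 1 := by
  rcases jacobiSym.trichotomy a p with h | h | h <;> rw [h] <;> norm_num

theorem sym_primes (a b c : ℤ) (ha : ¬ IsSquare a) (hb : ¬ IsSquare b) (hab : ¬ IsSquare (a * b))
    (hc : ¬ IsSquare c) (hac : ¬ IsSquare (a * c)) (hbc : ¬ IsSquare (b * c))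
    (habc : ¬ IsSquare (a * b * c)) (sa sb sc : ℤ) (h1 : sa = 1 ∨ sa = -1)
    (h2 : sb = 1 ∨ sb = -1) (h3 : sc = 1 ∨ sc = -1) (N : ℕ) :
    ∃ p : ℕ, N < p ∧ p.Prime ∧ J(a | p) = sa ∧ J(b | p) = sb ∧ J(c | p) = sc := by
  classical
  have ha0 := ns_ne ha
  have hb0 := ns_ne hb
  have hc0 := ns_ne hc
  set E : ℕ → ℝ := fun p => (1 + sa * ((J(a | p) : ℤ) : ℝ)) * (1 + sb * ((J(b | p) : ℤ) : ℝ)) *
    (1 + sc * ((J(c | p) : ℤ) : ℝ)) with hE
  have hM : Mert E 1 := by
    have h4 := ((((((Mert.one.add ((Mert.jacobi ha0 ha).const_mul sa)).add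
      ((Mert.jacobi hb0 hb).const_mul sb)).add ((Mert.jacobi (ns_ne hab) hab).const_mul (sa * sb))).add
      ((Mert.jacobi hc0 hc).const_mul sc)).add ((Mert.jacobi (ns_ne hac) hac).const_mul (sa * sc))).add
      ((Mert.jacobi (ns_ne hbc) hbc).const_mul (sb * sc))).add
      ((Mert.jacobi (ns_ne habc) habc).const_mul (sa * sb * sc))
    have h5 : (1 + (sa : ℝ) * 0 + (sb : ℝ) * 0 + (sa * sb : ℝ) * 0 + (sc : ℝ) * 0 + (sa * sc : ℝ) * 0 +
        (sb * sc : ℝ) * 0 + (sa * sb * sc : ℝ) * 0 : ℝ) = 1 := by ring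
    rw [h5] at h4
    refine h4.congr 0 fun p hp _ => ?_
    rw [hE]
    simp only [jacobiSym.mul_left]
    push_cast
    ring
  obtain ⟨C, hC0, hC⟩ := hM.loglog
  have hlim : Filter.Tendsto (fun N : ℕ => Real.log (Real.log N)) Filter.atTop Filter.atTop :=
    Real.tendsto_log_atTop.comp (Real.tendsto_log_atTop.comp tendsto_natCast_atTop_atTop)
  set B : ℕ := max N (max a.natAbs (max b.natAbs c.natAbs)) with hB
  obtain ⟨n, hn⟩ := ((hlim.eventually_ge_atTop (C + 8 * (B + 1) + 1)).and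
    (Filter.eventually_ge_atTop 2)).exists
  have h4 := (abs_le.1 (hC n hn.2)).1
  rw [one_mul] at h4
  have hEb : ∀ p, 0 ≤ E p ∧ E p ≤ 8 := by
    intro p
    have u1 := pm_le (jac_abs a p) h1
    have u2 := pm_le (jac_abs b p) h2
    have u3 := pm_le (jac_abs c p) h3
    refine ⟨mul_nonneg (mul_nonneg u1.1 u2.1) u3.1, ?_⟩
    calc E p ≤ 2 * 2 * 2 := by
          rw [hE]
          exact mul_le_mul (mul_le_mul u1.2 u2.2 u2.1 (by norm_num)) u3.2 u3.1 (by norm_num)
      _ = 8 := by norm_num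
  have hex : ∃ p ∈ (Icc 0 n).filter Nat.Prime, B < p ∧ E p ≠ 0 := by
    by_contra hcon
    push Not at hcon
    have h6 : ∑ p ∈ (Icc 0 n).filter Nat.Prime, E p / p ≤ ∑ p ∈ Icc 0 B, (8 : ℝ) := by
      have h7 : ∀ p ∈ (Icc 0 n).filter Nat.Prime, E p / p ≤ if p ∈ Icc 0 B then (8 : ℝ) else 0 := by
        intro p hp
        by_cases hpB : p ≤ B
        · rw [if_pos (mem_Icc.2 ⟨Nat.zero_le _, hpB⟩)]
          have h8 : (1 : ℝ) ≤ p := by exact_mod_cast (mem_filter.1 hp).2.one_lt.le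
          rw [div_le_iff₀ (by linarith)]
          have := (hEb p).2
          linarith
        · rw [if_neg (fun h => hpB (mem_Icc.1 h).2), hcon p hp (by omega)]
          simp
      refine (sum_le_sum h7).trans ?_
      rw [← sum_filter]
      exact sum_le_sum_of_subset_of_nonneg (fun x hx => (mem_filter.1 hx).2)
        (fun _ _ _ => by norm_num)
    rw [sum_const, Nat.card_Icc, nsmul_eq_mul] at h6
    push_cast at h6
    have h9 := hn.1
    have h10 : ((B + 1 - 0 : ℕ) : ℝ) = B + 1 := by push_cast; ring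
    have : ∑ p ∈ (Icc 0 n).filter Nat.Prime, E p / p ≤ 8 * ((B : ℝ) + 1) := by
      refine h6.trans (le_of_eq ?_)
      ring
    linarith
  obtain ⟨p, hp, hBp, hEp⟩ := hex
  have hpp := (mem_filter.1 hp).2
  have hNp : N < p := lt_of_le_of_lt (le_max_left _ _) hBp
  have k1 : a.natAbs < p := lt_of_le_of_lt ((le_max_left _ _).trans (le_max_right _ _)) hBp
  have k2 : b.natAbs < p := lt_of_le_of_lt
    ((le_max_left _ _).trans ((le_max_right _ _).trans (le_max_right _ _))) hBp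
  have k3 : c.natAbs < p := lt_of_le_of_lt
    ((le_max_right _ _).trans ((le_max_right _ _).trans (le_max_right _ _))) hBp
  rw [hE] at hEp
  have e1 := left_ne_zero_of_mul (left_ne_zero_of_mul hEp)
  have e2 := right_ne_zero_of_mul (left_ne_zero_of_mul hEp)
  have e3 := right_ne_zero_of_mul hEp
  exact ⟨p, hNp, hpp, pm_eq (jac_pm hpp ha0 k1) h1 e1, pm_eq (jac_pm hpp hb0 k2) h2 e2,
    pm_eq (jac_pm hpp hc0 k3) h3 e3⟩

end Stoll308.TD
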