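import Pool.Agent.Work.MP_308fa9_nt.TD.Defs
import Pool.Agent.Work.MP_308fa9_nt.TD.Sym

set_option autoImplicit false

/-!
The condition on the primes in the case of two branch values, if `q` is the product of two polynomials
of even degree.
-/

namespace Stoll308.TD

open Polynomial Finset BF NumberTheorySymbols

private lemma rs_eq {K : Type*} [Field K] (f g : K[X]) (hf : f.Monic) (n : ℕ)
    (hn : g.natDegree ≤ n) :
    resultant f g f.natDegree n = resultant f g f.natDegree g.natDegree := by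
  obtain ⟨k, rfl⟩ := Nat.exists_eq_add_of_le hn
  rw [resultant_add_right_deg _ _ _ _ _ le_rfl, hf.coeff_natDegree, one_pow, one_mul]

private lemma rs_mul {K : Type*} [Field K] (f g h : K[X]) (hf : f.Monic) :
    resultant f (g * h) = resultant f g * resultant f h := by
  rw [← rs_eq f (g * h) hf _ natDegree_mul_le, resultant_mul_right f g h _ le_rfl]

private lemma rs_congr {K : Type*} [Field K] (f g h : K[X]) (hf : f.Monic) (hd : f ∣ g - h) :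
    resultant f g = resultant f h := by
  obtain ⟨p, hp⟩ := hd
  have h1 : g = h + f * p := by rw [← hp]; ring
  set n := p.natDegree + f.natDegree + h.natDegree + g.natDegree with hn
  rw [← rs_eq f g hf n (by omega), ← rs_eq f h hf n (by omega), h1]
  exact resultant_add_mul_right _ _ _ _ _ (by omega) le_rfl

private lemma rs_C {K : Type*} [Field K] (f : K[X]) (u : K) :
    resultant f (C u) = u ^ f.natDegree := by
  rw [resultant_C_right, natDegree_C, pow_zero, one_mul]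

private lemma rs_lin {K : Type*} [Field K] (f : K[X]) (r : K) (hf : f.Monic) :
    resultant f (C r - X) = (-1) ^ f.natDegree * (-1) ^ f.natDegree * f.eval r := by
  have h1 : (C r - X : K[X]) = C (-1) * (X - C r) := by
    rw [C_neg, C_1]; ring
  rw [← rs_eq f (C r - X) hf 1 (by
    have h2 : (C r - X : K[X]) = -(X - C r) := by ring
    rw [h2, natDegree_neg, natDegree_X_sub_C]), h1, resultant_C_mul_right,
    resultant_X_sub_C_right _ _ _ le_rfl]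
  ring

/-- The norm of the class of a point. -/
private lemma cls_norm {m : ℕ} (b : Fin (m + 1) → ℤ) (f : ℚ[X]) (hf : f.Monic) (hfd : f ∣ GZ ℚ b)
    (he : Even f.natDegree) (ε : ℚ[X]) (p : ℕ) [Fact p.Prime] (r : ℤ) (h : ClsAt b ε p r) :
    ∃ v : ℚ_[p], ((f.eval (r : ℚ) : ℚ) : ℚ_[p]) = v ^ 2 * ((resultant f ε : ℚ) : ℚ_[p]) := by
  obtain ⟨u, s, hu, h⟩ := h
  set φ := algebraMap ℚ ℚ_[p] with hφ
  have hmon : (f.map φ).Monic := hf.map φ
  have hdeg : (f.map φ).natDegree = f.natDegree := hf.natDegree_map φ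
  have hGZ : (GZ ℚ b).map φ = GZ ℚ_[p] b := by
    simp [GZ, gpol, Polynomial.map_sum]
  have h1 : f.map φ ∣ (C (r : ℚ_[p]) - X) - C u * ε.map φ * s ^ 2 := by
    refine dvd_trans ?_ h
    rw [← hGZ]
    exact Polynomial.map_dvd φ hfd
  have h2 := rs_congr _ _ _ hmon h1
  rw [rs_lin _ _ hmon, sq s, ← mul_assoc, rs_mul _ _ _ hmon, rs_mul _ _ _ hmon, rs_mul _ _ _ hmon,
    rs_C] at h2
  have h3 : resultant (f.map φ) (ε.map φ) = φ (resultant f ε) := by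
    rw [← resultant_map_map, natDegree_map φ, natDegree_map φ]
  obtain ⟨d, hd⟩ := he
  refine ⟨u ^ d * resultant (f.map φ) s, ?_⟩
  have h4 : (f.map φ).eval (r : ℚ_[p]) = φ (f.eval (r : ℚ)) := by
    have h5 := eval_map_apply (p := f) φ (r : ℚ)
    rw [map_intCast] at h5
    exact h5
  have h8 : u ^ (f.map φ).natDegree = (u ^ d) ^ 2 := by
    rw [hdeg, hd]
    ring
  have h9 : (-1 : ℚ_[p]) ^ (f.map φ).natDegree * (-1) ^ (f.map φ).natDegree = 1 := by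
    rw [← mul_pow, neg_one_mul, neg_neg, one_pow]
  rw [h4, h3, h8, h9, one_mul] at h2
  have h6 : ((f.eval (r : ℚ) : ℚ) : ℚ_[p]) = φ (f.eval (r : ℚ)) := (eq_ratCast φ _).symm
  have h7 : ((resultant f ε : ℚ) : ℚ_[p]) = φ (resultant f ε) := (eq_ratCast φ _).symm
  rw [h6, h7, h2]
  ring

private lemma jac_of_sq (p : ℕ) [Fact p.Prime] (n z : ℤ) (hz : ¬ (p : ℤ) ∣ z)
    (h : (p : ℤ) ∣ z ^ 2 - n) : J(n | p) = 1 := by
  rw [← jacobiSym.legendreSym.to_jacobiSym]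
  have h1 : ((z : ℤ) : ZMod p) ^ 2 = (n : ZMod p) := by
    have h2 := (ZMod.intCast_zmod_eq_zero_iff_dvd (z ^ 2 - n) p).2 h
    push_cast at h2
    exact sub_eq_zero.1 h2
  have h2 : ((z : ℤ) : ZMod p) ≠ 0 := fun h3 =>
    hz ((ZMod.intCast_zmod_eq_zero_iff_dvd z p).1 h3)
  have h3 : (n : ZMod p) ≠ 0 := by
    rw [← h1]
    exact pow_ne_zero 2 h2
  exact (legendreSym.eq_one_iff p h3).2 ⟨z, by rw [← h1, sq]⟩

private lemma jac_of_padic (p : ℕ) [hp : Fact p.Prime] (n : ℤ) (hn : ¬ (p : ℤ) ∣ n) (v : ℚ_[p])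
    (h : (n : ℚ_[p]) = v ^ 2) : J(n | p) = 1 := by
  have h1 : ‖(n : ℚ_[p])‖ = 1 := by
    rw [Padic.norm_intCast_eq_one_iff, isCoprime_comm]
    exact (Prime.coprime_iff_not_dvd (Nat.prime_iff_prime_int.mp hp.out)).2 hn
  have h2 : ‖v‖ ≤ 1 := by
    rw [h, norm_pow] at h1
    by_contra hcon
    push Not at hcon
    nlinarith [norm_nonneg v]
  set w : ℤ_[p] := ⟨v, h2⟩ with hw
  have h3 : (n : ℤ_[p]) = w ^ 2 := by
    apply Subtype.ext
    push_cast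
    rw [hw, h]
  have h4 := congrArg (PadicInt.toZMod (p := p)) h3
  rw [map_intCast, map_pow] at h4
  have h5 : (n : ZMod p) ≠ 0 := fun h6 =>
    hn ((ZMod.intCast_zmod_eq_zero_iff_dvd n p).1 h6)
  rw [← jacobiSym.legendreSym.to_jacobiSym]
  exact (legendreSym.eq_one_iff p h5).2 ⟨PadicInt.toZMod w, by rw [h4, sq]⟩

private lemma jac_congr (p : ℕ) [Fact p.Prime] (n n' : ℤ) (h : (p : ℤ) ∣ n - n') :
    J(n | p) = J(n' | p) := by
  rw [← jacobiSym.legendreSym.to_jacobiSym, ← jacobiSym.legendreSym.to_jacobiSym]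
  have h1 : (n : ZMod p) = (n' : ZMod p) := by
    have h2 := (ZMod.intCast_zmod_eq_zero_iff_dvd (n - n') p).2 h
    push_cast at h2
    exact sub_eq_zero.1 h2
  unfold legendreSym
  rw [h1]

private lemma br_two {m : ℕ} (b : Fin (m + 1) → ℤ) (α β : ℤ) (p : ℕ) [hp : Fact p.Prime] (r : ℤ)
    (h : Br b ((X - C α) * (X - C β)) 1 0 p r) :
    ((p : ℤ) ∣ r - α ∨ (p : ℤ) ∣ r - β) ∧ J((GZ ℤ b).eval r | p) = 1 := by
  rcases h with ⟨h1, z, hz, h2⟩ | h1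
  · refine ⟨?_, jac_of_sq p _ z hz h2⟩
    rw [eval_mul, eval_sub, eval_sub, eval_X, eval_C, eval_C] at h1
    exact (Nat.prime_iff_prime_int.mp hp.out).dvd_or_dvd h1
  · exfalso
    have h3 : (nF b 1 0).eval r = 1 := by
      simp [nF]
    rw [h3] at h1
    exact (Nat.prime_iff_prime_int.mp hp.out).not_isUnit (isUnit_of_dvd_one h1)

/-- The integer which represents the norm of the class. -/
private lemma exists_E {m : ℕ} (b : Fin (m + 1) → ℤ) (q₁ q₂ : ℤ[X]) (hq : GZ ℤ b = q₁ * q₂)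
    (he : Even q₁.natDegree) (h0 : q₁ ≠ 0) (ε : ℚ[X]) (hε : IsCoprime ε (GZ ℚ b)) :
    ∃ E : ℤ, E ≠ 0 ∧ ∀ (p : ℕ) [Fact p.Prime] (r : ℤ), ClsAt b ε p r →
      ∃ v : ℚ_[p], ((q₁.eval r * E : ℤ) : ℚ_[p]) = v ^ 2 := by
  set ℓ : ℤ := q₁.leadingCoeff with hℓ
  have hℓ0 : ℓ ≠ 0 := leadingCoeff_ne_zero.2 h0
  have hℓq : (ℓ : ℚ) ≠ 0 := by exact_mod_cast hℓ0
  set f : ℚ[X] := C (ℓ : ℚ)⁻¹ * q₁.map (Int.castRingHom ℚ) with hf
  have hlc : (q₁.map (Int.castRingHom ℚ)).leadingCoeff = ℓ := by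
    rw [leadingCoeff_map_of_injective (RingHom.injective_int _)]
    rfl
  have hmon : f.Monic := by
    rw [hf, Monic, leadingCoeff_mul, leadingCoeff_C, hlc, inv_mul_cancel₀ hℓq]
  have hdeg : f.natDegree = q₁.natDegree := by
    rw [hf, natDegree_C_mul (inv_ne_zero hℓq),
      natDegree_map_eq_of_injective (RingHom.injective_int _)]
  have hGZ : (GZ ℤ b).map (Int.castRingHom ℚ) = GZ ℚ b := by
    simp [GZ, gpol, Polynomial.map_sum]
  have hfd : f ∣ GZ ℚ b := by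
    rw [← hGZ, hq, Polynomial.map_mul]
    refine ⟨C (ℓ : ℚ) * q₂.map (Int.castRingHom ℚ), ?_⟩
    have h1 : (C (ℓ : ℚ)⁻¹ * C (ℓ : ℚ) : ℚ[X]) = 1 := by
      rw [← C_mul, inv_mul_cancel₀ hℓq, C_1]
    rw [hf]
    linear_combination (-(q₁.map (Int.castRingHom ℚ) * q₂.map (Int.castRingHom ℚ))) * h1
  have hcop : IsCoprime f ε := (hε.of_isCoprime_of_dvd_right hfd).symm
  set e : ℚ := resultant f ε with hee
  have he0 : e ≠ 0 := resultant_ne_zero f ε hcop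
  refine ⟨ℓ * (e.num * e.den), mul_ne_zero hℓ0 (mul_ne_zero (Rat.num_ne_zero.2 he0)
    (by exact_mod_cast e.den_ne_zero)), fun p _ r h => ?_⟩
  obtain ⟨v, hv⟩ := cls_norm b f hmon hfd (hdeg ▸ he) ε p r h
  refine ⟨(ℓ : ℚ_[p]) * v * (e.num : ℚ_[p]), ?_⟩
  have h2 : ((f.eval (r : ℚ) : ℚ) : ℚ_[p]) = (ℓ : ℚ_[p])⁻¹ * ((q₁.eval r : ℤ) : ℚ_[p]) := by
    have h3 : (q₁.map (Int.castRingHom ℚ)).eval (r : ℚ) = ((q₁.eval r : ℤ) : ℚ) := by
      have h5 := eval_map_apply (p := q₁) (Int.castRingHom ℚ) r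
      simpa using h5
    rw [hf, eval_mul, eval_C, h3]
    push_cast
    ring
  have hℓp : (ℓ : ℚ_[p]) ≠ 0 := by exact_mod_cast hℓ0
  have hden : (e.den : ℚ_[p]) ≠ 0 := by exact_mod_cast e.den_ne_zero
  have h6 : ((e : ℚ) : ℚ_[p]) * (e.den : ℚ_[p]) = (e.num : ℚ_[p]) := by
    have h7 := Rat.mul_den_eq_num e
    exact_mod_cast congrArg (fun x : ℚ => (x : ℚ_[p])) h7
  rw [h2] at hv
  have h8 : ((q₁.eval r : ℤ) : ℚ_[p]) = ℓ * (v ^ 2 * (e : ℚ_[p])) := by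
    rw [← hv, mul_inv_cancel_left₀ hℓp]
  push_cast
  rw [h8]
  linear_combination (ℓ : ℚ_[p]) ^ 2 * v ^ 2 * (e.num : ℚ_[p]) * h6

private lemma sq_cancel {x w : ℤ} (hw : w ≠ 0) (h : IsSquare (x * w ^ 2)) : IsSquare x := by
  obtain ⟨y, hy⟩ := h
  have h1 : w ^ 2 ∣ y ^ 2 := ⟨x, by rw [sq y, ← hy]; ring⟩
  obtain ⟨z, rfl⟩ := (Int.pow_dvd_pow_iff two_ne_zero).1 h1
  refine ⟨z, mul_right_cancel₀ (pow_ne_zero 2 hw) ?_⟩
  rw [hy]
  ring

private lemma jac_square {x : ℤ} {p : ℕ} (hp : p.Prime) (h0 : x ≠ 0) (hlt : x.natAbs < p)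
    (h : IsSquare x) : J(x | p) = 1 := by
  obtain ⟨y, rfl⟩ := h
  have hy : y ≠ 0 := fun h => h0 (by rw [h, mul_zero])
  have h1 : y.natAbs < p := by
    rw [Int.natAbs_mul] at hlt
    have h2 : 1 ≤ y.natAbs := Int.natAbs_pos.2 hy
    nlinarith
  rw [jacobiSym.mul_left]
  rcases jac_pm hp hy h1 with h | h <;> rw [h] <;> norm_num

private lemma pick (a b c c₁ c₂ w : ℤ) (hw0 : w ≠ 0) (hw : c₁ * c₂ = c * w ^ 2)
    (ha : ¬ IsSquare a) (hb : ¬ IsSquare b) (hab : ¬ IsSquare (a * b)) (hc : ¬ IsSquare c)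
    (hac : ¬ IsSquare (a * c)) (hbc : ¬ IsSquare (b * c)) (habc : ¬ IsSquare (a * b * c)) (N : ℕ) :
    ∃ p : ℕ, N < p ∧ p.Prime ∧ ((J(a | p) = -1 ∧ J(b | p) = 1 ∧ J(c₁ | p) = -1) ∨
      (J(a | p) = 1 ∧ J(b | p) = -1 ∧ J(c₂ | p) = -1)) := by
  have ha0 := ns_ne ha
  have hb0 := ns_ne hb
  have hcw : c * w ^ 2 ≠ 0 := mul_ne_zero (ns_ne hc) (pow_ne_zero 2 hw0)
  have hc1 : c₁ ≠ 0 := by
    rintro rfl
    rw [zero_mul] at hw
    exact hcw hw.symm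
  by_cases h3 : IsSquare (a * c₁)
  · obtain ⟨p, hp, hpp, e1, e2, -⟩ := sym_primes a b c ha hb hab hc hac hbc habc (-1) 1 1
      (Or.inr rfl) (Or.inl rfl) (Or.inl rfl) (max N (a * c₁).natAbs)
    refine ⟨p, lt_of_le_of_lt (le_max_left _ _) hp, hpp, Or.inl ⟨e1, e2, ?_⟩⟩
    have h4 := jac_square hpp (mul_ne_zero ha0 hc1) (lt_of_le_of_lt (le_max_right _ _) hp) h3
    rw [jacobiSym.mul_left, e1] at h4
    linarith
  by_cases h4 : IsSquare (a * b * c₁)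
  · obtain ⟨p, hp, hpp, e1, e2, -⟩ := sym_primes a b c ha hb hab hc hac hbc habc (-1) 1 1
      (Or.inr rfl) (Or.inl rfl) (Or.inl rfl) (max N (a * b * c₁).natAbs)
    refine ⟨p, lt_of_le_of_lt (le_max_left _ _) hp, hpp, Or.inl ⟨e1, e2, ?_⟩⟩
    have h5 := jac_square hpp (mul_ne_zero (mul_ne_zero ha0 hb0) hc1)
      (lt_of_le_of_lt (le_max_right _ _) hp) h4
    rw [jacobiSym.mul_left, jacobiSym.mul_left, e1, e2] at h5
    linarith
  by_cases h12 : IsSquare c₁ ∨ IsSquare (b * c₁)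
  · have key : ∀ x : ℤ, ¬ IsSquare (x * c) → ¬ IsSquare (b * x * c) → ¬ IsSquare (x * c₂) := by
      intro x hx1 hx2 hx
      obtain ⟨z, hz⟩ := hx
      rcases h12 with ⟨y, hy⟩ | ⟨y, hy⟩
      · refine hx1 (sq_cancel hw0 ⟨y * z, ?_⟩)
        linear_combination (-x) * hw + x * c₂ * hy + y * y * hz
      · refine hx2 (sq_cancel hw0 ⟨y * z, ?_⟩)
        linear_combination (-(b * x)) * hw + x * c₂ * hy + y * y * hz
    have sqb : ∀ x : ℤ, ¬ IsSquare x → ¬ IsSquare (x * b ^ 2) := fun x hx h => hx (sq_cancel hb0 h)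
    obtain ⟨p, hp, hpp, e1, e2, e3⟩ := sym_primes a b c₂ ha hb hab
      (by
        have := key 1 (by rwa [one_mul]) (by rwa [mul_one])
        rwa [one_mul] at this)
      (key a hac (by
        have h5 : b * a * c = a * b * c := by ring
        rwa [h5]))
      (key b hbc (by
        have h5 : b * b * c = c * b ^ 2 := by ring
        rw [h5]
        exact sqb c hc))
      (key (a * b) habc (by
        have h5 : b * (a * b) * c = a * c * b ^ 2 := by ring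
        rw [h5]
        exact sqb _ hac)) 1 (-1) (-1)
      (Or.inl rfl) (Or.inr rfl) (Or.inr rfl) N
    exact ⟨p, hp, hpp, Or.inr ⟨e1, e2, e3⟩⟩
  · push Not at h12
    obtain ⟨p, hp, hpp, e1, e2, e3⟩ := sym_primes a b c₁ ha hb hab h12.1 h3 h12.2 h4 (-1) 1 (-1)
      (Or.inr rfl) (Or.inl rfl) (Or.inr rfl) N
    exact ⟨p, hp, hpp, Or.inl ⟨e1, e2, e3⟩⟩

private lemma lt_ndvd {x : ℤ} {p : ℕ} (h0 : x ≠ 0) (hlt : x.natAbs < p) : ¬ (p : ℤ) ∣ x := by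
  intro h
  have h1 := Int.natAbs_dvd_natAbs.2 h
  rw [Int.natAbs_natCast] at h1
  have h2 := Nat.le_of_dvd (Int.natAbs_pos.2 h0) h1
  omega

private lemma eval_congr (f : ℤ[X]) {p r α : ℤ} (h : p ∣ r - α) : p ∣ f.eval r - f.eval α :=
  h.trans (sub_dvd_eval_sub r α f)

/-- A square modulo `p`. -/
private lemma exists_z (p : ℕ) [Fact p.Prime] (n : ℤ) (h : J(n | p) = 1) :
    ∃ z : ℤ, ¬ (p : ℤ) ∣ z ∧ (p : ℤ) ∣ z ^ 2 - n := by
  rw [← jacobiSym.legendreSym.to_jacobiSym] at h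
  have h0 : (n : ZMod p) ≠ 0 := by
    intro h1
    rw [(legendreSym.eq_zero_iff p n).2 h1] at h
    exact zero_ne_one h
  obtain ⟨y, hy⟩ := (legendreSym.eq_one_iff p h0).1 h
  obtain ⟨z, rfl⟩ := ZMod.intCast_surjective y
  refine ⟨z, fun h1 => h0 ?_, ?_⟩
  · rw [hy, (ZMod.intCast_zmod_eq_zero_iff_dvd z p).2 h1, mul_zero]
  · rw [← ZMod.intCast_zmod_eq_zero_iff_dvd]
    push_cast
    rw [hy]
    ring

theorem crit {m : ℕ} (b : Fin (m + 1) → ℤ) (q₁ q₂ : ℤ[X]) (hq : GZ ℤ b = q₁ * q₂)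
    (he : Even q₁.natDegree) (α β : ℤ)
    (ha : ¬ IsSquare ((GZ ℤ b).eval α)) (hb : ¬ IsSquare ((GZ ℤ b).eval β))
    (hab : ¬ IsSquare ((GZ ℤ b).eval α * (GZ ℤ b).eval β))
    (hc : ¬ IsSquare (q₁.eval α * q₁.eval β))
    (hac : ¬ IsSquare ((GZ ℤ b).eval α * (q₁.eval α * q₁.eval β)))
    (hbc : ¬ IsSquare ((GZ ℤ b).eval β * (q₁.eval α * q₁.eval β)))
    (habc : ¬ IsSquare ((GZ ℤ b).eval α * (GZ ℤ b).eval β * (q₁.eval α * q₁.eval β)))
    (ε : ℚ[X]) (hε : IsCoprime ε (GZ ℚ b)) (N : ℕ) :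
    ∃ p : ℕ, N < p ∧ p.Prime ∧ RW b ((X - C α) * (X - C β)) 1 0 p ∧
      ¬ RE b ((X - C α) * (X - C β)) 1 0 ε p := by
  have hq1 : q₁ ≠ 0 := by
    rintro rfl
    exact hc ⟨0, by simp⟩
  obtain ⟨E, hE0, hE⟩ := exists_E b q₁ q₂ hq he hq1 ε hε
  have hα0 : q₁.eval α ≠ 0 := left_ne_zero_of_mul (ns_ne hc)
  have hβ0 : q₁.eval β ≠ 0 := right_ne_zero_of_mul (ns_ne hc)
  obtain ⟨p, hp, hpp, h⟩ := pick ((GZ ℤ b).eval α) ((GZ ℤ b).eval β) (q₁.eval α * q₁.eval β)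
    (q₁.eval β * E) (q₁.eval α * E) E hE0 (by ring) ha hb hab hc hac hbc habc
    (max N (max (q₁.eval α * E).natAbs (q₁.eval β * E).natAbs))
  haveI : Fact p.Prime := ⟨hpp⟩
  have hlt1 : (q₁.eval α * E).natAbs < p :=
    lt_of_le_of_lt ((le_max_left _ _).trans (le_max_right _ _)) hp
  have hlt2 : (q₁.eval β * E).natAbs < p :=
    lt_of_le_of_lt ((le_max_right _ _).trans (le_max_right _ _)) hp
  have hnd1 := lt_ndvd (mul_ne_zero hα0 hE0) hlt1
  have hnd2 := lt_ndvd (mul_ne_zero hβ0 hE0) hlt2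
  -- the class at a point which reduces to `γ`
  have key : ∀ r γ : ℤ, ¬ (p : ℤ) ∣ q₁.eval γ * E → (p : ℤ) ∣ r - γ → ClsAt b ε p r →
      J(q₁.eval γ * E | p) = 1 := by
    intro r γ hγ hr hcl
    have h1 : (p : ℤ) ∣ q₁.eval r * E - q₁.eval γ * E := by
      rw [← sub_mul]
      exact Dvd.dvd.mul_right (eval_congr q₁ hr) _
    obtain ⟨v, hv⟩ := hE p r hcl
    have h2 : ¬ (p : ℤ) ∣ q₁.eval r * E := fun h3 => hγ ((dvd_iff_dvd_of_dvd_sub h1).1 h3)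
    rw [← jac_congr p _ _ h1]
    exact jac_of_padic p _ h2 v hv
  have hrw : ∀ γ : ℤ, (γ = α ∨ γ = β) → J((GZ ℤ b).eval γ | p) = 1 →
      RW b ((X - C α) * (X - C β)) 1 0 p := by
    intro γ hγ hJ
    refine ⟨γ, Or.inl ⟨?_, exists_z p _ hJ⟩⟩
    rcases hγ with rfl | rfl
    · simp
    · simp
  refine ⟨p, lt_of_le_of_lt (le_max_left _ _) hp, hpp, ?_, ?_⟩
  · rcases h with h | h
    · exact hrw β (Or.inr rfl) h.2.1
    · exact hrw α (Or.inl rfl) h.1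
  · rintro ⟨_, r, hbr, hcl⟩
    obtain ⟨hr, hJ⟩ := br_two b α β p r hbr
    rcases h with ⟨e1, e2, e3⟩ | ⟨e1, e2, e3⟩
    · rcases hr with hr | hr
      · rw [jac_congr p _ _ (eval_congr (GZ ℤ b) hr), e1] at hJ
        norm_num at hJ
      · rw [key r β hnd2 hr hcl] at e3
        norm_num at e3
    · rcases hr with hr | hr
      · rw [key r α hnd1 hr hcl] at e3
        norm_num at e3
      · rw [jac_congr p _ _ (eval_congr (GZ ℤ b) hr), e2] at hJ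
        norm_num at hJ

end Stoll308.TD
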