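import Pool.Agent.Work.MP_308fa9_nt.FQ.Split
import Pool.Agent.Work.MP_308fa9_nt.NE.DenseNS
import Pool.Agent.Work.MP_308fa9_nt.ChebE

set_option autoImplicit false

/-!
Chebotarev's theorem for the divisions: there are many primes of the same type as a given one.
-/

namespace Stoll308.TD

open Finset NumberField

/-- The primes `p₀` and `p` have the same type for the elements of `S`: for compatible reductions the
elements are in the same finite extensions of the prime field. -/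
def SameType (L : Type) [Field L] [NumberField L] (S : Finset (𝓞 L)) (p₀ p : ℕ) : Prop :=
  ∃ (_ : Fact p₀.Prime) (_ : Fact p.Prime) (φ₀ : 𝓞 L →+* AlgebraicClosure (ZMod p₀))
    (φ : 𝓞 L →+* AlgebraicClosure (ZMod p)), ∀ x ∈ S, ∀ d : ℕ,
      (φ₀ x) ^ p₀ ^ d = φ₀ x ↔ (φ x) ^ p ^ d = φ x

namespace CycAux

open Stoll308.Cheb Ideal

variable {L : Type} [Field L] [NumberField L]

/-- The reduction modulo a prime ideal as a map to the algebraic closure of the prime field. -/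
lemma exists_red {p : ℕ} [hp : Fact p.Prime] {P : Ideal (𝓞 L)} {σ : L ≃ₐ[ℚ] L}
    (h : IsFrob L p P σ) :
    ∃ φ : 𝓞 L →+* AlgebraicClosure (ZMod p), ∀ x, φ x = 0 ↔ x ∈ P := by
  have hP0 : P ≠ ⊥ := by
    rintro rfl
    have := h.mem
    rw [Ideal.mem_bot] at this
    exact hp.out.ne_zero (by exact_mod_cast this)
  have hpr := h.prime
  have hmax : P.IsMaximal := hpr.isMaximal hP0
  let _ := Ideal.Quotient.field P
  have hchar : CharP (𝓞 L ⧸ P) p := by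
    refine ⟨fun k => ?_⟩
    have h1 := h.int_mem (k : ℤ)
    rw [Int.natCast_dvd_natCast] at h1
    rw [← h1, ← Ideal.Quotient.eq_zero_iff_mem]
    simp
  let _ : Algebra (ZMod p) (𝓞 L ⧸ P) := ZMod.algebra _ p
  have hfin : Finite (𝓞 L ⧸ P) := Ideal.finiteQuotientOfFreeOfNeBot P hP0
  have halg : Algebra.IsAlgebraic (ZMod p) (𝓞 L ⧸ P) := inferInstance
  let ψ : (𝓞 L ⧸ P) →ₐ[ZMod p] AlgebraicClosure (ZMod p) := IsAlgClosed.lift
  refine ⟨(ψ : (𝓞 L ⧸ P) →+* AlgebraicClosure (ZMod p)).comp (Ideal.Quotient.mk P), fun x => ?_⟩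
  rw [RingHom.comp_apply, ← Ideal.Quotient.eq_zero_iff_mem]
  exact map_eq_zero_iff _ (RingHom.injective _)

lemma pow_eq {p : ℕ} {P : Ideal (𝓞 L)} {σ : L ≃ₐ[ℚ] L} (h : IsFrob L p P σ)
    {R : Type*} [CommRing R] (φ : 𝓞 L →+* R) (hφ : ∀ x ∈ P, φ x = 0) (x : 𝓞 L) (d : ℕ) :
    φ x ^ p ^ d = φ (σ ^ d • x) := by
  induction d with
  | zero => rw [pow_zero, pow_one, pow_zero, one_smul]
  | succ d ih =>
    rw [pow_succ, pow_mul, ih, pow_succ', mul_smul, ← map_pow]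
    have h1 := hφ _ (h.spec (σ ^ d • x))
    rw [map_sub, sub_eq_zero] at h1
    exact h1.symm

lemma fix_iff {p : ℕ} [hp : Fact p.Prime] {P : Ideal (𝓞 L)} {σ : L ≃ₐ[ℚ] L}
    (h : IsFrob L p P σ) (φ : 𝓞 L →+* AlgebraicClosure (ZMod p)) (hφ : ∀ x, φ x = 0 ↔ x ∈ P)
    (x : 𝓞 L) (d : ℕ)
    (hN : ∀ g : L ≃ₐ[ℚ] L, g • x ≠ x → ¬ p ∣ absNorm (span {g • x - x})) :
    φ x ^ p ^ d = φ x ↔ σ ^ d • x = x := by
  rw [pow_eq h φ (fun x hx => (hφ x).2 hx), ← sub_eq_zero, ← map_sub, hφ]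
  constructor
  · intro hm
    by_contra hne
    exact h.not_mem (hN _ hne) hm
  · intro he
    rw [he, sub_self]
    exact P.zero_mem

lemma fix_of_zpowers {G X : Type*} [Group G] [MulAction G X] {τ σ : G}
    (h : τ ∈ Subgroup.zpowers σ) (x : X) (d : ℕ) (hx : σ ^ d • x = x) : τ ^ d • x = x := by
  obtain ⟨k, rfl⟩ := Subgroup.mem_zpowers_iff.1 h
  have h1 : σ ^ d ∈ MulAction.stabilizer G x := hx
  have h2 := (MulAction.stabilizer G x).zpow_mem h1 k
  rw [← zpow_natCast, ← zpow_mul, mul_comm, zpow_mul, zpow_natCast]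
  exact h2

lemma zpowers_conj {G : Type*} [Group G] {σ τ : G}
    (h : Subgroup.zpowers σ = Subgroup.zpowers τ) (g : G) :
    Subgroup.zpowers (g * σ * g⁻¹) = Subgroup.zpowers (g * τ * g⁻¹) := by
  have h1 : ∀ a : G, Subgroup.zpowers (g * a * g⁻¹) =
      (Subgroup.zpowers a).map (MulAut.conj g).toMonoidHom := by
    intro a
    rw [MonoidHom.map_zpowers]
    rfl
  rw [h1, h1, h]

end CycAux

open CycAux in
theorem cyc (L : Type) [Field L] [NumberField L] [IsGalois ℚ L] (S : Finset (𝓞 L)) :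
    ∃ M : ℕ, ∀ p₀ : ℕ, p₀.Prime → M < p₀ → FQ.Dense {p | SameType L S p₀ p} := by
  classical
  obtain ⟨N, hN⟩ : ∃ N : ℕ, N = ∏ x ∈ S, ∏ g : L ≃ₐ[ℚ] L, ∏ k : L ≃ₐ[ℚ] L,
      (if k • g • x = g • x then 1 else Ideal.absNorm (Ideal.span {k • g • x - g • x})) :=
    ⟨_, rfl⟩
  have hN0 : N ≠ 0 := by
    rw [hN, Finset.prod_ne_zero_iff]
    intro x _
    rw [Finset.prod_ne_zero_iff]
    intro g _
    rw [Finset.prod_ne_zero_iff]
    intro k _
    split_ifs with h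
    · exact one_ne_zero
    · rw [Ideal.absNorm_ne_zero_iff_mem_nonZeroDivisors, mem_nonZeroDivisors_iff_ne_zero, Ne,
        Ideal.zero_eq_bot, Ideal.span_singleton_eq_bot, sub_eq_zero]
      exact h
  have hdv : ∀ x ∈ S, ∀ g k : L ≃ₐ[ℚ] L, k • g • x ≠ g • x →
      Ideal.absNorm (Ideal.span {k • g • x - g • x}) ∣ N := by
    intro x hx g k h
    rw [hN]
    refine dvd_trans ?_ (Finset.dvd_prod_of_mem _ hx)
    refine dvd_trans ?_ (Finset.dvd_prod_of_mem _ (Finset.mem_univ g))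
    refine dvd_trans ?_ (Finset.dvd_prod_of_mem _ (Finset.mem_univ k))
    rw [if_neg h]
  refine ⟨N, fun p₀ hp₀ hM => ?_⟩
  have hF₀ : Fact p₀.Prime := ⟨hp₀⟩
  have hp₀N : ¬ p₀ ∣ N := fun hd => absurd (Nat.le_of_dvd (Nat.pos_of_ne_zero hN0) hd) (by omega)
  obtain ⟨P₀, σ₀, h₀⟩ := Cheb.exists_frob L p₀
  obtain ⟨φ₀, hφ₀⟩ := exists_red h₀
  obtain ⟨A, hA⟩ : ∃ A : Set (L ≃ₐ[ℚ] L), A = {σ | ∃ g : L ≃ₐ[ℚ] L,
    Subgroup.zpowers (g * σ * g⁻¹) = Subgroup.zpowers σ₀} := ⟨_, rfl⟩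
  have hσ₀ : σ₀ ∈ A := by
    rw [hA]
    exact ⟨1, by rw [one_mul, inv_one, mul_one]⟩
  have hMV := Cheb.MV_class L (fun σ => if σ ∈ A then (1 : ℝ) else 0) (by
    intro g σ
    have : g * σ * g⁻¹ ∈ A ↔ σ ∈ A := by
      rw [hA]
      constructor
      · rintro ⟨k, hk⟩
        have h1 : k * g * σ * (k * g)⁻¹ = k * (g * σ * g⁻¹) * k⁻¹ := by group
        exact ⟨k * g, by rw [h1]; exact hk⟩
      · rintro ⟨k, hk⟩
        have h1 : k * g⁻¹ * (g * σ * g⁻¹) * (k * g⁻¹)⁻¹ = k * σ * k⁻¹ := by group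
        exact ⟨k * g⁻¹, by rw [h1]; exact hk⟩
    simp only [this]) (by
    intro σ τ h
    have : σ ∈ A ↔ τ ∈ A := by
      rw [hA]
      constructor
      · rintro ⟨k, hk⟩
        exact ⟨k, by rw [← hk]; exact zpowers_conj h.symm k⟩
      · rintro ⟨k, hk⟩
        exact ⟨k, by rw [← hk]; exact zpowers_conj h k⟩
    simp only [this])
  refine NE.DenseAux.dense_of_MV hMV ?_ ?_ N hN0 _ ?_
  · apply div_pos
    · apply sum_pos'
      · intro σ _
        split_ifs <;> norm_num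
      · exact ⟨σ₀, mem_univ _, by rw [if_pos hσ₀]; norm_num⟩
    · exact_mod_cast Fintype.card_pos
  · intro p
    split_ifs <;> norm_num
  · intro p hpN _ hpA
    have hp : Fact (p : ℕ).Prime := ⟨p.2⟩
    have hmem : Cheb.frob L p ∈ A := by
      by_contra hcon
      rw [if_neg hcon] at hpA
      exact lt_irrefl _ hpA
    rw [hA] at hmem
    obtain ⟨g, hg⟩ := hmem
    obtain ⟨φ, hφ⟩ := exists_red (Cheb.frob_spec L p)
    refine ⟨hF₀, hp, φ₀, φ.comp (MulSemiringAction.toRingHom (L ≃ₐ[ℚ] L) (𝓞 L) g⁻¹),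
      fun x hx d => ?_⟩
    have e1 := fix_iff h₀ φ₀ hφ₀ x d (by
      intro k hk hd
      have h1 := hdv x hx 1 k (by rwa [one_smul])
      rw [one_smul] at h1
      exact hp₀N (hd.trans h1))
    have e2 := fix_iff (Cheb.frob_spec L p) φ hφ (g⁻¹ • x) d (by
      intro k hk hd
      exact hpN (hd.trans (hdv x hx g⁻¹ k hk)))
    have e3 : (Cheb.frob L p) ^ d • g⁻¹ • x = g⁻¹ • x ↔
        (g * Cheb.frob L p * g⁻¹) ^ d • x = x := by
      rw [conj_pow, mul_smul, mul_smul]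
      constructor
      · intro h
        rw [h, smul_inv_smul]
      · intro h
        rw [eq_inv_smul_iff]
        exact h
    have e4 : (g * Cheb.frob L p * g⁻¹) ^ d • x = x ↔ σ₀ ^ d • x = x := by
      constructor
      · exact fix_of_zpowers (by rw [hg]; exact Subgroup.mem_zpowers _) x d
      · exact fix_of_zpowers (by rw [← hg]; exact Subgroup.mem_zpowers _) x d
    rw [e1, RingHom.comp_apply]
    change _ ↔ φ (g⁻¹ • x) ^ (p : ℕ) ^ d = φ (g⁻¹ • x)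
    rw [e2, e3, e4]

end Stoll308.TD
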