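import Pool.Agent.Work.MP_308fa9_nt.BF.Defs

set_option autoImplicit false

/-!
Quadratic twists of double covers of a fixed curve `D : w² = q(t)`. The double covers are given by the
functions `g(t) (A(t) + B(t) w)` on `D` with simple zeros. Definitions of the statement.
-/

namespace Stoll308.TD

open Polynomial Finset BF

variable {m : ℕ} (b : Fin (m + 1) → ℤ) (g A B : ℤ[X])

/-- The norm of `A + B w` to the polynomials in `t`, where `w² = q`. -/
noncomputable def nF : ℤ[X] := A ^ 2 - B ^ 2 * GZ ℤ b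

/-- The conditions on the polynomials: the degree of `q` is `m`, an even number; `q` is squarefree; the
function `g (A + B w)` on the curve `w² = q(t)` has only simple zeros, none of them a zero of `w`, it
has poles of the same even order in the two points over `t = ∞`, and it is not constant. -/
structure Data : Prop where
  m2 : 2 ≤ m
  me : Even m
  b0 : b 0 ≠ 0
  sq : Squarefree ((g * nF b A B * GZ ℤ b).map (Int.castRingHom ℚ))
  deg : ∃ e : ℕ, (nF b A B).natDegree = 2 * e ∧ A.natDegree ≤ e ∧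
    (B * X ^ (m / 2)).natDegree ≤ e ∧ Even (g.natDegree + e)
  nc : B ≠ 0 ∨ 0 < g.natDegree

/-- `(t, w, y)` is a point of the curve `w² = q(t)`, `k y² = g(t) (A(t) + B(t) w)`. -/
def Pt (k : ℤ) {K : Type*} [Field K] (t w y : K) : Prop :=
  w ^ 2 = (GZ K b).eval t ∧ (k : K) * y ^ 2 = aeval t g * (aeval t A + aeval t B * w)

/-- The affine curve (which is smooth) has a point over the field `K`. -/
def HasPoint (k : ℤ) (K : Type*) [Field K] : Prop := ∃ t w y : K, Pt b g A B k t w y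

/-- The curve has points over all completions of `ℚ`. -/
def ELS (k : ℤ) : Prop :=
  (∀ (p : ℕ) [Fact p.Prime], HasPoint b g A B k ℚ_[p]) ∧ HasPoint b g A B k ℝ

/-- There is a point over the field `K ⊇ ℚ` such that `t - ρ` is `u ε` times a square in
`K[ρ] = K[T]/(q)`, for a constant `u` of `K`. -/
def LocImage (k : ℤ) (ε : ℚ[X]) (K : Type*) [Field K] [Algebra ℚ K] : Prop :=
  ∃ (t w y u : K) (s : K[X]), w ≠ 0 ∧ u ≠ 0 ∧ Pt b g A B k t w y ∧
    GZ K b ∣ (C t - X) - C u * ε.map (algebraMap ℚ K) * s ^ 2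

/-- Some class `ε ∈ ℚ[ρ]ˣ` is, up to a common constant, the class of a point over `ℚ_p` for all odd
primes `p`. -/
def Sel (k : ℤ) : Prop :=
  ∃ ε : ℚ[X], IsCoprime ε (GZ ℚ b) ∧
    ∀ (p : ℕ) [Fact p.Prime], p ≠ 2 → LocImage b g A B k ε ℚ_[p]

/-- `r` is modulo `p` the coordinate `t` of a branch point, defined over `𝔽_p`. -/
def Br (p : ℕ) (r : ℤ) : Prop :=
  ((p : ℤ) ∣ g.eval r ∧ ∃ z : ℤ, ¬ (p : ℤ) ∣ z ∧ (p : ℤ) ∣ z ^ 2 - (GZ ℤ b).eval r) ∨
    (p : ℤ) ∣ (nF b A B).eval r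

/-- The class of `r - ρ` is the one of `ε` over `ℚ_p`, up to a constant. -/
def ClsAt (ε : ℚ[X]) (p : ℕ) [Fact p.Prime] (r : ℤ) : Prop :=
  ∃ (u : ℚ_[p]) (s : ℚ_[p][X]), u ≠ 0 ∧
    GZ ℚ_[p] b ∣ (C (r : ℚ_[p]) - X) - C u * ε.map (algebraMap ℚ ℚ_[p]) * s ^ 2

/-- There is a branch point over `𝔽_p`. -/
def RW (p : ℕ) : Prop := ∃ r : ℤ, Br b g A B p r

/-- There is a branch point over `𝔽_p` with the class `ε`. -/
def RE (ε : ℚ[X]) (p : ℕ) : Prop :=
  ∃ (_ : Fact p.Prime) (r : ℤ), Br b g A B p r ∧ ClsAt b ε p r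

open Classical in
/-- The number of squarefree integers `k`, `|k| ≤ X`, with the property `P`. -/
noncomputable def cnt (P : ℤ → Prop) (X : ℕ) : ℕ :=
  ((Icc (-(X : ℤ)) X).filter fun k => Squarefree k ∧ P k).card

end Stoll308.TD
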