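import Pool.Agent.Work.MP_308fa9_nt.TD.Defs
import Pool.Agent.Work.MP_308fa9_nt.DQ.Weil
import Pool.Agent.Work.MP_308fa9_nt.Gen.ElsLocal

set_option autoImplicit false

/-!
Points at the large primes which do not divide the twisting parameter.
-/

namespace Stoll308.TD

open Polynomial Finset BF

namespace ElsGAux

lemma gz_cast {R S : Type*} [CommRing R] [CommRing S] {n : ℕ} (a : Fin (n + 1) → ℤ) (f : R →+* S) :
    (GZ R a).map f = GZ S a := by
  unfold GZ gpol
  rw [Polynomial.map_sum]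
  refine Finset.sum_congr rfl fun i _ => ?_
  rw [Polynomial.map_mul, Polynomial.map_pow, map_X, map_C, map_intCast]

lemma hom_gz {R S : Type*} [CommRing R] [CommRing S] {n : ℕ} (a : Fin (n + 1) → ℤ) (f : R →+* S)
    (x : R) : f ((GZ R a).eval x) = (GZ S a).eval (f x) := by
  rw [← gz_cast a f, eval_map_apply]

lemma hom_aeval {R S : Type*} [CommRing R] [CommRing S] (f : R →+* S) (x : R) (g : ℤ[X]) :
    f (aeval x g) = aeval (f x) g := by
  have h := Polynomial.aeval_algHom_apply (f.toIntAlgHom) x g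
  exact h.symm

lemma aeval_eq {R : Type*} [CommRing R] (x : R) (g : ℤ[X]) :
    aeval x g = (g.map (Int.castRingHom R)).eval x := by
  rw [aeval_def, eval_map]
  rfl

/-- Lifting a point modulo `p`. -/
lemma lift {m : ℕ} (b : Fin (m + 1) → ℤ) (g A B : ℤ[X]) {p : ℕ} [hp : Fact p.Prime]
    (hp2 : p ≠ 2) {k : ℤ} (hk : (k : ZMod p) ≠ 0) {x z y : ZMod p} (hz : z ≠ 0) (hy : y ≠ 0)
    (hzq : z ^ 2 = (GZ (ZMod p) b).eval x)
    (hs : (k : ZMod p) * y ^ 2 = aeval x g * (aeval x A + aeval x B * z)) :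
    HasPoint b g A B k ℚ_[p] := by
  obtain ⟨u, hu⟩ := ZMod.ringHom_surjective (PadicInt.toZMod : ℤ_[p] →+* ZMod p) x
  have hQ : Gen.rd p ((GZ ℤ_[p] b).eval u) = z ^ 2 := by
    rw [hom_gz, hu, hzq]
  have hQu : IsUnit ((GZ ℤ_[p] b).eval u) :=
    Gen.rd_ne_zero_iff.1 (by rw [hQ]; exact pow_ne_zero _ hz)
  obtain ⟨w, hw, hwz⟩ : ∃ w : ℤ_[p], w ^ 2 = (GZ ℤ_[p] b).eval u ∧ Gen.rd p w = z := by
    obtain ⟨w, hw⟩ := Gen.isSquare_of_rd hp2 hQu (by rw [hQ]; exact ⟨z, sq z⟩)
    have h1 : (Gen.rd p w) ^ 2 = z ^ 2 := by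
      rw [← hQ, hw, map_mul, sq]
    rcases sq_eq_sq_iff_eq_or_eq_neg.1 h1 with h2 | h2
    · exact ⟨w, by rw [hw, sq], h2⟩
    · refine ⟨-w, by rw [hw, neg_sq, sq], ?_⟩
      rw [map_neg, h2, neg_neg]
  obtain ⟨v, hv⟩ : ∃ v : ℤ_[p], v = (k : ℤ_[p]) * (aeval u g * (aeval u A + aeval u B * w)) :=
    ⟨_, rfl⟩
  have hrv : Gen.rd p v = ((k : ZMod p) * y) ^ 2 := by
    rw [hv, map_mul, map_mul, map_add, map_mul, hom_aeval, hom_aeval, hom_aeval, hwz, hu, ← hs,
      map_intCast]
    ring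
  have hvu : IsUnit v :=
    Gen.rd_ne_zero_iff.1 (by rw [hrv]; exact pow_ne_zero _ (mul_ne_zero hk hy))
  obtain ⟨r, hr⟩ := Gen.isSquare_of_rd hp2 hvu (by rw [hrv]; exact ⟨_, sq _⟩)
  have hkQ : (k : ℚ_[p]) ≠ 0 := by
    intro h0
    have : k = 0 := by exact_mod_cast h0
    rw [this] at hk
    exact hk (by simp)
  refine ⟨(u : ℚ_[p]), (w : ℚ_[p]), (r : ℚ_[p]) / k, ?_, ?_⟩
  · have h1 := congrArg (algebraMap ℤ_[p] ℚ_[p]) hw
    rw [hom_gz, map_pow] at h1
    exact h1
  · have h1 := congrArg (algebraMap ℤ_[p] ℚ_[p]) (hr.symm.trans hv)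
    rw [map_mul, map_mul, map_mul, map_add, map_mul, hom_aeval, hom_aeval, hom_aeval,
      map_intCast] at h1
    have h2 : (r : ℚ_[p]) * (r : ℚ_[p]) = (k : ℚ_[p]) * (aeval (u : ℚ_[p]) g *
        (aeval (u : ℚ_[p]) A + aeval (u : ℚ_[p]) B * (w : ℚ_[p]))) := h1
    rw [div_pow, sq (r : ℚ_[p]), h2]
    field_simp

/-- A squarefree polynomial times a square prime to it is not a constant times a square. -/
lemma not_sq {K : Type*} [Field K] {h g : K[X]} (hsf : Squarefree h) (hd : 0 < h.natDegree)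
    (hc : IsCoprime h g) {c : K} (hc0 : c ≠ 0) (e : K) (s : K[X]) :
    C c * (h * g ^ 2) ≠ C e * s ^ 2 := by
  intro heq
  have hh0 : h ≠ 0 := hsf.ne_zero
  have hnu : ¬ IsUnit h := fun hu => by
    have := natDegree_eq_zero_of_isUnit hu
    omega
  have hg0 : g ≠ 0 := by
    rintro rfl
    exact hnu (isCoprime_zero_right.1 hc)
  have he0 : e ≠ 0 := by
    rintro rfl
    rw [C_0, zero_mul] at heq
    rcases mul_eq_zero.1 heq with h1 | h1
    · exact hc0 (C_eq_zero.1 h1)
    · rcases mul_eq_zero.1 h1 with h2 | h2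
      · exact hh0 h2
      · exact hg0 (pow_eq_zero_iff (by norm_num) |>.1 h2)
  have hue : IsUnit (C e : K[X]) := isUnit_C.2 (isUnit_iff_ne_zero.2 he0)
  have huc : IsUnit (C c : K[X]) := isUnit_C.2 (isUnit_iff_ne_zero.2 hc0)
  have h1 : h ∣ C e * s ^ 2 := by
    rw [← heq]
    exact Dvd.intro _ (by ring : h * (C c * g ^ 2) = C c * (h * g ^ 2))
  have h2 : h ∣ s ^ 2 := (hue.dvd_mul_left).1 h1
  have h3 : h ∣ s := (hsf.dvd_pow_iff_dvd two_ne_zero).1 h2
  obtain ⟨t, rfl⟩ := h3
  have h4 : C c * g ^ 2 = h * (C e * t ^ 2) := by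
    apply mul_left_cancel₀ hh0
    linear_combination heq
  have h5 : h ∣ C c * g ^ 2 := ⟨_, h4⟩
  have h6 : h ∣ g ^ 2 := (huc.dvd_mul_left).1 h5
  exact hnu ((hc.pow_right (n := 2)).isUnit_of_dvd' dvd_rfl h6)

end ElsGAux

open ElsGAux

theorem pt_good {m : ℕ} (b : Fin (m + 1) → ℤ) (g A B : ℤ[X]) (hD : Data b g A B) :
    ∃ M : ℕ, ∀ (p : ℕ) [Fact p.Prime], M < p → ∀ k : ℤ, ¬ (p : ℤ) ∣ k →
      HasPoint b g A B k ℚ_[p] := by
  obtain ⟨M₀, hM₀⟩ := Gen.exists_separable_of_map (g * nF b A B * GZ ℤ b)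
    (PerfectField.separable_iff_squarefree.2 hD.sq)
  -- large primes: separable reduction
  have hq0 : (GZ ℤ b).leadingCoeff ≠ 0 := by
    intro h
    rw [leadingCoeff_eq_zero] at h
    apply hD.sq.ne_zero
    rw [h]; simp
  have hF0 : (nF b A B).leadingCoeff ≠ 0 := by
    intro h
    rw [leadingCoeff_eq_zero] at h
    apply hD.sq.ne_zero
    rw [h]; simp
  have hg0 : g.leadingCoeff ≠ 0 := by
    intro h
    rw [leadingCoeff_eq_zero] at h
    apply hD.sq.ne_zero
    rw [h]; simp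
  have hqd : 0 < (GZ ℤ b).natDegree := by
    have h2 := hD.m2
    have h3 : (GZ ℤ b).coeff m = b 0 := by
      unfold GZ gpol
      rw [finsetSum_coeff, Finset.sum_eq_single (0 : Fin (m + 1))]
      · simp
      · intro i _ hi
        rw [coeff_C_mul, coeff_X_pow, if_neg, mul_zero]
        intro h
        apply hi
        apply Fin.ext
        have := i.2
        rw [Fin.val_zero]
        omega
      · intro h
        exact absurd (mem_univ _) h
    have h4 : m ≤ (GZ ℤ b).natDegree := le_natDegree_of_ne_zero (by rw [h3]; exact hD.b0)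
    omega
  have hcast : ∀ (p : ℕ) [Fact p.Prime] (a : ℤ), a ≠ 0 → a.natAbs < p → (a : ZMod p) ≠ 0 := by
    intro p _ a ha hap h
    rw [ZMod.intCast_zmod_eq_zero_iff_dvd] at h
    have h1 := Int.natAbs_dvd_natAbs.2 h
    rw [Int.natAbs_natCast] at h1
    exact absurd (Nat.le_of_dvd (Int.natAbs_pos.2 ha) h1) (by omega)
  have hdeg : ∀ (p : ℕ) [Fact p.Prime] (f : ℤ[X]), f.leadingCoeff ≠ 0 →
      f.leadingCoeff.natAbs < p → (f.map (Int.castRingHom (ZMod p))).natDegree = f.natDegree := by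
    intro p _ f hf hfp
    apply natDegree_map_of_leadingCoeff_ne_zero
    exact hcast p _ hf hfp
  by_cases hB : B = 0
  · -- `B = 0`, `A` is a constant
    have hg1 : 0 < g.natDegree := by
      rcases hD.nc with h | h
      · exact absurd hB h
      · exact h
    have hnF : nF b A B = A ^ 2 := by
      unfold nF
      rw [hB]; ring
    obtain ⟨a, rfl⟩ : ∃ a : ℤ, A = C a := by
      have h1 := hD.sq
      rw [hnF, Polynomial.map_mul, Polynomial.map_mul, Polynomial.map_pow] at h1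
      have h2 : IsUnit (A.map (Int.castRingHom ℚ)) := by
        apply h1
        exact Dvd.intro (g.map (Int.castRingHom ℚ) * (GZ ℤ b).map (Int.castRingHom ℚ)) (by ring)
      have h3 := natDegree_eq_zero_of_isUnit h2
      rw [natDegree_map_eq_of_injective Int.cast_injective] at h3
      exact ⟨_, eq_C_of_natDegree_eq_zero h3⟩
    have ha : a ≠ 0 := by
      rintro rfl
      apply hF0
      rw [hnF]; simp
    refine ⟨M₀ + g.leadingCoeff.natAbs + (GZ ℤ b).leadingCoeff.natAbs + a.natAbs +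
      (2 * (g.natDegree + (GZ ℤ b).natDegree) + 4) ^ 2, fun p hp hMp k hk => ?_⟩
    have hp2 : p ≠ 2 := by
      intro h
      have : 4 ^ 2 ≤ (2 * (g.natDegree + (GZ ℤ b).natDegree) + 4) ^ 2 :=
        Nat.pow_le_pow_left (by omega) 2
      omega
    have hsep := (hM₀ p hp.out (by omega)).squarefree
    have hkp : (k : ZMod p) ≠ 0 := by
      rwa [Ne, ZMod.intCast_zmod_eq_zero_iff_dvd]
    have hap : (a : ZMod p) ≠ 0 := hcast p a ha (by omega)
    have hgd := hdeg p g hg0 (by omega)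
    have hqd' := hdeg p (GZ ℤ b) hq0 (by omega)
    rw [gz_cast] at hqd'
    have hsep' : Squarefree (g.map (Int.castRingHom (ZMod p)) *
        (nF b (C a) B).map (Int.castRingHom (ZMod p)) * GZ (ZMod p) b) := by
      rw [← gz_cast b (Int.castRingHom (ZMod p)), ← Polynomial.map_mul, ← Polynomial.map_mul]
      exact hsep
    have hsg : Squarefree (g.map (Int.castRingHom (ZMod p))) :=
      hsep'.squarefree_of_dvd (Dvd.intro _ (by ring : g.map (Int.castRingHom (ZMod p)) *
        ((nF b (C a) B).map (Int.castRingHom (ZMod p)) * GZ (ZMod p) b) = _))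
    have hsq : Squarefree (GZ (ZMod p) b) := hsep'.squarefree_of_dvd (Dvd.intro_left _ rfl)
    have hsgq : Squarefree (g.map (Int.castRingHom (ZMod p)) * GZ (ZMod p) b) :=
      hsep'.squarefree_of_dvd (Dvd.intro ((nF b (C a) B).map (Int.castRingHom (ZMod p)))
        (by ring))
    obtain ⟨x, y, z, hy, hz, hyx, hzx⟩ := DQ.exists_two_sq hp2
      (C ((k : ZMod p) * a) * (g.map (Int.castRingHom (ZMod p)) * 1 ^ 2)) (GZ (ZMod p) b) (by
        rw [one_pow, mul_one, natDegree_C_mul (mul_ne_zero hkp hap), hgd, hqd']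
        omega)
      (not_sq hsg (by rw [hgd]; exact hg1) isCoprime_one_right (mul_ne_zero hkp hap))
      (by
        intro e s he
        refine not_sq hsq (by rw [hqd']; exact hqd) isCoprime_one_right one_ne_zero e s ?_
        rw [← he]; simp)
      (by
        intro e s he
        refine not_sq hsgq (by
          rw [natDegree_mul hsg.ne_zero hsq.ne_zero]
          omega) isCoprime_one_right (mul_ne_zero hkp hap) e s ?_
        rw [← he]; ring)
    refine lift b g (C a) B hp2 hkp hz (y := y / k) (div_ne_zero hy hkp) hzx ?_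
    rw [div_pow, hyx, hB]
    have hCa : (aeval x (C a : ℤ[X]) : ZMod p) = a := by simp
    rw [hCa, aeval_eq x g]
    simp only [one_pow, mul_one, eval_mul, eval_C, map_zero, zero_mul, add_zero]
    field_simp
  · -- `B ≠ 0`
    have hFd : 0 < (nF b A B).natDegree := by
      obtain ⟨e, he1, -, he3, -⟩ := hD.deg
      rw [natDegree_mul hB (pow_ne_zero _ X_ne_zero), natDegree_X_pow] at he3
      have := hD.m2
      omega
    refine ⟨M₀ + g.leadingCoeff.natAbs + (GZ ℤ b).leadingCoeff.natAbs +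
      (nF b A B).leadingCoeff.natAbs +
      (2 * ((nF b A B).natDegree + 2 * g.natDegree + (GZ ℤ b).natDegree) + 4) ^ 2,
      fun p hp hMp k hk => ?_⟩
    have hp2 : p ≠ 2 := by
      intro h
      have : 4 ^ 2 ≤ (2 * ((nF b A B).natDegree + 2 * g.natDegree + (GZ ℤ b).natDegree) + 4) ^ 2 :=
        Nat.pow_le_pow_left (by omega) 2
      omega
    have hsep := (hM₀ p hp.out (by omega)).squarefree
    have hkp : (k : ZMod p) ≠ 0 := by
      rwa [Ne, ZMod.intCast_zmod_eq_zero_iff_dvd]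
    have hgd := hdeg p g hg0 (by omega)
    have hFd' := hdeg p (nF b A B) hF0 (by omega)
    have hqd' := hdeg p (GZ ℤ b) hq0 (by omega)
    rw [gz_cast] at hqd'
    obtain ⟨G, hG⟩ : ∃ G, G = g.map (Int.castRingHom (ZMod p)) := ⟨_, rfl⟩
    obtain ⟨F, hF⟩ : ∃ F, F = (nF b A B).map (Int.castRingHom (ZMod p)) := ⟨_, rfl⟩
    rw [← hG] at hgd
    rw [← hF] at hFd'
    have hsep' : Squarefree (G * F * GZ (ZMod p) b) := by
      rw [hG, hF, ← gz_cast b (Int.castRingHom (ZMod p)), ← Polynomial.map_mul,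
        ← Polynomial.map_mul]
      exact hsep
    have hsF : Squarefree F := hsep'.squarefree_of_dvd (Dvd.intro (G * GZ (ZMod p) b) (by ring))
    have hsq : Squarefree (GZ (ZMod p) b) := hsep'.squarefree_of_dvd (Dvd.intro_left _ rfl)
    have hsFq : Squarefree (F * GZ (ZMod p) b) :=
      hsep'.squarefree_of_dvd (Dvd.intro G (by ring))
    have hG0 : G ≠ 0 := by
      rintro rfl
      apply hsep'.ne_zero
      ring
    have hcop : IsCoprime (F * GZ (ZMod p) b) G := by
      have h1 : (F * GZ (ZMod p) b) * G = G * F * GZ (ZMod p) b := by ring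
      rw [← h1] at hsep'
      exact (squarefree_mul_iff.1 hsep').1.isCoprime
    obtain ⟨n₀, hn₀⟩ := FiniteField.exists_nonsquare (F := ZMod p) (by
      rw [ZMod.ringChar_zmod_n]; exact hp2)
    have hn0 : n₀ ≠ 0 := by
      rintro rfl
      exact hn₀ (by simp)
    obtain ⟨x, y, z, hy, hz, hyx, hzx⟩ := DQ.exists_two_sq hp2
      (C n₀ * (F * G ^ 2)) (GZ (ZMod p) b) (by
        rw [natDegree_C_mul hn0, natDegree_mul hsF.ne_zero (pow_ne_zero _ hG0), natDegree_pow,
          hgd, hqd', hFd']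
        omega)
      (not_sq hsF (by rw [hFd']; exact hFd) hcop.of_mul_left_left hn0)
      (by
        intro e s he
        refine not_sq hsq (by rw [hqd']; exact hqd) isCoprime_one_right one_ne_zero e s ?_
        rw [← he]; simp)
      (by
        intro e s he
        refine not_sq hsFq (by
          rw [natDegree_mul hsF.ne_zero hsq.ne_zero]
          omega) hcop hn0 e s ?_
        rw [← he]; ring)
    -- the two values
    have hFx : F.eval x = (aeval x A) ^ 2 - (aeval x B) ^ 2 * z ^ 2 := by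
      rw [hF, hzx, aeval_eq, aeval_eq, ← gz_cast b (Int.castRingHom (ZMod p))]
      unfold nF
      rw [Polynomial.map_sub, Polynomial.map_mul, Polynomial.map_pow, Polynomial.map_pow,
        eval_sub, eval_mul, eval_pow, eval_pow]
    obtain ⟨s₁, hs₁⟩ : ∃ s, s = aeval x g * (aeval x A + aeval x B * z) := ⟨_, rfl⟩
    obtain ⟨s₂, hs₂⟩ : ∃ s, s = aeval x g * (aeval x A + aeval x B * (-z)) := ⟨_, rfl⟩
    have hprod : y ^ 2 = n₀ * (s₁ * s₂) := by
      rw [hyx, eval_mul, eval_mul, eval_pow, eval_C, hFx, hs₁, hs₂, hG, ← aeval_eq]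
      ring
    have hs12 : s₁ * s₂ ≠ 0 := by
      intro h
      rw [h, mul_zero] at hprod
      exact hy (pow_eq_zero_iff (by norm_num) |>.1 hprod)
    have hs10 : s₁ ≠ 0 := left_ne_zero_of_mul hs12
    have hs20 : s₂ ≠ 0 := right_ne_zero_of_mul hs12
    have hchi : quadraticChar (ZMod p) s₁ * quadraticChar (ZMod p) s₂ = -1 := by
      have h1 := congrArg (quadraticChar (ZMod p)) hprod
      rw [map_mul, map_mul, quadraticChar_sq_one' hy,
        quadraticChar_neg_one_iff_not_isSquare.2 hn₀] at h1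
      linarith
    have hkey : ∀ s : ZMod p, s ≠ 0 → quadraticChar (ZMod p) s = quadraticChar (ZMod p) (k : ZMod p)
        → ∃ y' : ZMod p, y' ≠ 0 ∧ (k : ZMod p) * y' ^ 2 = s := by
      intro s hs0 hs
      have h1 : quadraticChar (ZMod p) (s * k) = 1 := by
        rw [map_mul, hs, ← sq]
        exact quadraticChar_sq_one hkp
      rw [quadraticChar_one_iff_isSquare (mul_ne_zero hs0 hkp)] at h1
      obtain ⟨r, hr⟩ := h1
      refine ⟨r / k, div_ne_zero ?_ hkp, ?_⟩
      · rintro rfl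
        rw [mul_zero] at hr
        exact mul_ne_zero hs0 hkp hr
      · rw [div_pow, sq r, ← hr]
        field_simp
    rcases quadraticChar_dichotomy hkp with hk1 | hk1
    · rcases quadraticChar_dichotomy hs10 with h1 | h1
      · obtain ⟨y', hy', hyk⟩ := hkey s₁ hs10 (by rw [h1, hk1])
        exact lift b g A B hp2 hkp hz hy' hzx (by rw [hyk, hs₁])
      · obtain ⟨y', hy', hyk⟩ := hkey s₂ hs20 (by rw [h1] at hchi; rw [hk1]; linarith)
        exact lift b g A B hp2 hkp (neg_ne_zero.2 hz) hy' (by rw [neg_sq, hzx]) (by rw [hyk, hs₂])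
    · rcases quadraticChar_dichotomy hs10 with h1 | h1
      · obtain ⟨y', hy', hyk⟩ := hkey s₂ hs20 (by rw [h1] at hchi; rw [hk1]; linarith)
        exact lift b g A B hp2 hkp (neg_ne_zero.2 hz) hy' (by rw [neg_sq, hzx]) (by rw [hyk, hs₂])
      · obtain ⟨y', hy', hyk⟩ := hkey s₁ hs10 (by rw [h1, hk1])
        exact lift b g A B hp2 hkp hz hy' hzx (by rw [hyk, hs₁])

end Stoll308.TD
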