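import Pool.Agent.Work.MP_308fa9_nt.TD.Defs
import Pool.Agent.Work.MP_308fa9_nt.DQ.Scale
import Pool.Agent.Work.MP_308fa9_nt.DQ.Norm
import Pool.Agent.Work.MP_308fa9_nt.Gen.Hensel

set_option autoImplicit false

/-!
A branch point over `𝔽_p` gives a point over `ℚ_p` of all the twists.
-/

namespace Stoll308.TD

open Polynomial Finset BF

section aux

variable {p : ℕ} [hp : Fact p.Prime]

private lemma er_rd (P : ℤ[X]) {x : ℤ_[p]} {r : ℤ} (hx : Gen.rd p x = (r : ZMod p)) :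
    Gen.rd p (aeval x P) = ((P.eval r : ℤ) : ZMod p) := by
  rw [aeval_def, hom_eval₂, hx,
    show (Gen.rd p).comp (algebraMap ℤ ℤ_[p]) = Int.castRingHom (ZMod p) from RingHom.ext_int _ _,
    ← eq_intCast (Int.castRingHom (ZMod p)) r, eval₂_at_apply, eq_intCast]

private lemma er_hensel (P : ℤ[X]) {N : ℤ} {U V : ℤ[X]} (h : U * P + V * derivative P = C N)
    (hN : ¬ (p : ℤ) ∣ N) {r : ℤ} (hr : (p : ℤ) ∣ P.eval r) :
    ∃ θ : ℤ_[p], aeval θ P = 0 ∧ aeval θ (derivative P) ≠ 0 ∧ Gen.rd p θ = (r : ZMod p) := by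
  have hrr : Gen.rd p (r : ℤ_[p]) = (r : ZMod p) := Gen.rd_intCast r
  have h1 : ‖aeval (r : ℤ_[p]) P‖ < 1 := by
    rw [← Gen.rd_eq_zero_iff, er_rd P hrr, ZMod.intCast_zmod_eq_zero_iff_dvd]
    exact hr
  have h2 : ‖aeval (r : ℤ_[p]) (derivative P)‖ = 1 := by
    rw [← PadicInt.isUnit_iff, ← Gen.rd_ne_zero_iff, er_rd _ hrr, Ne,
      ZMod.intCast_zmod_eq_zero_iff_dvd]
    intro h3
    apply hN
    have := congrArg (eval r) h
    rw [eval_add, eval_mul, eval_mul, eval_C] at this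
    rw [← this]
    exact dvd_add (dvd_mul_of_dvd_right hr _) (dvd_mul_of_dvd_right h3 _)
  obtain ⟨z, hz, hz', hz'', -⟩ := hensels_lemma (R := ℤ) (F := P) (a := (r : ℤ_[p])) (by
    rw [h2, one_pow]
    exact h1)
  refine ⟨z, hz, ?_, ?_⟩
  · intro h0
    rw [h2, h0, norm_zero] at hz''
    exact zero_ne_one hz''
  · rw [h2] at hz'
    have := Gen.rd_eq_zero_iff.2 hz'
    rw [map_sub, sub_eq_zero, hrr] at this
    exact this

private lemma er_coe (P : ℤ[X]) (x : ℤ_[p]) :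
    aeval (x : ℚ_[p]) P = ((aeval x P : ℤ_[p]) : ℚ_[p]) := by
  rw [← PadicInt.algebraMap_apply, aeval_algebraMap_apply, PadicInt.algebraMap_apply]

end aux

private lemma er_GZ {K : Type} [Field K] {m : ℕ} (b : Fin (m + 1) → ℤ) (t : K) :
    (GZ K b).eval t = aeval t (GZ ℤ b) := by
  rw [aeval_def, ← eval_map, algebraMap_int_eq, DQ.NormAux.GZ_map b (Int.castRingHom K)]

private lemma er_bezout (P : ℤ[X]) (h : Squarefree (P.map (Int.castRingHom ℚ))) :
    ∃ (N : ℤ) (U V : ℤ[X]), N ≠ 0 ∧ U * P + V * derivative P = C N := by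
  refine DQ.sc_bezout _ _ ?_
  rw [← derivative_map]
  exact PerfectField.separable_iff_squarefree.2 h

theorem pt_of_rw {m : ℕ} (b : Fin (m + 1) → ℤ) (g A B : ℤ[X]) (hD : Data b g A B) :
    ∃ M : ℕ, ∀ (p : ℕ) [Fact p.Prime], M < p → RW b g A B p → ∀ k : ℤ,
      HasPoint b g A B k ℚ_[p] := by
  have hsq := hD.sq
  rw [Polynomial.map_mul, Polynomial.map_mul] at hsq
  obtain ⟨-, hgF, -⟩ := squarefree_mul_iff.1 hsq
  obtain ⟨-, hg, hF⟩ := squarefree_mul_iff.1 hgF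
  obtain ⟨N1, U1, V1, hN1, h1⟩ := er_bezout g hg
  obtain ⟨N2, U2, V2, hN2, h2⟩ := er_bezout _ hF
  refine ⟨N1.natAbs + N2.natAbs + 2, fun p hp hM hRW k => ?_⟩
  have hnd : ∀ z : ℤ, z ≠ 0 → z.natAbs < p → ¬ (p : ℤ) ∣ z := by
    intro z hz hzp hd
    have h3 := Int.natAbs_dvd_natAbs.2 hd
    rw [Int.natAbs_natCast] at h3
    have h4 := Nat.le_of_dvd (Int.natAbs_pos.2 hz) h3
    omega
  have pN1 := hnd N1 hN1 (by omega)
  have pN2 := hnd N2 hN2 (by omega)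
  have hp2 : p ≠ 2 := by omega
  obtain ⟨r, hr⟩ := hRW
  rcases hr with ⟨hr, z, hz, hzr⟩ | hr
  · -- a zero of `g`
    obtain ⟨θ, hθ, -, hθr⟩ := er_hensel g h1 pN1 hr
    have hrd : Gen.rd p (aeval θ (GZ ℤ b)) = (z : ZMod p) * (z : ZMod p) := by
      rw [er_rd _ hθr]
      have h3 : (((z ^ 2 - (GZ ℤ b).eval r : ℤ)) : ZMod p) = 0 :=
        (ZMod.intCast_zmod_eq_zero_iff_dvd _ _).2 hzr
      push_cast at h3
      linear_combination -h3
    have hu : IsUnit (aeval θ (GZ ℤ b)) := by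
      rw [← Gen.rd_ne_zero_iff, hrd]
      have h3 : (z : ZMod p) ≠ 0 := by
        rw [Ne, ZMod.intCast_zmod_eq_zero_iff_dvd]
        exact hz
      exact mul_ne_zero h3 h3
    obtain ⟨w, hw⟩ := (Gen.isSquare_coe_iff hp2 hu).2 ⟨_, hrd⟩
    refine ⟨(θ : ℚ_[p]), w, 0, ?_, ?_⟩
    · rw [er_GZ, er_coe, hw, sq]
    · rw [er_coe g, hθ]
      simp
  · -- a zero of the norm
    obtain ⟨θ, hθ, hθ', -⟩ := er_hensel (nF b A B) h2 pN2 hr
    have hF1 : (aeval (θ : ℚ_[p]) A) ^ 2 =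
        (aeval (θ : ℚ_[p]) B) ^ 2 * aeval (θ : ℚ_[p]) (GZ ℤ b) := by
      have h3 : aeval (θ : ℚ_[p]) (nF b A B) = 0 := by
        rw [er_coe, hθ, PadicInt.coe_zero]
      unfold nF at h3
      rw [map_sub, map_mul, map_pow, map_pow] at h3
      exact sub_eq_zero.1 h3
    have hB : aeval (θ : ℚ_[p]) B ≠ 0 := by
      intro hB
      have hA : aeval (θ : ℚ_[p]) A = 0 := by
        rw [hB] at hF1
        simpa using hF1
      have h3 : aeval (θ : ℚ_[p]) (derivative (nF b A B)) = 0 := by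
        unfold nF
        simp only [derivative_mul, derivative_pow, map_sub, map_mul, map_add,
          map_pow, hA, hB]
        simp
      rw [er_coe] at h3
      apply hθ'
      apply PadicInt.ext
      rw [h3, PadicInt.coe_zero]
    refine ⟨(θ : ℚ_[p]), -(aeval (θ : ℚ_[p]) A / aeval (θ : ℚ_[p]) B), 0, ?_, ?_⟩
    · rw [er_GZ, neg_sq, div_pow, hF1, mul_div_cancel_left₀ _ (pow_ne_zero 2 hB)]
    · have h4 : aeval (θ : ℚ_[p]) A + aeval (θ : ℚ_[p]) B *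
          -(aeval (θ : ℚ_[p]) A / aeval (θ : ℚ_[p]) B) = 0 := by
        field_simp
        ring
      rw [h4]
      simp

end Stoll308.TD
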