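import Pool.Agent.Work.MP_308fa9_nt.TD.Many
import Pool.Agent.Work.MP_308fa9_nt.TD.ElsR
import Pool.Agent.Work.MP_308fa9_nt.TD.ElsG
import Pool.Agent.Work.MP_308fa9_nt.Gen.ElsT

set_option autoImplicit false

/-!
Lower bound for the number of everywhere locally soluble twists.
-/

namespace Stoll308.TD

open Polynomial Finset BF

/-- The counting part: `P` is a property of many primes, and the products of the primes with `P` which
are squares modulo `Q` are allowed. -/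
private theorem low_abs (P₀ : ℕ → Prop) (hK : AP.Many P₀) (El : ℤ → Prop) (k₀ : ℤ)
    (hk : Squarefree k₀) (Q C₁ : ℕ) (hQ : 0 < Q) (hkC : k₀.natAbs ≤ C₁) (hQC : Q ≤ C₁)
    (hels : ∀ v : ℕ, (∀ p : ℕ, p.Prime → p ∣ v → C₁ < p ∧ P₀ p) → Squarefree v →
      (∃ a : ℕ, Nat.Coprime a Q ∧ v ≡ a ^ 2 [MOD Q]) → El (k₀ * (v : ℤ))) :
    ∃ c : ℝ, 0 < c ∧ ∃ X₀ : ℕ, ∀ X : ℕ, X₀ ≤ X →
      c * X / Real.log X * AP.V P₀ X ≤ (cnt El X : ℝ) := by
  classical
  have hk0 : k₀ ≠ 0 := hk.ne_zero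
  set t₀ : ℕ := k₀.natAbs with ht₀def
  have ht₀ : 0 < t₀ := Int.natAbs_pos.2 hk0
  set P : ℕ → Prop := fun p => p.Prime ∧ C₁ < p ∧ P₀ p with hPdef
  obtain ⟨C₂, hC₂⟩ := Gen.exists_corr P Q hQ (fun p hp => by
    refine (Nat.Prime.coprime_iff_not_dvd hp.1).2 fun hd => ?_
    have := Nat.le_of_dvd hQ hd
    have := hp.2.1
    omega)
  choose! S hS using hC₂
  set C₃ : ℕ := max C₁ C₂ with hC₃
  set W₀ : ℕ := ∏ p ∈ (Icc 1 C₂).filter Nat.Prime, p with hW₀
  have hW₀pos : 0 < W₀ := prod_pos fun p hp => (mem_filter.1 hp).2.pos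
  obtain ⟨c, hc, X₀, h⟩ := AP.card_FS_ge' (P := P₀) hK C₃ (t₀ * W₀)
    (Nat.mul_pos ht₀ hW₀pos)
  refine ⟨c, hc, X₀, fun X hX => ?_⟩
  refine (h X hX).trans ?_
  have hFS : ∀ T ∈ AP.FS P₀ C₃ (X / (t₀ * W₀)),
      (∀ p ∈ T, C₃ < p ∧ p.Prime ∧ P₀ p) ∧ ∏ p ∈ T, p ≤ X / (t₀ * W₀) := by
    intro T hT
    unfold AP.FS at hT
    rw [mem_filter, mem_powerset] at hT
    refine ⟨fun p hp => ?_, hT.2⟩
    have := AP.mem_PP.1 (hT.1 hp)
    exact ⟨this.2.2.1, this.2.1, this.2.2.2⟩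
  have hFS2 : ∀ T ∈ AP.FS P₀ C₃ (X / (t₀ * W₀)), ∀ p ∈ T, C₂ < p ∧ P p := by
    intro T hT p hp
    obtain ⟨h1, h2, h3⟩ := (hFS T hT).1 p hp
    exact ⟨lt_of_le_of_lt (le_max_right _ _) h1, h2, lt_of_le_of_lt (le_max_left _ _) h1, h3⟩
  have hdisj : ∀ T ∈ AP.FS P₀ C₃ (X / (t₀ * W₀)), Disjoint T (S T) := by
    intro T hT
    rw [disjoint_left]
    intro p h1 h2
    have h3 := (hFS2 T hT p h1).1
    have h4 := ((hS T (hFS2 T hT)).1 p h2).1
    omega
  have hprimeU : ∀ T ∈ AP.FS P₀ C₃ (X / (t₀ * W₀)), ∀ p ∈ T ∪ S T, P p := by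
    intro T hT p hp
    rcases mem_union.1 hp with h | h
    · exact (hFS2 T hT p h).2
    · exact ((hS T (hFS2 T hT)).1 p h).2
  have hsqU : ∀ T ∈ AP.FS P₀ C₃ (X / (t₀ * W₀)), Squarefree (∏ p ∈ T ∪ S T, p) := by
    intro T hT
    have : ∀ U : Finset ℕ, (∀ p ∈ U, p.Prime) → Squarefree (∏ p ∈ U, p) := by
      intro U
      induction U using Finset.induction_on with
      | empty => simp
      | insert a s ha ih =>
        intro hU
        rw [prod_insert ha, Nat.squarefree_mul]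
        · exact ⟨(hU a (mem_insert_self _ _)).prime.squarefree,
            ih fun p hp => hU p (mem_insert_of_mem hp)⟩
        · refine Nat.Coprime.prod_right fun p hp => ?_
          refine (Nat.coprime_primes (hU a (mem_insert_self _ _)) (hU p (mem_insert_of_mem hp))).2 ?_
          rintro rfl
          exact ha hp
    exact this _ fun p hp => (hprimeU T hT p hp).1
  have hpf : ∀ T ∈ AP.FS P₀ C₃ (X / (t₀ * W₀)),
      (∏ p ∈ T ∪ S T, p).primeFactors = T ∪ S T := fun T hT =>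
    Nat.primeFactors_prod fun p hp => (hprimeU T hT p hp).1
  have hcop : ∀ T ∈ AP.FS P₀ C₃ (X / (t₀ * W₀)), Nat.Coprime t₀ (∏ p ∈ T ∪ S T, p) := by
    intro T hT
    refine Nat.Coprime.prod_right fun p hp => ?_
    have h1 := hprimeU T hT p hp
    rw [Nat.coprime_comm]
    refine (Nat.Prime.coprime_iff_not_dvd h1.1).2 fun hd => ?_
    have := Nat.le_of_dvd ht₀ hd
    have := h1.2.1
    omega
  have hcard : (AP.FS P₀ C₃ (X / (t₀ * W₀))).card ≤ cnt El X := by
    unfold cnt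
    refine card_le_card_of_injOn (fun T => k₀ * ((∏ p ∈ T ∪ S T, p : ℕ) : ℤ)) ?_ ?_
    · intro T hT
      have hT' := mem_coe.1 hT
      have hle : t₀ * ∏ p ∈ T ∪ S T, p ≤ X := by
        rw [prod_union (hdisj T hT')]
        have h2 : ∏ p ∈ S T, p ≤ W₀ := by
          rw [hW₀]
          refine prod_le_prod_of_subset_of_one_le' ?_ fun p hp _ => (mem_filter.1 hp).2.one_lt.le
          intro p hp
          have := (hS T (hFS2 T hT')).1 p hp
          rw [mem_filter, mem_Icc]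
          exact ⟨⟨this.2.1.one_lt.le, this.1⟩, this.2.1⟩
        calc t₀ * ((∏ p ∈ T, p) * ∏ p ∈ S T, p) ≤ t₀ * ((X / (t₀ * W₀)) * W₀) :=
              Nat.mul_le_mul_left _ (Nat.mul_le_mul (hFS T hT').2 h2)
          _ = (t₀ * W₀) * (X / (t₀ * W₀)) := by ring
          _ ≤ X := Nat.mul_div_le _ _
      have habs : (k₀ * ((∏ p ∈ T ∪ S T, p : ℕ) : ℤ)).natAbs = t₀ * ∏ p ∈ T ∪ S T, p := by
        rw [Int.natAbs_mul, Int.natAbs_natCast]
      rw [mem_coe, mem_filter, mem_Icc]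
      refine ⟨?_, ?_, ?_⟩
      · simp only
        omega
      · rw [← Int.squarefree_natAbs]
        simp only
        rw [habs, Nat.squarefree_mul (hcop T hT')]
        exact ⟨Int.squarefree_natAbs.2 hk, hsqU T hT'⟩
      · refine hels _ ?_ (hsqU T hT') ?_
        · intro p hp hd
          have : p ∈ T ∪ S T := by
            rw [← hpf T hT']
            exact Nat.mem_primeFactors.2 ⟨hp, hd, (hsqU T hT').ne_zero⟩
          exact (hprimeU T hT' p this).2
        · obtain ⟨_, a, ha, haT⟩ := hS T (hFS2 T hT')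
          refine ⟨a, ha, ?_⟩
          rw [prod_union (hdisj T hT')]
          exact haT
    · intro T hT T' hT' htt
      have hT1 := mem_coe.1 hT
      have hT1' := mem_coe.1 hT'
      simp only at htt
      have h1 := mul_left_cancel₀ hk0 htt
      have h2 : ∏ p ∈ T ∪ S T, p = ∏ p ∈ T' ∪ S T', p := by exact_mod_cast h1
      have h3 : T ∪ S T = T' ∪ S T' := by
        rw [← hpf T hT1, ← hpf T' hT1', h2]
      have h4 : ∀ T ∈ AP.FS P₀ C₃ (X / (t₀ * W₀)), (T ∪ S T).filter (fun p => C₂ < p) = T := by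
        intro T hT
        ext p
        rw [mem_filter, mem_union]
        constructor
        · rintro ⟨h | h, h'⟩
          · exact h
          · have := ((hS T (hFS2 T hT)).1 p h).1
            omega
        · intro h
          exact ⟨Or.inl h, (hFS2 T hT p h).1⟩
      rw [← h4 T hT1, ← h4 T' hT1', h3]
  exact_mod_cast hcard

/-- Scaling of `y`. -/
private lemma hasPoint_scale {m : ℕ} (b : Fin (m + 1) → ℤ) (g A B : ℤ[X]) {k₀ : ℤ} {v : ℕ}
    {K : Type*} [Field K] (h : HasPoint b g A B k₀ K) {s : K} (hs : s ≠ 0)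
    (hv : (v : K) = s ^ 2) : HasPoint b g A B (k₀ * (v : ℤ)) K := by
  obtain ⟨t, w, y, h1, h2⟩ := h
  refine ⟨t, w, y / s, h1, ?_⟩
  rw [← h2]
  push_cast
  rw [hv]
  field_simp

theorem els_low {m : ℕ} (b : Fin (m + 1) → ℤ) (g A B : ℤ[X]) (hD : Data b g A B) (k₀ : ℤ)
    (hk : Squarefree k₀) (hels : ELS b g A B k₀) :
    ∃ c : ℝ, 0 < c ∧ ∃ X₀ : ℕ, ∀ X : ℕ, X₀ ≤ X →
      c * X / Real.log X * AP.V (RW b g A B) X ≤ (cnt (ELS b g A B) X : ℝ) := by
  obtain ⟨M₁, hM₁⟩ := pt_of_rw b g A B hD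
  obtain ⟨M₂, hM₂⟩ := pt_good b g A B hD
  have hk0 : k₀ ≠ 0 := hk.ne_zero
  set C' : ℕ := max (max M₁ M₂) k₀.natAbs with hC'
  set Q : ℕ := 8 * C'.factorial with hQ
  have hQpos : 0 < Q := by positivity
  have hC'Q : C' ≤ Q := by
    have := Nat.self_le_factorial C'
    omega
  refine low_abs (RW b g A B) (many_rw b g A B hD) _ k₀ hk Q Q hQpos (by omega) le_rfl ?_
  rintro v hv hvsq ⟨a, haQ, hva⟩
  refine ⟨?_, ?_⟩
  · intro p hp
    by_cases hpC : p ≤ C'
    · have h8 : 8 * p ∣ Q := Nat.mul_dvd_mul_left 8 (hp.out.dvd_factorial.2 hpC)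
      have hap : Nat.Coprime (a ^ 2) p :=
        Nat.Coprime.pow_left 2 (haQ.coprime_dvd_right ((Dvd.intro_left 8 rfl).trans h8))
      obtain ⟨w, hw, hvw⟩ := sq_ratio (l := p) h8 hva hap
      have ha0 : a ≠ 0 := by
        rintro rfl
        rw [zero_pow two_ne_zero, Nat.coprime_zero_left] at hap
        exact hp.out.one_lt.ne' hap
      refine hasPoint_scale b g A B (hels.1 p) (s := (a : ℚ_[p]) * w)
        (mul_ne_zero (by exact_mod_cast ha0) hw) ?_
      rw [hvw]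
      push_cast
      ring
    · push Not at hpC
      by_cases hpv : p ∣ v
      · exact hM₁ p (by omega) (hv p hp.out hpv).2 _
      · refine hM₂ p (by omega) _ ?_
        intro hdvd
        have hpr : Prime (p : ℤ) := Nat.prime_iff_prime_int.1 hp.out
        rcases hpr.dvd_or_dvd hdvd with h | h
        · have h1 := Int.natAbs_dvd_natAbs.2 h
          rw [Int.natAbs_natCast] at h1
          have := Nat.le_of_dvd (Int.natAbs_pos.2 hk0) h1
          omega
        · exact hpv (Int.natCast_dvd_natCast.1 h)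
  · have hvpos : 0 < v := Nat.pos_of_ne_zero hvsq.ne_zero
    refine hasPoint_scale b g A B hels.2 (s := Real.sqrt v)
      (Real.sqrt_pos.2 (by exact_mod_cast hvpos)).ne' ?_
    rw [Real.sq_sqrt (Nat.cast_nonneg v)]

end Stoll308.TD
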