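import Pool.Agent.Work.MP_308fa9_nt.TD.Defs
import Pool.Agent.Work.MP_308fa9_nt.TD.Scale
import Pool.Agent.Work.MP_308fa9_nt.FQ.FinP
import Pool.Agent.Work.MP_308fa9_nt.NE.PairUniq

set_option autoImplicit false

/-!
The classes with local points come from a finite set.
-/

namespace Stoll308.TD

open Polynomial Finset BF DQ SC

private lemma cls_of_pt {K : Type*} [Field K] {m : ℕ} (b : Fin (m + 1) → ℤ) (ε : K[X])
    (t w u : K) (s : K[X]) (hw : w ≠ 0) (hq : w ^ 2 = (GZ K b).eval t)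
    (h : GZ K b ∣ (C t - X) - C u * ε * s ^ 2) :
    Cls (GZ K b) (C u * ε) (C t - X) := by
  have hcop : IsCoprime (C t - X) (GZ K b) := by
    have h1 : IsCoprime (X - C t) (GZ K b) := by
      rw [(irreducible_X_sub_C t).coprime_iff_not_dvd, dvd_iff_isRoot, IsRoot, ← hq]
      exact pow_ne_zero 2 hw
    have h2 : (C t - X : K[X]) = -(X - C t) := by ring
    rw [h2]
    exact h1.neg_left
  refine ⟨?_, hcop, ⟨C w, ?_⟩, s, ?_, h⟩
  · have h2 : (C t - X : K[X]) = -(X - C t) := by ring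
    rw [h2, natDegree_neg, natDegree_X_sub_C]
    exact odd_one
  · have h2 : (C t - X : K[X]) = -(X - C t) := by ring
    rw [h2, neg_dvd, dvd_iff_isRoot, IsRoot, eval_sub, ← C_pow, eval_C, hq, sub_self]
  · obtain ⟨a, c, hac⟩ := hcop
    obtain ⟨e, he⟩ := h
    refine ⟨a * (C u * ε * s), c + a * e, ?_⟩
    have h3 : (C t - X : K[X]) = C u * ε * s ^ 2 + GZ K b * e := by rw [← he]; ring
    rw [h3] at hac
    linear_combination hac

private lemma cu {c : ℚ} (hc : c ≠ 0) (f : ℚ[X]) : IsCoprime (C c) f :=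
  ⟨C c⁻¹, 0, by rw [← C_mul, inv_mul_cancel₀ hc, C_1, zero_mul, add_zero]⟩

theorem fin_cls {m : ℕ} (hm : 2 ≤ m) (hem : Even m) (b : Fin (m + 1) → ℤ) (h0 : b 0 ≠ 0)
    (hsq : Squarefree (GZ ℚ b)) :
    ∃ E : Finset ℚ[X], (∀ ε₀ ∈ E, IsCoprime ε₀ (GZ ℚ b)) ∧
      ∀ ε : ℚ[X], IsCoprime ε (GZ ℚ b) →
        (∀ (p : ℕ) [Fact p.Prime], p ≠ 2 → ∃ (t w u : ℚ_[p]) (s : ℚ_[p][X]), w ≠ 0 ∧ u ≠ 0 ∧
          w ^ 2 = (GZ ℚ_[p] b).eval t ∧
          GZ ℚ_[p] b ∣ (C t - X) - C u * ε.map (algebraMap ℚ ℚ_[p]) * s ^ 2) →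
        ∃ ε₀ ∈ E, ∃ (κ : ℚ) (s : ℚ[X]), κ ≠ 0 ∧ GZ ℚ b ∣ ε - C κ * ε₀ * s ^ 2 := by
  classical
  obtain ⟨M, F, hF⟩ := FQ.fin_pairs hm hem b h0 hsq
  let Q : ℕ × (Matrix (Fin m) (Fin m) ℤ × Matrix (Fin m) (Fin m) ℤ) → ℚ[X] → Prop := fun x δ =>
    IsCoprime δ (GZ ℚ b) ∧ BF.IsPair (sc x.1 b) δ x.2.1 x.2.2
  let R : ℕ × (Matrix (Fin m) (Fin m) ℤ × Matrix (Fin m) (Fin m) ℤ) → ℚ[X] := fun x =>
    if h : ∃ δ, Q x δ then h.choose else 1
  refine ⟨((Finset.Icc 1 M) ×ˢ F).image R, ?_, ?_⟩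
  · intro ε₀ h
    obtain ⟨x, -, rfl⟩ := Finset.mem_image.1 h
    by_cases hx : ∃ δ, Q x δ
    · have h1 : R x = hx.choose := dif_pos hx
      rw [h1]
      exact hx.choose_spec.1
    · have h1 : R x = 1 := dif_neg hx
      rw [h1]
      exact isCoprime_one_left
  · intro ε hε hloc
    obtain ⟨κ, hκ, hκ2⟩ := exists_scale hm b h0 hsq ε hε (by
      intro p _ hp
      obtain ⟨t, w, u, s, hw, hu, hq, h⟩ := hloc p hp
      exact ⟨C t - X, u, hu, cls_of_pt b _ t w u s hw hq h⟩)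
    have hcop : IsCoprime (C κ * ε) (GZ ℚ b) :=
      IsCoprime.mul_left (cu hκ _) hε
    obtain ⟨N, hN0, hNM, x, hx, hpair, -⟩ := hF (C κ * ε) hcop (fun p _ hp => hκ2 p hp)
    have hex : ∃ δ, Q (N, x) δ := ⟨C κ * ε, hcop, hpair⟩
    have h1 : R (N, x) = hex.choose := dif_pos hex
    obtain ⟨h2, h3⟩ := hex.choose_spec
    have hN : ((N : ℚ) ^ 2) ≠ 0 := by positivity
    have hsc : ∀ δ : ℚ[X], IsCoprime δ (GZ ℚ b) → IsCoprime δ (GZ ℚ (sc N b)) := by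
      intro δ hδ
      rw [GZ_sc]
      exact IsCoprime.mul_right (cu hN _).symm hδ
    obtain ⟨v, -, hv⟩ := NE.pair_uniq (by omega) (sc N b)
      (by unfold sc; exact mul_ne_zero (by positivity) h0) hex.choose (C κ * ε)
      (hsc _ h2) (hsc _ hcop) x.1 x.2 h3 hpair
    refine ⟨R (N, x), Finset.mem_image_of_mem _ (by simp [hx]; omega), κ⁻¹, v, inv_ne_zero hκ, ?_⟩
    rw [h1]
    have h4 : GZ ℚ b ∣ C κ * ε - hex.choose * v ^ 2 := by
      refine dvd_trans ?_ hv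
      rw [GZ_sc]
      exact dvd_mul_left _ _
    have h5 : ε - C κ⁻¹ * hex.choose * v ^ 2 = C κ⁻¹ * (C κ * ε - hex.choose * v ^ 2) := by
      have h6 : (C κ⁻¹ * C κ : ℚ[X]) = 1 := by rw [← C_mul, inv_mul_cancel₀ hκ, C_1]
      linear_combination (-ε) * h6
    rw [h5]
    exact Dvd.dvd.mul_left h4 _

end Stoll308.TD
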