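import Pool.Agent.Work.MP_308fa9_nt.TD.Main
import Pool.Agent.Work.MP_308fa9_nt.TD.Crit

set_option autoImplicit false

/-!
Quadratic twists of the double covers of a fixed curve: the theorem with the rational points, and the
example of two branch values.
-/

namespace Stoll308.TD

open Polynomial Finset BF

/-- The condition on the primes: for every class `ε` there are infinitely many primes with a branch
point over `𝔽_p`, but none with the class `ε`. -/
def Freq {m : ℕ} (b : Fin (m + 1) → ℤ) (g A B : ℤ[X]) : Prop :=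
  ∀ ε : ℚ[X], IsCoprime ε (GZ ℚ b) → ∀ N : ℕ, ∃ p : ℕ, N < p ∧ p.Prime ∧
    RW b g A B p ∧ ¬ RE b g A B ε p

private lemma sel_of_pt {m : ℕ} (b : Fin (m + 1) → ℤ) (g A B : ℤ[X]) (k : ℤ) (t w y : ℚ)
    (hw : w ≠ 0) (h : Pt b g A B k t w y) : Sel b g A B k := by
  refine ⟨C t - X, ?_, fun p _ _ => ?_⟩
  · have h1 : IsCoprime (X - C t) (GZ ℚ b) := by
      rw [(irreducible_X_sub_C t).coprime_iff_not_dvd, dvd_iff_isRoot, IsRoot, ← h.1]
      exact pow_ne_zero 2 hw
    have h2 : (C t - X : ℚ[X]) = -(X - C t) := by ring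
    rw [h2]
    exact h1.neg_left
  · set φ := algebraMap ℚ ℚ_[p] with hφ
    refine ⟨φ t, φ w, φ y, 1, 1, (map_ne_zero φ).2 hw, one_ne_zero, ⟨?_, ?_⟩, ?_⟩
    · have h3 := congrArg φ h.1
      rw [map_pow] at h3
      rw [h3]
      have h4 : (GZ ℚ b).map φ = GZ ℚ_[p] b := by
        simp [GZ, gpol, Polynomial.map_sum]
      rw [← h4, eval_map_apply]
    · have h3 := congrArg φ h.2
      have h5 : ∀ f : ℤ[X], φ (aeval t f) = aeval (φ t) f := fun f => by
        rw [aeval_def, aeval_def, hom_eval₂]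
        congr 1
      rw [map_mul, map_pow, map_mul, map_add, map_mul, h5, h5, h5, map_intCast] at h3
      exact h3
    · have h6 : (C (φ t) - X) - C 1 * (C t - X : ℚ[X]).map φ * (1 : ℚ_[p][X]) ^ 2 = 0 := by
        rw [Polynomial.map_sub, map_C, map_X, C_1]
        ring
      rw [h6]
      exact dvd_zero _

private lemma sqf_eq {k k' z : ℤ} (hk : Squarefree k) (hk' : Squarefree k') (h : k * k' = z ^ 2) :
    k = k' := by
  have h1 : k ∣ z := (hk.dvd_pow_iff_dvd two_ne_zero).1 ⟨k', h.symm⟩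
  obtain ⟨z', rfl⟩ := h1
  have h2 : k' = k * z' ^ 2 := by
    apply mul_left_cancel₀ hk.ne_zero
    rw [h]
    ring
  have h3 : IsUnit z' := hk' z' ⟨k, by rw [h2]; ring⟩
  rw [h2]
  rcases Int.isUnit_iff.1 h3 with rfl | rfl
  · ring
  · ring

private lemma ne_root {m : ℕ} (b : Fin (m + 1) → ℤ) (g A B : ℤ[X]) (hD : Data b g A B) (t : ℚ)
    (ht : (GZ ℚ b).eval t = 0) : aeval t g * aeval t A ≠ 0 := by
  have hq : (GZ ℤ b).map (Int.castRingHom ℚ) = GZ ℚ b := by
    simp [GZ, gpol, Polynomial.map_sum]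
  have h1 := hD.sq
  rw [Polynomial.map_mul, hq] at h1
  have h2 : IsCoprime ((g * nF b A B).map (Int.castRingHom ℚ)) (GZ ℚ b) := by
    rw [squarefree_mul_iff] at h1
    exact isRelPrime_iff_isCoprime.1 h1.1
  obtain ⟨u, v, huv⟩ := h2
  have h3 := congrArg (eval t) huv
  rw [eval_add, eval_mul, eval_mul, ht, mul_zero, add_zero, eval_one, Polynomial.map_mul,
    eval_mul] at h3
  intro h4
  have h5 : ∀ f : ℤ[X], (f.map (Int.castRingHom ℚ)).eval t = aeval t f := fun f => by
    rw [aeval_def, eval_map]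
    rfl
  have h6 : ((nF b A B).map (Int.castRingHom ℚ)).eval t = (aeval t A) ^ 2 := by
    unfold nF
    rw [Polynomial.map_sub, Polynomial.map_mul, hq, eval_sub, eval_mul, ht, mul_zero, sub_zero,
      Polynomial.map_pow, eval_pow, h5]
  rw [h5, h6] at h3
  have h7 : aeval t g * (aeval t A) ^ 2 = 0 := by
    rw [sq, ← mul_assoc, h4, zero_mul]
  rw [h7, mul_zero] at h3
  exact zero_ne_one h3

private lemma cnt_root {m : ℕ} (b : Fin (m + 1) → ℤ) (g A B : ℤ[X]) (hD : Data b g A B) (X : ℕ) :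
    cnt (fun k => ∃ t y : ℚ, Pt b g A B k t 0 y) X ≤ (GZ ℚ b).roots.toFinset.card := by
  classical
  have hq0 : GZ ℚ b ≠ 0 := by
    intro h
    have h1 := hD.sq
    have hq : (GZ ℤ b).map (Int.castRingHom ℚ) = GZ ℚ b := by
      simp [GZ, gpol, Polynomial.map_sum]
    rw [Polynomial.map_mul, hq, h, mul_zero] at h1
    exact not_squarefree_zero h1
  unfold cnt
  have hch : ∀ k : ℤ, (∃ t y : ℚ, Pt b g A B k t 0 y) → ∃ t : ℚ, t ∈ (GZ ℚ b).roots.toFinset ∧
      ∃ y : ℚ, Pt b g A B k t 0 y := by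
    rintro k ⟨t, y, h⟩
    refine ⟨t, ?_, y, h⟩
    rw [Multiset.mem_toFinset, mem_roots hq0, IsRoot, ← h.1]
    norm_num
  choose! τ hτ using hch
  refine Finset.card_le_card_of_injOn τ (fun k hk => ?_) ?_
  · exact (hτ k (Finset.mem_filter.1 hk).2.2).1
  · intro k hk k' hk' heq
    have hk1 := (Finset.mem_filter.1 hk).2
    have hk2 := (Finset.mem_filter.1 hk').2
    obtain ⟨y, hy⟩ := (hτ k hk1.2).2
    obtain ⟨y', hy'⟩ := (hτ k' hk2.2).2
    rw [← heq] at hy'
    have e1 := hy.2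
    have e2 := hy'.2
    rw [mul_zero, add_zero] at e1 e2
    have hv := ne_root b g A B hD (τ k) (by rw [← hy.1]; norm_num)
    set v : ℚ := aeval (τ k) g * aeval (τ k) A with hvdef
    have hy0 : y ≠ 0 := by
      rintro rfl
      apply hv
      rw [← e1]
      ring
    have hy0' : y' ≠ 0 := by
      rintro rfl
      apply hv
      rw [← e2]
      ring
    have h1 : IsSquare ((k * k' : ℤ) : ℚ) := by
      refine ⟨v / (y * y'), ?_⟩
      push_cast
      field_simp
      calc (k : ℚ) * k' * y ^ 2 * y' ^ 2 = (k * y ^ 2) * (k' * y' ^ 2) := by ring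
        _ = v ^ 2 := by rw [e1, e2]; ring
    obtain ⟨z, hz⟩ := Rat.isSquare_intCast_iff.1 h1
    exact sqf_eq hk1.1 hk2.1 (z := z) (by rw [hz]; ring)

private lemma cnt_or_le (P Q R : ℤ → Prop) (h : ∀ k, P k → Q k ∨ R k) (X : ℕ) :
    cnt P X ≤ cnt Q X + cnt R X := by
  classical
  unfold cnt
  refine le_trans (Finset.card_le_card ?_) (Finset.card_union_le _ _)
  intro k hk
  have h1 := Finset.mem_filter.1 hk
  rcases h k h1.2.2 with h2 | h2
  · exact Finset.mem_union_left _ (Finset.mem_filter.2 ⟨h1.1, h1.2.1, h2⟩)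
  · exact Finset.mem_union_right _ (Finset.mem_filter.2 ⟨h1.1, h1.2.1, h2⟩)

theorem final {m : ℕ} (b : Fin (m + 1) → ℤ) (g A B : ℤ[X]) (hD : Data b g A B) (k₀ : ℤ)
    (hk : Squarefree k₀) (hels : ELS b g A B k₀) (hfreq : Freq b g A B) :
    (∃ c : ℝ, 0 < c ∧ ∃ X₀ : ℕ, ∀ X : ℕ, X₀ ≤ X →
      c * X / Real.log X ≤ (cnt (ELS b g A B) X : ℝ)) ∧
    ∀ η : ℝ, 0 < η → ∃ X₀ : ℕ, ∀ X : ℕ, X₀ ≤ X →
      (cnt (fun k => Sel b g A B k ∨ HasPoint b g A B k ℚ) X : ℝ) ≤ η * cnt (ELS b g A B) X := by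
  classical
  obtain ⟨h1, h2⟩ := main b g A B hD k₀ hk hels hfreq
  refine ⟨h1, fun η hη => ?_⟩
  obtain ⟨c, hc, X₁, h1⟩ := h1
  obtain ⟨X₂, h2⟩ := h2 (η / 2) (by positivity)
  set R : ℕ := (GZ ℚ b).roots.toFinset.card with hR
  have hlim : Filter.Tendsto (fun X : ℕ => (X : ℝ) / Real.log X) Filter.atTop Filter.atTop := by
    have h3 : Filter.Tendsto (fun x : ℝ => x / Real.log x) Filter.atTop Filter.atTop := by
      have h4 := Real.isLittleO_log_id_atTop
      have h5 := h4.tendsto_div_nhds_zero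
      have h6 : Filter.Tendsto (fun x : ℝ => Real.log x / x) Filter.atTop
          (nhdsWithin 0 (Set.Ioi 0)) := by
        rw [tendsto_nhdsWithin_iff]
        refine ⟨by simpa using h5, ?_⟩
        filter_upwards [Filter.eventually_gt_atTop 1] with x hx
        exact div_pos (Real.log_pos hx) (by linarith)
      have h7 := h6.inv_tendsto_nhdsGT_zero
      refine h7.congr fun x => ?_
      simp
    exact h3.comp tendsto_natCast_atTop_atTop
  obtain ⟨X₃, h3⟩ := Filter.eventually_atTop.1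
    (hlim.eventually_ge_atTop (2 * R / (η * c)))
  refine ⟨X₁ + X₂ + X₃, fun X hX => ?_⟩
  have g1 := h1 X (by omega)
  have g2 := h2 X (by omega)
  have g3 := h3 X (by omega)
  have hle : cnt (fun k => Sel b g A B k ∨ HasPoint b g A B k ℚ) X ≤
      cnt (Sel b g A B) X + cnt (fun k => ∃ t y : ℚ, Pt b g A B k t 0 y) X := by
    refine cnt_or_le _ _ _ (fun k h => ?_) X
    rcases h with h | ⟨t, w, y, h⟩
    · exact Or.inl h
    · by_cases hw : w = 0
      · subst hw
        exact Or.inr ⟨t, y, h⟩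
      · exact Or.inl (sel_of_pt b g A B k t w y hw h)
  have hle2 : (cnt (fun k => Sel b g A B k ∨ HasPoint b g A B k ℚ) X : ℝ) ≤
      cnt (Sel b g A B) X + R := by
    have := hle.trans (Nat.add_le_add_left (cnt_root b g A B hD X) _)
    exact_mod_cast this
  have g4 : (R : ℝ) ≤ η / 2 * cnt (ELS b g A B) X := by
    have h5 : 2 * (R : ℝ) / (η * c) * (c * (η / 2)) ≤ X / Real.log X * (c * (η / 2)) :=
      mul_le_mul_of_nonneg_right g3 (by positivity)
    have h6 : 2 * (R : ℝ) / (η * c) * (c * (η / 2)) = R := by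
      field_simp
    have h7 : X / Real.log X * (c * (η / 2)) = η / 2 * (c * X / Real.log X) := by ring
    rw [h6, h7] at h5
    exact h5.trans (mul_le_mul_of_nonneg_left g1 (by positivity))
  linarith

end Stoll308.TD
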