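import Pool.Agent.Work.MP_308fa9_nt.TD.Near
import Pool.Agent.Work.MP_308fa9_nt.TD.ClsN

set_option autoImplicit false

/-!
The condition `RE` at the primes which divide the twisting parameter.
-/

namespace Stoll308.TD

open Polynomial Finset BF

theorem re_of_loc {m : ℕ} (b : Fin (m + 1) → ℤ) (g A B : ℤ[X]) (hD : Data b g A B) :
    ∃ M : ℕ, ∀ (p : ℕ) [Fact p.Prime], M < p → ∀ k : ℤ, (p : ℤ) ∣ k → ¬ (p : ℤ) ^ 2 ∣ k →
      ∀ ε : ℚ[X], LocImage b g A B k ε ℚ_[p] → RE b g A B ε p := by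
  obtain ⟨M, hM⟩ := near b g A B hD
  refine ⟨max (max M 2) (b 0).natAbs, fun p hp hlt k hk hk2 ε hloc => ?_⟩
  obtain ⟨t, w, y, u, s, hw, hu, hpt, h⟩ := hloc
  have h1 : M < p := lt_of_le_of_lt (le_trans (le_max_left _ _) (le_max_left _ _)) hlt
  have h2 : 2 < p := lt_of_le_of_lt (le_trans (le_max_right _ _) (le_max_left _ _)) hlt
  have h3 : (b 0).natAbs < p := lt_of_le_of_lt (le_max_right _ _) hlt
  obtain ⟨r, hr, hr2, hr3⟩ := hM p h1 k hk hk2 t w y hw hpt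
  refine ⟨hp, r, hr, cls_near b p (by omega) ?_ t r hr3 hr2 ε u hu s h⟩
  intro h4
  have h5 := Int.natAbs_dvd_natAbs.2 h4
  rw [Int.natAbs_natCast] at h5
  have h6 := Nat.le_of_dvd (Int.natAbs_pos.2 hD.b0) h5
  omega

theorem re_congr {m : ℕ} (b : Fin (m + 1) → ℤ) (g A B : ℤ[X]) (ε ε₀ : ℚ[X]) (κ : ℚ) (s : ℚ[X])
    (hκ : κ ≠ 0) (h : GZ ℚ b ∣ ε - C κ * ε₀ * s ^ 2) (p : ℕ) (hp : RE b g A B ε p) :
    RE b g A B ε₀ p := by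
  obtain ⟨hF, r, hr, u, s₁, hu, h1⟩ := hp
  refine ⟨hF, r, hr, u * (algebraMap ℚ ℚ_[p] κ), s.map (algebraMap ℚ ℚ_[p]) * s₁,
    mul_ne_zero hu (by simpa using hκ), ?_⟩
  have h2 : GZ ℚ_[p] b ∣ ε.map (algebraMap ℚ ℚ_[p]) -
      C (algebraMap ℚ ℚ_[p] κ) * ε₀.map (algebraMap ℚ ℚ_[p]) * (s.map (algebraMap ℚ ℚ_[p])) ^ 2 := by
    have h3 := Polynomial.map_dvd (algebraMap ℚ ℚ_[p]) h
    have h4 : (GZ ℚ b).map (algebraMap ℚ ℚ_[p]) = GZ ℚ_[p] b := by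
      simp [GZ, gpol, Polynomial.map_sum]
    rw [h4] at h3
    simpa using h3
  obtain ⟨c, hc⟩ := h1
  obtain ⟨d, hd⟩ := h2
  refine ⟨c + C u * s₁ ^ 2 * d, ?_⟩
  rw [C_mul]
  linear_combination hc + C u * s₁ ^ 2 * hd

end Stoll308.TD
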