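import Pool.Agent.Work.MP_308fa9_nt.TD.Defs
import Pool.Agent.Work.MP_308fa9_nt.SC.Congr
import Pool.Agent.Work.MP_308fa9_nt.SC.LocUnit
import Pool.Agent.Work.MP_308fa9_nt.DQ.Scale
import Pool.Agent.Work.MP_308fa9_nt.Gen.ElsLocal

set_option autoImplicit false

/-!
The class of `r - ρ` over `ℚ_p` gives the one over `𝔽_p`.
-/

namespace Stoll308.TD

open Polynomial Finset BF

theorem red_fwd {m : ℕ} (hm : 2 ≤ m) (b : Fin (m + 1) → ℤ) (p : ℕ) [Fact p.Prime]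
    (h0 : ¬ (p : ℤ) ∣ b 0) (hsq : Squarefree (GZ (ZMod p) b)) (e : ℤ[X])
    (he : IsCoprime (e.map (Int.castRingHom (ZMod p))) (GZ (ZMod p) b)) (r : ℤ)
    (h : ClsAt b (e.map (Int.castRingHom ℚ)) p r) :
    ∃ (u : ℤ) (s : (ZMod p)[X]), ¬ (p : ℤ) ∣ u ∧
      GZ (ZMod p) b ∣
        (C (r : ZMod p) - X) - C (u : ZMod p) * e.map (Int.castRingHom (ZMod p)) * s ^ 2 := by
  obtain ⟨u, s, hu, hdiv⟩ := h
  obtain ⟨g, c, hc, hg, hgn, hgm, hgf⟩ := SC.exists_mon p b h0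
  have hinj : Function.Injective (algebraMap ℤ_[p] ℚ_[p]) := FaithfulSMul.algebraMap_injective _ _
  -- the monic multiple over `ℚ_p`
  have hcQ : IsUnit (C (c : ℚ_[p])) := by
    have h1 : IsUnit (algebraMap ℤ_[p] ℚ_[p] c) := hc.map _
    exact isUnit_C.2 h1
  have hgf' : GZ ℚ_[p] b = C (c : ℚ_[p]) * SC.toQ g := by
    rw [← hgf, SC.toQ, Polynomial.map_mul, map_C]
    rfl
  have hgmon : (SC.toQ g).Monic := hg.map _
  have hgnat : (SC.toQ g).natDegree = m := by rw [SC.toQ, hg.natDegree_map, hgn]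
  rw [hgf', hcQ.mul_left_dvd, Polynomial.map_map] at hdiv
  have hcomp : (algebraMap ℚ ℚ_[p]).comp (Int.castRingHom ℚ) = Int.castRingHom ℚ_[p] :=
    RingHom.ext_int _ _
  rw [hcomp] at hdiv
  obtain ⟨E, hE⟩ : ∃ E, E = e.map (Int.castRingHom ℚ_[p]) := ⟨_, rfl⟩
  rw [← hE] at hdiv
  -- the remainder
  obtain ⟨s', hs'⟩ : ∃ s', s' = s %ₘ SC.toQ g := ⟨_, rfl⟩
  have hss : s = s' + SC.toQ g * (s /ₘ SC.toQ g) := by
    rw [hs']
    exact (modByMonic_add_div s (SC.toQ g)).symm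
  have hdiv' : SC.toQ g ∣ (C (r : ℚ_[p]) - X) - C u * E * s' ^ 2 := by
    have h1 : (C (r : ℚ_[p]) - X) - C u * E * s' ^ 2 = ((C (r : ℚ_[p]) - X) - C u * E * s ^ 2) +
        SC.toQ g * (C u * E * (s /ₘ SC.toQ g) * (2 * s' + SC.toQ g * (s /ₘ SC.toQ g))) := by
      conv_rhs => rw [hss]
      ring_nf
      rw [← hss]
      ring
    rw [h1]
    exact dvd_add hdiv (Dvd.intro _ rfl)
  have hs'n : s'.natDegree < m := by
    rw [hs', ← hgnat]
    exact natDegree_modByMonic_lt _ hgmon (fun h1 => by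
      rw [h1, natDegree_one] at hgnat
      omega)
  have hrX : ∀ {K : Type} [Field K] (x : K), (C x - X : K[X]) ≠ 0 ∧
      (C x - X : K[X]).natDegree ≤ 1 := by
    intro K _ x
    have h1 : (C x - X : K[X]) = -(X - C x) := by ring
    rw [h1, natDegree_neg, natDegree_X_sub_C]
    exact ⟨neg_ne_zero.2 (X_sub_C_ne_zero x), le_rfl⟩
  have hs'0 : s' ≠ 0 := by
    intro h1
    rw [h1] at hdiv'
    have h2 : SC.toQ g ∣ (C (r : ℚ_[p]) - X) := by simpa using hdiv'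
    have h3 := natDegree_le_of_dvd h2 (hrX (r : ℚ_[p])).1
    have h4 := (hrX (r : ℚ_[p])).2
    omega
  -- scaling
  obtain ⟨i, hi, hmax⟩ := Finset.exists_max_image s'.support (fun j => ‖s'.coeff j‖)
    (nonempty_support_iff.2 hs'0)
  have hi0 : s'.coeff i ≠ 0 := mem_support_iff.1 hi
  obtain ⟨l, hl⟩ : ∃ l, l = s'.coeff i := ⟨_, rfl⟩
  rw [← hl] at hi0
  obtain ⟨s0, hs0, hs0n, -⟩ := SC.exists_toQ (C l⁻¹ * s') (by
    intro j
    rw [coeff_C_mul, norm_mul, norm_inv]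
    have h1 : ‖s'.coeff j‖ ≤ ‖l‖ := by
      by_cases hj : j ∈ s'.support
      · rw [hl]; exact hmax j hj
      · rw [notMem_support_iff.1 hj, norm_zero]
        exact norm_nonneg _
    have h2 : 0 < ‖l‖ := norm_pos_iff.2 hi0
    rw [inv_mul_le_iff₀ h2, mul_one]
    exact h1)
  have hs0i : s0.coeff i = 1 := by
    apply hinj
    have h1 := congrArg (fun f : ℚ_[p][X] => f.coeff i) hs0
    simp only [SC.toQ, coeff_map, coeff_C_mul] at h1
    rw [h1, ← hl, inv_mul_cancel₀ hi0, map_one]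
  have hs0d : s0.natDegree < m := by
    rw [hs0n]
    exact lt_of_le_of_lt (natDegree_C_mul_le _ _) hs'n
  obtain ⟨v, hv⟩ : ∃ v, v = u * l ^ 2 := ⟨_, rfl⟩
  have hv0 : v ≠ 0 := by
    rw [hv]
    exact mul_ne_zero hu (pow_ne_zero _ hi0)
  have hdiv2 : SC.toQ g ∣ (C (r : ℚ_[p]) - X) - C v * E * (SC.toQ s0) ^ 2 := by
    have h1 : C v * E * (SC.toQ s0) ^ 2 = C u * E * s' ^ 2 := by
      have h2 : C l ^ 2 * C l⁻¹ ^ 2 = (1 : ℚ_[p][X]) := by
        rw [← C_pow, ← C_pow, ← C_mul, inv_pow, mul_inv_cancel₀ (pow_ne_zero _ hi0), C_1]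
      rw [hs0, hv, C_mul, C_pow]
      linear_combination (C u * E * s' ^ 2) * h2
    rw [h1]
    exact hdiv'
  -- over `ℤ_p`
  obtain ⟨e', he'⟩ : ∃ e', e' = e.map (Int.castRingHom ℤ_[p]) := ⟨_, rfl⟩
  have hEe : SC.toQ e' = E := by
    rw [he', hE, SC.toQ, Polynomial.map_map]
    congr 1
  have hredG : GZ (ZMod p) b = C (PadicInt.toZMod c) * g.map PadicInt.toZMod := by
    have h1 : C c * g = (GZ ℤ b).map (Int.castRingHom ℤ_[p]) := by
      apply SC.Core.toQ_inj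
      rw [hgf]
      unfold SC.toQ
      rw [Polynomial.map_map, BF.LocLat.GZ_map]
    have h2 := congrArg (Polynomial.map (PadicInt.toZMod : ℤ_[p] →+* ZMod p)) h1
    rw [Polynomial.map_mul, map_C, Polynomial.map_map, BF.LocLat.GZ_map] at h2
    exact h2.symm
  have hcZ : IsUnit (C (PadicInt.toZMod c : ZMod p)) := isUnit_C.2 (hc.map _)
  have hrede : e'.map (PadicInt.toZMod : ℤ_[p] →+* ZMod p) = e.map (Int.castRingHom (ZMod p)) := by
    rw [he', Polynomial.map_map]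
    congr 1
    exact RingHom.ext_int _ _
  have hgZm : (g.map (PadicInt.toZMod : ℤ_[p] →+* ZMod p)).natDegree = m := by
    rw [hg.natDegree_map, hgn]
  have hrs0 : s0.map (PadicInt.toZMod : ℤ_[p] →+* ZMod p) ≠ 0 := by
    intro h1
    have h2 := congrArg (fun f : (ZMod p)[X] => f.coeff i) h1
    simp only [coeff_map, hs0i, map_one, coeff_zero] at h2
    exact one_ne_zero h2
  rcases le_or_gt ‖v‖ 1 with hv1 | hv1
  · obtain ⟨V, hV⟩ : ∃ z : ℤ_[p], (algebraMap ℤ_[p] ℚ_[p]) z = v := ⟨⟨v, hv1⟩, rfl⟩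
    have h1 : g ∣ (C (r : ℤ_[p]) - X) - C V * e' * s0 ^ 2 := by
      rw [← map_dvd_map (algebraMap ℤ_[p] ℚ_[p]) hinj hg]
      have h2 : ((C (r : ℤ_[p]) - X) - C V * e' * s0 ^ 2).map (algebraMap ℤ_[p] ℚ_[p]) =
          (C (r : ℚ_[p]) - X) - C v * E * (SC.toQ s0) ^ 2 := by
        rw [← hEe, ← hV]
        simp only [Polynomial.map_sub, Polynomial.map_mul, Polynomial.map_pow, map_X, map_C,
          map_intCast (algebraMap ℤ_[p] ℚ_[p]) r, SC.toQ]
      rw [h2]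
      exact hdiv2
    have h3 := Polynomial.map_dvd (PadicInt.toZMod : ℤ_[p] →+* ZMod p) h1
    simp only [Polynomial.map_sub, Polynomial.map_mul, Polynomial.map_pow, map_X, map_C,
      map_intCast (PadicInt.toZMod : ℤ_[p] →+* ZMod p) r, hrede] at h3
    by_cases hV0 : (PadicInt.toZMod V : ZMod p) = 0
    · exfalso
      rw [hV0, C_0, zero_mul, zero_mul, sub_zero] at h3
      have h4 := natDegree_le_of_dvd h3 (hrX (r : ZMod p)).1
      have h5 := (hrX (r : ZMod p)).2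
      omega
    · refine ⟨((PadicInt.toZMod V : ZMod p).val : ℤ),
        s0.map (PadicInt.toZMod : ℤ_[p] →+* ZMod p), ?_, ?_⟩
      · rw [← ZMod.intCast_zmod_eq_zero_iff_dvd]
        push_cast
        rw [ZMod.natCast_zmod_val]
        exact hV0
      · rw [hredG, hcZ.mul_left_dvd]
        push_cast
        rw [ZMod.natCast_zmod_val]
        exact h3
  · exfalso
    have hv2 : ‖v⁻¹‖ < 1 := by
      rw [norm_inv]
      exact inv_lt_one_of_one_lt₀ hv1
    obtain ⟨z, hz, hzn⟩ : ∃ z : ℤ_[p], (algebraMap ℤ_[p] ℚ_[p]) z = v⁻¹ ∧ ‖z‖ < 1 :=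
      ⟨⟨v⁻¹, hv2.le⟩, rfl, hv2⟩
    have h1 : g ∣ C z * (C (r : ℤ_[p]) - X) - e' * s0 ^ 2 := by
      rw [← map_dvd_map (algebraMap ℤ_[p] ℚ_[p]) hinj hg]
      have h2 : (C z * (C (r : ℤ_[p]) - X) - e' * s0 ^ 2).map (algebraMap ℤ_[p] ℚ_[p]) =
          C v⁻¹ * ((C (r : ℚ_[p]) - X) - C v * E * (SC.toQ s0) ^ 2) := by
        have h5 : C v⁻¹ * C v = (1 : ℚ_[p][X]) := by
          rw [← C_mul, inv_mul_cancel₀ hv0, C_1]
        rw [← hEe, ← hz]
        rw [← hz] at h5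
        simp only [Polynomial.map_sub, Polynomial.map_mul, Polynomial.map_pow, map_X, map_C,
          map_intCast (algebraMap ℤ_[p] ℚ_[p]) r, SC.toQ]
        linear_combination (e'.map (algebraMap ℤ_[p] ℚ_[p]) *
          (s0.map (algebraMap ℤ_[p] ℚ_[p])) ^ 2) * h5
      rw [h2]
      exact hdiv2.mul_left _
    have h3 := Polynomial.map_dvd (PadicInt.toZMod : ℤ_[p] →+* ZMod p) h1
    simp only [Polynomial.map_sub, Polynomial.map_mul, Polynomial.map_pow, map_X, map_C,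
      map_intCast (PadicInt.toZMod : ℤ_[p] →+* ZMod p) r, hrede] at h3
    rw [SC.Core.toZMod_eq_zero hzn, C_0, zero_mul, zero_sub, dvd_neg] at h3
    have h4 : GZ (ZMod p) b ∣ e.map (Int.castRingHom (ZMod p)) *
        (s0.map (PadicInt.toZMod : ℤ_[p] →+* ZMod p)) ^ 2 := by
      rw [hredG, hcZ.mul_left_dvd]
      exact h3
    have h5 := he.symm.dvd_of_dvd_mul_left h4
    have h6 := (hsq.dvd_pow_iff_dvd two_ne_zero).1 h5
    rw [hredG, hcZ.mul_left_dvd] at h6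
    have h7 := natDegree_le_of_dvd h6 hrs0
    have h8 : (s0.map (PadicInt.toZMod : ℤ_[p] →+* ZMod p)).natDegree ≤ s0.natDegree :=
      natDegree_map_le
    omega

/-- Large primes. -/
theorem red_large {m : ℕ} (b : Fin (m + 1) → ℤ) (g A B : ℤ[X]) (hD : Data b g A B) (e : ℤ[X])
    (he : IsCoprime (e.map (Int.castRingHom ℚ)) (GZ ℚ b)) :
    ∃ M : ℕ, ∀ p : ℕ, (hp : Fact p.Prime) → M < p → p ≠ 2 ∧ ¬ (p : ℤ) ∣ b 0 ∧
      Squarefree (GZ (ZMod p) b) ∧
      IsCoprime (e.map (Int.castRingHom (ZMod p))) (GZ (ZMod p) b) ∧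
      ∀ r : ℤ, Br b g A B p r → ¬ (p : ℤ) ∣ (GZ ℤ b).eval r := by
  obtain ⟨M₀, hM₀⟩ := Gen.exists_separable_of_map (g * nF b A B * GZ ℤ b)
    (PerfectField.separable_iff_squarefree.2 hD.sq)
  obtain ⟨N, U, V, hN, hUV⟩ := DQ.sc_bezout e (GZ ℤ b) (by
    rw [BF.LocLat.GZ_map]; exact he)
  refine ⟨M₀ + 2 + (b 0).natAbs + N.natAbs, fun p hp hMp => ?_⟩
  have hpp : p.Prime := hp.out
  have hnd : ∀ a : ℤ, a ≠ 0 → a.natAbs < p → ¬ (p : ℤ) ∣ a := by
    intro a ha hap h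
    have h1 := Int.natAbs_dvd_natAbs.2 h
    rw [Int.natAbs_natCast] at h1
    exact absurd (Nat.le_of_dvd (Int.natAbs_pos.2 ha) h1) (by omega)
  have hsep := hM₀ p hpp (by omega)
  have hq : Gen.fp (GZ ℤ b) p = GZ (ZMod p) b := by
    rw [Gen.fp, BF.LocLat.GZ_map]
  have hsplit : Gen.fp (g * nF b A B * GZ ℤ b) p =
      Gen.fp g p * Gen.fp (nF b A B) p * GZ (ZMod p) b := by
    rw [← hq]
    simp only [Gen.fp, Polynomial.map_mul]
  rw [hsplit] at hsep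
  refine ⟨by omega, hnd _ hD.b0 (by omega), hsep.of_mul_right.squarefree, ?_, ?_⟩
  · have hNp : (N : ZMod p) ≠ 0 := by
      rw [Ne, ZMod.intCast_zmod_eq_zero_iff_dvd]
      exact hnd _ hN (by omega)
    have h1 := congrArg (Polynomial.map (Int.castRingHom (ZMod p))) hUV
    rw [Polynomial.map_add, Polynomial.map_mul, Polynomial.map_mul, map_C,
      BF.LocLat.GZ_map] at h1
    refine ⟨C (N : ZMod p)⁻¹ * U.map (Int.castRingHom (ZMod p)),
      C (N : ZMod p)⁻¹ * V.map (Int.castRingHom (ZMod p)), ?_⟩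
    have h2 : C (N : ZMod p)⁻¹ * C ((Int.castRingHom (ZMod p)) N) = 1 := by
      rw [← C_mul]
      simp [inv_mul_cancel₀ hNp]
    linear_combination C (N : ZMod p)⁻¹ * h1 + h2
  · intro r hr hqr
    have hev : ∀ f : ℤ[X], (Gen.fp f p).eval (r : ZMod p) = ((f.eval r : ℤ) : ZMod p) := by
      intro f
      simp [Gen.fp]
    rcases hr with ⟨-, z, hz, hz2⟩ | hr
    · have h1 : (p : ℤ) ∣ z ^ 2 := by
        have := dvd_add hz2 hqr
        rwa [sub_add_cancel] at this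
      exact hz (Int.Prime.dvd_pow' hpp h1)
    · have h1 : IsCoprime (Gen.fp (nF b A B) p) (GZ (ZMod p) b) := by
        have h2 : Gen.fp g p * Gen.fp (nF b A B) p * GZ (ZMod p) b =
            Gen.fp g p * (Gen.fp (nF b A B) p * GZ (ZMod p) b) := by ring
        rw [h2] at hsep
        exact hsep.of_mul_right.isCoprime
      obtain ⟨x, y, hxy⟩ := h1
      have h3 := congrArg (eval (r : ZMod p)) hxy
      rw [← hq, eval_add, eval_mul, eval_mul, hev, hev,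
        (ZMod.intCast_zmod_eq_zero_iff_dvd _ p).2 hr,
        (ZMod.intCast_zmod_eq_zero_iff_dvd _ p).2 hqr] at h3
      simp at h3

end Stoll308.TD
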