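import Pool.Agent.Work.MP_308fa9_nt.TD.Defs
import Pool.Agent.Work.MP_308fa9_nt.SC.SqRoot
import Pool.Agent.Work.MP_308fa9_nt.SC.LocUnit

set_option autoImplicit false

/-!
A class over `𝔽_p` gives a class over `ℚ_p`.
-/

namespace Stoll308.TD

open Polynomial Finset BF

namespace RedB

lemma exists_lift (p : ℕ) [Fact p.Prime] (s : (ZMod p)[X]) :
    ∃ s' : ℤ[X], s'.map (Int.castRingHom (ZMod p)) = s := by
  have h : Function.Surjective (Int.castRingHom (ZMod p)) := ZMod.intCast_surjective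
  exact Polynomial.map_surjective _ h s

lemma exists_p (p : ℕ) [Fact p.Prime] (P : ℤ[X]) (h : P.map (Int.castRingHom (ZMod p)) = 0) :
    ∃ G : ℤ[X], P = C (p : ℤ) * G := by
  have h1 : C (p : ℤ) ∣ P := by
    rw [Polynomial.C_dvd_iff_dvd_coeff]
    intro i
    have h2 := congrArg (fun Q => Q.coeff i) h
    simp only [coeff_map, coeff_zero, eq_intCast] at h2
    exact (ZMod.intCast_zmod_eq_zero_iff_dvd _ _).1 h2
  exact h1

end RedB

open RedB in
theorem red_back {m : ℕ} (b : Fin (m + 1) → ℤ) (p : ℕ) [Fact p.Prime] (h2 : p ≠ 2)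
    (h0 : ¬ (p : ℤ) ∣ b 0) (e : ℤ[X]) (r u : ℤ) (s : (ZMod p)[X])
    (hr : ¬ (p : ℤ) ∣ (GZ ℤ b).eval r) (hu : ¬ (p : ℤ) ∣ u)
    (h : GZ (ZMod p) b ∣
      (C (r : ZMod p) - X) - C (u : ZMod p) * e.map (Int.castRingHom (ZMod p)) * s ^ 2) :
    ClsAt b (e.map (Int.castRingHom ℚ)) p r := by
  obtain ⟨g, c, hc, hg, hgn, hgm, hgf⟩ := SC.exists_mon p b h0
  have hgf' : C c * g = (GZ ℤ b).map (Int.castRingHom ℤ_[p]) := by
    apply SC.Core.toQ_inj
    rw [hgf]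
    unfold SC.toQ
    rw [Polynomial.map_map, BF.LocLat.GZ_map]
  -- the value of `g` is a unit
  have hgr : IsUnit (g.eval (r : ℤ_[p])) := by
    have h3 : c * g.eval (r : ℤ_[p]) = (((GZ ℤ b).eval r : ℤ) : ℤ_[p]) := by
      have h5 := congrArg (eval (r : ℤ_[p])) hgf'
      rw [eval_mul, eval_C, eval_intCast_map, eq_intCast, Int.cast_id] at h5
      exact h5
    have h6 : IsUnit (c * g.eval (r : ℤ_[p])) := by
      rw [h3, PadicInt.isUnit_iff, PadicInt.norm_def, PadicInt.coe_intCast]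
      exact SC.norm_int_eq_one hr
    exact (IsUnit.mul_iff.1 h6).2
  obtain ⟨v, hv⟩ := hgr.exists_right_inv
  obtain ⟨k, hk⟩ : (X - C (r : ℤ_[p])) ∣ g - C (g.eval (r : ℤ_[p])) :=
    X_sub_C_dvd_sub_C_eval
  have hCv : C (g.eval (r : ℤ_[p])) * C v = 1 := by
    rw [← C_mul, hv, C_1]
  set V : ℤ_[p][X] := C v * k with hV
  have e1 : (C (r : ℤ_[p]) - X) * V - 1 = g * (-C v) := by
    rw [hV]
    linear_combination (C v) * hk + hCv
  -- the lift
  obtain ⟨s', rfl⟩ := exists_lift p s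
  obtain ⟨w, hw⟩ := h
  obtain ⟨w', rfl⟩ := exists_lift p w
  obtain ⟨G, hG⟩ := exists_p p ((C r - X) - C u * e * s' ^ 2 - GZ ℤ b * w') (by
    have h3 : (GZ ℤ b).map (Int.castRingHom (ZMod p)) = GZ (ZMod p) b := BF.LocLat.GZ_map _ b
    have h4 : (Int.castRingHom (ZMod p)) r = (r : ZMod p) := rfl
    have h5 : (Int.castRingHom (ZMod p)) u = (u : ZMod p) := rfl
    simp only [Polynomial.map_sub, Polynomial.map_mul, Polynomial.map_pow, map_X, map_C, h3]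
    rw [h4, h5, hw, sub_self])
  set φ : ℤ →+* ℤ_[p] := Int.castRingHom ℤ_[p] with hφ
  have e4 : (C (r : ℤ_[p]) - X) - C (u : ℤ_[p]) * e.map φ * s'.map φ ^ 2 =
      C c * g * w'.map φ + C (p : ℤ_[p]) * G.map φ := by
    have h3 := congrArg (fun Q => Q.map φ) hG
    simp only [Polynomial.map_sub, Polynomial.map_mul, Polynomial.map_pow, map_X, map_C] at h3
    rw [← hgf'] at h3
    have e5 : φ r = (r : ℤ_[p]) := rfl
    have e6 : φ u = (u : ℤ_[p]) := rfl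
    have e7 : φ (p : ℤ) = (p : ℤ_[p]) := by simp [hφ]
    rw [e5, e6, e7] at h3
    linear_combination h3
  obtain ⟨S, U, ⟨a2, e2⟩, ⟨a3, e3⟩⟩ := SC.sq_root p h2 g (-(G.map φ * V)) hg
  have hcong : g ∣ (C (r : ℤ_[p]) - X) - C (u : ℤ_[p]) * e.map φ * (s'.map φ * U) ^ 2 := by
    refine ⟨-(C (r : ℤ_[p]) - X) * a3 * (S * U + 1) + C (p : ℤ_[p]) * G.map φ * U ^ 2 * C v -
      (C (r : ℤ_[p]) - X) * U ^ 2 * a2 + C c * w'.map φ * U ^ 2, ?_⟩
    linear_combination (-(C (r : ℤ_[p]) - X) * (S * U + 1)) * e3 +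
      (-(C (r : ℤ_[p]) - X) * U ^ 2) * e2 - (C (p : ℤ_[p]) * G.map φ * U ^ 2) * e1 + U ^ 2 * e4
  have hu0 : (u : ℚ_[p]) ≠ 0 := by
    intro h3
    apply hu
    have h4 : u = 0 := by exact_mod_cast h3
    rw [h4]
    exact dvd_zero _
  refine ⟨u, SC.toQ (s'.map φ * U), hu0, ?_⟩
  have heq : (e.map (Int.castRingHom ℚ)).map (algebraMap ℚ ℚ_[p]) = SC.toQ (e.map φ) := by
    unfold SC.toQ
    rw [Polynomial.map_map, Polynomial.map_map]
    congr 1
  rw [heq]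
  obtain ⟨w₂, hw₂⟩ := hcong
  obtain ⟨c', hc'⟩ := hc.exists_right_inv
  have hcc : C (c : ℚ_[p]) * C (c' : ℚ_[p]) = 1 := by
    rw [← C_mul, ← PadicInt.coe_mul, hc', PadicInt.coe_one, C_1]
  refine ⟨C (c' : ℚ_[p]) * SC.toQ w₂, ?_⟩
  have h3 := congrArg SC.toQ hw₂
  unfold SC.toQ at h3 ⊢
  simp only [Polynomial.map_sub, Polynomial.map_mul, Polynomial.map_pow, map_X, map_C,
    PadicInt.algebraMap_apply, PadicInt.coe_intCast] at h3
  rw [← hgf]
  unfold SC.toQ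
  rw [Polynomial.map_mul, Polynomial.map_mul, map_C, PadicInt.algebraMap_apply]
  linear_combination h3 - (g.map (algebraMap ℤ_[p] ℚ_[p]) *
    w₂.map (algebraMap ℤ_[p] ℚ_[p])) * hcc

end Stoll308.TD
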