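import Pool.Agent.Work.MP_308fa9_nt.TD.Defs
import Pool.Agent.Work.MP_308fa9_nt.SC.SqRoot
import Pool.Agent.Work.MP_308fa9_nt.TD.RedA
import Pool.Agent.Work.MP_308fa9_nt.TD.RedB

set_option autoImplicit false

/-!
The condition `RE` over `𝔽_p`.
-/

namespace Stoll308.TD

open Polynomial Finset BF

/-- `RE` over `𝔽_p`, for a class with integral coefficients. -/
def REp {m : ℕ} (b : Fin (m + 1) → ℤ) (g A B : ℤ[X]) (e : ℤ[X]) (p : ℕ) : Prop :=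
  ∃ (r : ℤ) (u : ℤ) (s : (ZMod p)[X]), Br b g A B p r ∧ ¬ (p : ℤ) ∣ u ∧
    GZ (ZMod p) b ∣ (C (r : ZMod p) - X) - C (u : ZMod p) * e.map (Int.castRingHom (ZMod p)) * s ^ 2

theorem re_iff {m : ℕ} (b : Fin (m + 1) → ℤ) (g A B : ℤ[X]) (hD : Data b g A B) (e : ℤ[X])
    (he : IsCoprime (e.map (Int.castRingHom ℚ)) (GZ ℚ b)) :
    ∃ M : ℕ, ∀ p : ℕ, p.Prime → M < p →
      (RE b g A B (e.map (Int.castRingHom ℚ)) p ↔ REp b g A B e p) := by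
  obtain ⟨M, hM⟩ := red_large b g A B hD e he
  refine ⟨M, fun p hp hMp => ?_⟩
  have hF : Fact p.Prime := ⟨hp⟩
  obtain ⟨hp2, h0, hsq, heco, hBr⟩ := hM p hF hMp
  constructor
  · rintro ⟨_, r, hr, hcls⟩
    obtain ⟨u, s, hu, h⟩ := red_fwd hD.m2 b p h0 hsq e heco r hcls
    exact ⟨r, u, s, hr, hu, h⟩
  · rintro ⟨r, u, s, hr, hu, h⟩
    exact ⟨hF, r, hr, red_back b p hp2 h0 e r u s (hBr r hr) hu h⟩

end Stoll308.TD
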