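import Mathlib

set_option autoImplicit false

/-!
Squares modulo a squarefree polynomial over `𝔽_p`, in terms of the Frobenius map of the algebraic
closure.
-/

namespace Stoll308.TD

open Polynomial

section
variable {p : ℕ} [Fact p.Prime]


lemma ta_frob (f : (ZMod p)[X]) (ρ : AlgebraicClosure (ZMod p)) (d : ℕ) :
    (aeval ρ f) ^ p ^ d = aeval (ρ ^ p ^ d) f := by
  induction d with
  | zero => simp
  | succ d ih =>
    rw [pow_succ, pow_mul, ih, pow_mul, ← map_pow (aeval (ρ ^ p ^ d)), ← ZMod.expand_card,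
      expand_aeval]

lemma ta_root_pow (ρ : AlgebraicClosure (ZMod p)) :
    ρ ^ p ^ (minpoly (ZMod p) ρ).natDegree = ρ ∧
      ∀ y : AlgebraicClosure (ZMod p), y ^ p ^ (minpoly (ZMod p) ρ).natDegree = y →
        ∃ s : (ZMod p)[X], aeval ρ s = y := by
  classical
  have hint : IsIntegral (ZMod p) ρ := Algebra.IsIntegral.isIntegral ρ
  set K := IntermediateField.adjoin (ZMod p) {ρ} with hK
  have : FiniteDimensional (ZMod p) K := IntermediateField.adjoin.finiteDimensional hint
  have : Finite K := Module.finite_of_finite (ZMod p)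
  have := Fintype.ofFinite K
  have hcard : Fintype.card K = p ^ (minpoly (ZMod p) ρ).natDegree := by
    rw [Module.card_eq_pow_finrank (K := ZMod p), ZMod.card,
      IntermediateField.adjoin.finrank hint]
  set N := p ^ (minpoly (ZMod p) ρ).natDegree with hN
  have hpow : ∀ z : K, (z : AlgebraicClosure (ZMod p)) ^ N = z := by
    intro z
    have h1 := FiniteField.pow_card z
    rw [hcard] at h1
    exact_mod_cast congrArg (Subtype.val) h1
  have hρ : ρ ∈ K := IntermediateField.mem_adjoin_simple_self _ _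
  refine ⟨hpow ⟨ρ, hρ⟩, fun y hy => ?_⟩
  have hyK : y ∈ K := by
    by_contra hcon
    have hp1 : 1 < p := (Fact.out : p.Prime).one_lt
    have hd : (minpoly (ZMod p) ρ).natDegree ≠ 0 := (minpoly.natDegree_pos hint).ne'
    have hdeg : ((X : (AlgebraicClosure (ZMod p))[X]) ^ N - X).natDegree = N :=
      FiniteField.X_pow_card_pow_sub_X_natDegree_eq _ hd hp1
    have hne : ((X : (AlgebraicClosure (ZMod p))[X]) ^ N - X) ≠ 0 := by
      intro h0
      rw [h0, natDegree_zero] at hdeg
      have : 0 < N := pow_pos (by omega) _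
      omega
    have h2 := Polynomial.card_roots' ((X : (AlgebraicClosure (ZMod p))[X]) ^ N - X)
    rw [hdeg] at h2
    set T : Finset (AlgebraicClosure (ZMod p)) :=
      insert y (Finset.univ.image (fun z : K => (z : AlgebraicClosure (ZMod p)))) with hT
    have hTc : T.card = N + 1 := by
      rw [hT, Finset.card_insert_of_notMem, Finset.card_image_of_injective _
        Subtype.val_injective, Finset.card_univ, hcard]
      intro h3
      obtain ⟨z, -, hz⟩ := Finset.mem_image.1 h3
      exact hcon (hz ▸ z.2)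
    have hTr : T.val ≤ ((X : (AlgebraicClosure (ZMod p))[X]) ^ N - X).roots := by
      rw [Finset.val_le_iff_val_subset]
      intro z hz
      rw [mem_roots hne]
      show eval z _ = 0
      rw [eval_sub, eval_pow, eval_X]
      have hz' : z ∈ T := hz
      rw [hT, Finset.mem_insert] at hz'
      rcases hz' with rfl | hz'
      · rw [hy, sub_self]
      · obtain ⟨z', -, rfl⟩ := Finset.mem_image.1 hz'
        rw [hpow, sub_self]
    have h3 := Multiset.card_le_card hTr
    have h4 : Multiset.card T.val = N + 1 := hTc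
    omega
  have h5 : y ∈ K.toSubalgebra := hyK
  rw [hK, IntermediateField.adjoin_simple_toSubalgebra_of_isAlgebraic hint.isAlgebraic,
    Algebra.adjoin_singleton_eq_range_aeval] at h5
  exact h5

/-- Chinese remainder theorem: `Q` squarefree, a solution for every root of `Q`. -/
lemma ta_crt (u e a : (ZMod p)[X]) (Q : (ZMod p)[X]) (hQ : Squarefree Q)
    (h : ∀ ρ : AlgebraicClosure (ZMod p), aeval ρ Q = 0 →
      ∃ s : (ZMod p)[X], aeval ρ (a - u * e * s ^ 2) = 0) :
    ∃ s : (ZMod p)[X], Q ∣ a - u * e * s ^ 2 := by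
  induction Q using UniqueFactorizationMonoid.induction_on_prime with
  | h₁ => exact absurd hQ not_squarefree_zero
  | h₂ x hx => exact ⟨0, hx.dvd⟩
  | h₃ Q' q hQ' hq ih =>
    obtain ⟨s', hs'⟩ := ih hQ.of_mul_right (fun ρ hρ => h ρ (by rw [map_mul, hρ, mul_zero]))
    have hirr := hq.irreducible
    have hcop : IsCoprime q Q' := by
      rw [hirr.coprime_iff_not_dvd]
      intro h1
      have h2 : q * q ∣ q * Q' := mul_dvd_mul_left q h1
      exact hq.not_isUnit (hQ q h2)
    have hdeg : q.degree ≠ 0 := by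
      intro h1
      exact hirr.not_isUnit (isUnit_iff_degree_eq_zero.2 h1)
    obtain ⟨ρ, hρ⟩ := IsAlgClosed.exists_aeval_eq_zero (AlgebraicClosure (ZMod p)) q hdeg
    obtain ⟨s1, hs1⟩ := h ρ (by rw [map_mul, hρ, zero_mul])
    have hs1' : q ∣ a - u * e * s1 ^ 2 := by
      by_contra h1
      obtain ⟨v, w, hvw⟩ := hirr.coprime_iff_not_dvd.2 h1
      have h2 := congrArg (aeval ρ) hvw
      rw [map_add, map_mul, map_mul, hρ, hs1, mul_zero, mul_zero, add_zero, map_one] at h2
      exact zero_ne_one h2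
    have hcop' := hcop
    obtain ⟨v, w, hvw⟩ := hcop
    refine ⟨s1 * (w * Q') + s' * (v * q), hcop'.mul_dvd ?_ ?_⟩
    · obtain ⟨c, hc⟩ := hs1'
      refine ⟨c - u * e * v * (s' - s1) * (s1 * (w * Q') + s' * (v * q) + s1), ?_⟩
      linear_combination hc - u * e * s1 * (s1 * (w * Q') + s' * (v * q) + s1) * hvw
    · obtain ⟨c, hc⟩ := hs'
      refine ⟨c - u * e * w * (s1 - s') * (s1 * (w * Q') + s' * (v * q) + s'), ?_⟩
      linear_combination hc - u * e * s' * (s1 * (w * Q') + s' * (v * q) + s') * hvw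

lemma ta_fix (v : AlgebraicClosure (ZMod p)) (h : v ^ p = v) (d : ℕ) : v ^ p ^ d = v := by
  induction d with
  | zero => simp
  | succ d ih => rw [pow_succ, pow_mul, ih, h]

lemma ta_neg (hp : Odd p) (v : AlgebraicClosure (ZMod p)) (h : v ^ p = -v) (d : ℕ) :
    v ^ p ^ d = (-1) ^ d * v := by
  induction d with
  | zero => simp
  | succ d ih =>
    rw [pow_succ, pow_mul, ih, mul_pow, h, ← pow_mul]
    have h1 : ((-1 : AlgebraicClosure (ZMod p)) ^ (d * p)) = (-1) ^ d := by
      rw [mul_comm, pow_mul, hp.neg_one_pow]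
    rw [h1, pow_succ]
    ring

/-- the elements of the prime field -/
lemma ta_prime (v : AlgebraicClosure (ZMod p)) (h : v ^ p = v) :
    ∃ c : ZMod p, algebraMap (ZMod p) _ c = v := by
  classical
  by_contra hcon
  push Not at hcon
  have hp1 : 1 < p := (Fact.out : p.Prime).one_lt
  have hdeg : ((X : (AlgebraicClosure (ZMod p))[X]) ^ p - X).natDegree = p :=
    FiniteField.X_pow_card_sub_X_natDegree_eq _ hp1
  have hne : ((X : (AlgebraicClosure (ZMod p))[X]) ^ p - X) ≠ 0 := by
    intro h0
    rw [h0, natDegree_zero] at hdeg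
    omega
  have h2 := Polynomial.card_roots' ((X : (AlgebraicClosure (ZMod p))[X]) ^ p - X)
  rw [hdeg] at h2
  set T : Finset (AlgebraicClosure (ZMod p)) :=
    insert v (Finset.univ.image (algebraMap (ZMod p) (AlgebraicClosure (ZMod p)))) with hT
  have hTc : T.card = p + 1 := by
    rw [hT, Finset.card_insert_of_notMem, Finset.card_image_of_injective _
      (algebraMap (ZMod p) _).injective, Finset.card_univ, ZMod.card]
    intro h3
    obtain ⟨z, -, hz⟩ := Finset.mem_image.1 h3
    exact hcon z hz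
  have hTr : T.val ≤ ((X : (AlgebraicClosure (ZMod p))[X]) ^ p - X).roots := by
    rw [Finset.val_le_iff_val_subset]
    intro z hz
    rw [mem_roots hne]
    show eval z _ = 0
    rw [eval_sub, eval_pow, eval_X]
    have hz' : z ∈ T := hz
    rw [hT, Finset.mem_insert] at hz'
    rcases hz' with rfl | hz'
    · rw [h, sub_self]
    · obtain ⟨z', -, rfl⟩ := Finset.mem_image.1 hz'
      rw [← map_pow, ZMod.pow_card, sub_self]
  have h3 := Multiset.card_le_card hTr
  have h4 : Multiset.card T.val = p + 1 := hTc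
  omega

/-- The square classes, constant or not, at all roots. -/
theorem ta_iff (hp2 : p ≠ 2) (Q e : (ZMod p)[X]) (r : ZMod p) (hQ : Squarefree Q)
    (he : IsCoprime e Q) (hr : IsCoprime (C r - X) Q) :
    (∃ (u : ZMod p) (s : (ZMod p)[X]), u ≠ 0 ∧ Q ∣ (C r - X) - C u * e * s ^ 2) ↔
      (∀ ρ x : AlgebraicClosure (ZMod p), aeval ρ Q = 0 →
        x ^ 2 = (algebraMap (ZMod p) _ r - ρ) * aeval ρ e → ∀ d : ℕ, 0 < d → ρ ^ p ^ d = ρ →
          x ^ p ^ d = x) ∨
      (∀ ρ x : AlgebraicClosure (ZMod p), aeval ρ Q = 0 →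
        x ^ 2 = (algebraMap (ZMod p) _ r - ρ) * aeval ρ e → ∀ d : ℕ, 0 < d → ρ ^ p ^ d = ρ →
          (x ^ p ^ d = x ↔ Even d)) := by
  have hodd : Odd p := (Fact.out : p.Prime).odd_of_ne_two hp2
  have h2ne : (2 : AlgebraicClosure (ZMod p)) ≠ 0 := by
    have h1 : ((2 : ℕ) : ZMod p) ≠ 0 := by
      intro h1
      rw [ZMod.natCast_eq_zero_iff] at h1
      have := Nat.le_of_dvd (by norm_num) h1
      have h3 := (Fact.out : p.Prime).two_le
      omega
    intro h3
    apply h1
    apply (algebraMap (ZMod p) (AlgebraicClosure (ZMod p))).injective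
    rw [map_natCast, map_zero]
    exact_mod_cast h3
  have he0 : ∀ ρ : AlgebraicClosure (ZMod p), aeval ρ Q = 0 → aeval ρ e ≠ 0 := by
    intro ρ hρ h0
    obtain ⟨a, b, hab⟩ := he
    have h1 := congrArg (aeval ρ) hab
    rw [map_add, map_mul, map_mul, hρ, h0, mul_zero, mul_zero, add_zero, map_one] at h1
    exact zero_ne_one h1
  have hr0 : ∀ ρ : AlgebraicClosure (ZMod p), aeval ρ Q = 0 →
      algebraMap (ZMod p) _ r - ρ ≠ 0 := by
    intro ρ hρ h0
    obtain ⟨a, b, hab⟩ := hr
    have h1 := congrArg (aeval ρ) hab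
    rw [map_add, map_mul, map_mul, hρ, map_sub, aeval_C, aeval_X, h0, mul_zero, mul_zero,
      add_zero, map_one] at h1
    exact zero_ne_one h1
  have hfixe : ∀ (ρ : AlgebraicClosure (ZMod p)) (d : ℕ), ρ ^ p ^ d = ρ → ∀ f : (ZMod p)[X],
      (aeval ρ f) ^ p ^ d = aeval ρ f := by
    intro ρ d hd f
    rw [ta_frob, hd]
  have hsq : ∀ x y : AlgebraicClosure (ZMod p), x ^ 2 = y ^ 2 → x = y ∨ x = -y := fun x y h =>
    sq_eq_sq_iff_eq_or_eq_neg.1 h
  constructor
  · rintro ⟨u, s, hu, hdvd⟩
    obtain ⟨v, hv⟩ := IsAlgClosed.exists_pow_nat_eq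
      (algebraMap (ZMod p) (AlgebraicClosure (ZMod p)) u) (n := 2) (by norm_num)
    have hvp : v ^ p = v ∨ v ^ p = -v := by
      apply hsq
      rw [← pow_mul, mul_comm, pow_mul, hv, ← map_pow, ZMod.pow_card]
    have key : ∀ ρ x : AlgebraicClosure (ZMod p), aeval ρ Q = 0 →
        x ^ 2 = (algebraMap (ZMod p) _ r - ρ) * aeval ρ e → ∀ d : ℕ, ρ ^ p ^ d = ρ →
        ∃ t : AlgebraicClosure (ZMod p), t ^ p ^ d = t ∧ (x = v * t ∨ x = -(v * t)) := by
      intro ρ x hρ hx d hd
      refine ⟨aeval ρ (e * s), hfixe ρ d hd _, ?_⟩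
      apply hsq
      obtain ⟨c, hc⟩ := hdvd
      have h1 := congrArg (aeval ρ) hc
      rw [map_mul, hρ, zero_mul, map_sub, map_sub, aeval_C, aeval_X, map_mul, map_mul, map_pow,
        aeval_C] at h1
      rw [hx, mul_pow, hv, map_mul]
      linear_combination (aeval ρ e) * h1
    rcases hvp with hvp | hvp
    · left
      intro ρ x hρ hx d _ hd
      obtain ⟨t, ht, h1⟩ := key ρ x hρ hx d hd
      have h2 := ta_fix v hvp d
      rcases h1 with rfl | rfl
      · rw [mul_pow, h2, ht]
      · rw [(hodd.pow).neg_pow, mul_pow, h2, ht]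
    · right
      intro ρ x hρ hx d _ hd
      obtain ⟨t, ht, h1⟩ := key ρ x hρ hx d hd
      have h2 := ta_neg hodd v hvp d
      have hxd : x ^ p ^ d = (-1) ^ d * x := by
        rcases h1 with rfl | rfl
        · rw [mul_pow, h2, ht]; ring
        · rw [(hodd.pow).neg_pow, mul_pow, h2, ht]; ring
      have hx0 : x ≠ 0 := by
        rintro rfl
        rw [zero_pow two_ne_zero] at hx
        exact mul_ne_zero (hr0 ρ hρ) (he0 ρ hρ) hx.symm
      rw [hxd]
      constructor
      · intro h3
        by_contra h4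
        rw [Nat.not_even_iff_odd] at h4
        rw [h4.neg_one_pow] at h3
        have h5 : 2 * x = 0 := by linear_combination -h3
        rcases mul_eq_zero.1 h5 with h6 | h6
        · exact h2ne h6
        · exact hx0 h6
      · intro h3
        rw [h3.neg_one_pow, one_mul]
  · -- construction of s
    have build : ∀ (u : ZMod p) (v : AlgebraicClosure (ZMod p)), u ≠ 0 →
        v ^ 2 = algebraMap (ZMod p) _ u →
        (∀ ρ x : AlgebraicClosure (ZMod p), aeval ρ Q = 0 →
          x ^ 2 = (algebraMap (ZMod p) _ r - ρ) * aeval ρ e → ∀ d : ℕ, 0 < d →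
            ρ ^ p ^ d = ρ → x ^ p ^ d * v = x * v ^ p ^ d) →
        ∃ (u : ZMod p) (s : (ZMod p)[X]), u ≠ 0 ∧ Q ∣ (C r - X) - C u * e * s ^ 2 := by
      intro u v hu hv hall
      have hv0 : v ≠ 0 := by
        rintro rfl
        rw [zero_pow two_ne_zero] at hv
        exact hu ((algebraMap (ZMod p) (AlgebraicClosure (ZMod p))).injective
          (by rw [map_zero]; exact hv.symm))
      obtain ⟨s, hs⟩ := ta_crt (C u) e (C r - X) Q hQ (by
        intro ρ hρ
        obtain ⟨h1, h2⟩ := ta_root_pow ρ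
        have hd : 0 < (minpoly (ZMod p) ρ).natDegree :=
          minpoly.natDegree_pos (Algebra.IsIntegral.isIntegral ρ)
        obtain ⟨x, hx⟩ := IsAlgClosed.exists_pow_nat_eq
          ((algebraMap (ZMod p) (AlgebraicClosure (ZMod p)) r - ρ) * aeval ρ e) (n := 2)
          (by norm_num)
        have h3 := hall ρ x hρ hx _ hd h1
        obtain ⟨s, hs⟩ := h2 (x / (v * aeval ρ e)) (by
          rw [div_pow, mul_pow, hfixe ρ _ h1 e, div_eq_div_iff]
          · linear_combination (aeval ρ e) * h3
          · exact mul_ne_zero (pow_ne_zero _ hv0) (he0 ρ hρ)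
          · exact mul_ne_zero hv0 (he0 ρ hρ))
        refine ⟨s, ?_⟩
        rw [map_sub, map_sub, aeval_C, aeval_X, map_mul, map_mul, map_pow, aeval_C, hs, div_pow,
          mul_pow, hx, ← hv]
        have := he0 ρ hρ
        field_simp
        ring)
      exact ⟨u, s, hu, hs⟩
    rintro (h | h)
    · refine build 1 1 one_ne_zero (by rw [map_one, one_pow]) ?_
      intro ρ x hρ hx d hd hρd
      rw [h ρ x hρ hx d hd hρd, one_pow, mul_one]
    · obtain ⟨u, hu⟩ := FiniteField.exists_nonsquare (F := ZMod p) (by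
        rw [ZMod.ringChar_zmod_n]; exact hp2)
      obtain ⟨v, hv⟩ := IsAlgClosed.exists_pow_nat_eq
        (algebraMap (ZMod p) (AlgebraicClosure (ZMod p)) u) (n := 2) (by norm_num)
      have hvp : v ^ p = -v := by
        have h1 : v ^ p = v ∨ v ^ p = -v := by
          apply hsq
          rw [← pow_mul, mul_comm, pow_mul, hv, ← map_pow, ZMod.pow_card]
        rcases h1 with h1 | h1
        · exfalso
          obtain ⟨c, hc⟩ := ta_prime v h1
          apply hu
          refine ⟨c, ?_⟩
          apply (algebraMap (ZMod p) (AlgebraicClosure (ZMod p))).injective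
          rw [map_mul, hc, ← hv, sq]
        · exact h1
      refine build u v (by rintro rfl; exact hu ⟨0, by simp⟩) hv ?_
      intro ρ x hρ hx d hd hρd
      have h1 := h ρ x hρ hx d hd hρd
      rw [ta_neg hodd v hvp d]
      by_cases hev : Even d
      · rw [h1.2 hev, hev.neg_one_pow, one_mul]
      · have h2 : x ^ p ^ d = x ∨ x ^ p ^ d = -x := by
          apply hsq
          rw [← pow_mul, mul_comm, pow_mul, hx]
          have h3 := hfixe ρ d hρd ((C r - X) * e)
          rw [map_mul, map_sub, aeval_C, aeval_X] at h3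
          exact h3
        rcases h2 with h2 | h2
        · exact absurd (h1.1 h2) hev
        · rw [Nat.not_even_iff_odd] at hev
          rw [h2, hev.neg_one_pow]
          ring

end

end Stoll308.TD
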