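import Mathlib

set_option autoImplicit false

/-!
A Galois number field with given roots and square roots, and its reductions modulo large primes.
-/

namespace Stoll308.TD

open Polynomial NumberField

lemma tb_alg : Algebra.IsAlgebraic ℚ (AlgebraicClosure ℚ) := by
  have h := AlgebraicClosure.isAlgebraic ℚ
  have e : (DivisionRing.toRatAlgebra : Algebra ℚ (AlgebraicClosure ℚ)) =
    AlgebraicClosure.instAlgebra ℚ := Subsingleton.elim _ _
  rw [e]
  exact h

lemma tb_normal : Normal ℚ (AlgebraicClosure ℚ) := by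
  have := tb_alg
  have h : IsAlgClosure ℚ (AlgebraicClosure ℚ) := ⟨inferInstance, inferInstance⟩
  exact IsAlgClosure.normal _ _

lemma tb_n (K : IntermediateField ℚ (AlgebraicClosure ℚ)) :
    IsGalois ℚ (IntermediateField.normalClosure ℚ K (AlgebraicClosure ℚ)) := by
  have := tb_normal
  have h2 := normalClosure.normal ℚ K (AlgebraicClosure ℚ)
  have e : (DivisionRing.toRatAlgebra :
      Algebra ℚ (IntermediateField.normalClosure ℚ K (AlgebraicClosure ℚ))) =
    IntermediateField.algebra' _ := Subsingleton.elim _ _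
  have h3 : Normal ℚ (IntermediateField.normalClosure ℚ K (AlgebraicClosure ℚ)) := by
    rw [e]
    exact h2
  exact ⟨⟩

/-- A Galois number field which contains a given finite set of algebraic numbers. -/
lemma tb_field (T : Set (AlgebraicClosure ℚ)) (hT : T.Finite) :
    ∃ N : IntermediateField ℚ (AlgebraicClosure ℚ), T ⊆ N ∧ FiniteDimensional ℚ N ∧
      IsGalois ℚ N := by
  have : Finite T := hT
  have := tb_alg
  have := tb_normal
  have h1 : FiniteDimensional ℚ (IntermediateField.adjoin ℚ T) :=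
    IntermediateField.finiteDimensional_adjoin fun x _ => Algebra.IsIntegral.isIntegral x
  refine ⟨IntermediateField.normalClosure ℚ (IntermediateField.adjoin ℚ T) (AlgebraicClosure ℚ),
    ?_, inferInstance, tb_n _⟩
  intro x hx
  exact IntermediateField.le_normalClosure _ (IntermediateField.subset_adjoin ℚ T hx)

/-- The number field with the roots and square roots. -/
theorem tb_exists (G q e : ℚ[X]) (hG : G ≠ 0) (hq : q ≠ 0) :
    ∃ (L : Type) (_ : Field L) (_ : NumberField L) (_ : IsGalois ℚ L),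
      (G.map (algebraMap ℚ L)).Splits ∧ (q.map (algebraMap ℚ L)).Splits ∧
      (∀ θ : L, aeval θ G = 0 → ∃ w : L, w ^ 2 = aeval θ q) ∧
      ∀ θ ρ : L, aeval θ G = 0 → aeval ρ q = 0 → ∃ x : L, x ^ 2 = (θ - ρ) * aeval ρ e := by
  classical
  have hw : ∀ θ : AlgebraicClosure ℚ, ∃ w, w ^ 2 = aeval θ q := fun θ =>
    IsAlgClosed.exists_pow_nat_eq _ (by norm_num)
  have hx : ∀ θ ρ : AlgebraicClosure ℚ, ∃ x, x ^ 2 = (θ - ρ) * aeval ρ e := fun θ ρ =>
    IsAlgClosed.exists_pow_nat_eq _ (by norm_num)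
  choose w hw using hw
  choose x hx using hx
  set T : Set (AlgebraicClosure ℚ) := (G.rootSet (AlgebraicClosure ℚ)) ∪
    (q.rootSet (AlgebraicClosure ℚ)) ∪ (w '' (G.rootSet (AlgebraicClosure ℚ))) ∪
    (Function.uncurry x '' ((G.rootSet (AlgebraicClosure ℚ)) ×ˢ
      (q.rootSet (AlgebraicClosure ℚ)))) with hT
  have hfin : T.Finite := by
    have h1 := G.rootSet_finite (AlgebraicClosure ℚ)
    have h2 := q.rootSet_finite (AlgebraicClosure ℚ)
    exact ((h1.union h2).union (h1.image _)).union ((h1.prod h2).image _)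
  obtain ⟨N, hTN, hfd, hgal⟩ := tb_field T hfin
  have hG' : ∀ θ : N, aeval θ G = 0 → (θ : AlgebraicClosure ℚ) ∈ G.rootSet _ := by
    intro θ h
    rw [mem_rootSet]
    refine ⟨hG, ?_⟩
    have h1 := congrArg (algebraMap N (AlgebraicClosure ℚ)) h
    rw [← aeval_algebraMap_apply, map_zero] at h1
    exact h1
  have hq' : ∀ θ : N, aeval θ q = 0 → (θ : AlgebraicClosure ℚ) ∈ q.rootSet _ := by
    intro θ h
    rw [mem_rootSet]
    refine ⟨hq, ?_⟩
    have h1 := congrArg (algebraMap N (AlgebraicClosure ℚ)) h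
    rw [← aeval_algebraMap_apply, map_zero] at h1
    exact h1
  have hcoe : ∀ (f : ℚ[X]) (θ : N), ((aeval θ f : N) : AlgebraicClosure ℚ) =
      aeval (θ : AlgebraicClosure ℚ) f := by
    intro f θ
    have := aeval_algebraMap_apply (AlgebraicClosure ℚ) θ f
    exact this.symm
  refine ⟨N, inferInstance, @NumberField.mk N _ _ hfd, hgal, ?_, ?_, ?_, ?_⟩
  · refine IntermediateField.splits_of_splits (IsAlgClosed.splits _) fun y hy => ?_
    exact hTN (Or.inl (Or.inl (Or.inl hy)))
  · refine IntermediateField.splits_of_splits (IsAlgClosed.splits _) fun y hy => ?_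
    exact hTN (Or.inl (Or.inl (Or.inr hy)))
  · intro θ h
    refine ⟨⟨w θ, hTN (Or.inl (Or.inr ⟨θ, hG' θ h, rfl⟩))⟩, ?_⟩
    apply Subtype.ext
    rw [hcoe, ← hw]
    rfl
  · intro θ ρ h h'
    refine ⟨⟨x θ ρ, hTN (Or.inr ⟨(θ, ρ), ⟨hG' θ h, hq' ρ h'⟩, rfl⟩)⟩, ?_⟩
    apply Subtype.ext
    have h3 := hx θ ρ
    rw [← hcoe] at h3
    exact h3

/-- Reductions: a ring `A` which contains the elements of `T`. -/
theorem tb_red (L : Type) [Field L] [NumberField L] (T : Finset L) :
    ∃ (A : Type) (_ : CommRing A) (j : A →+* L) (lf : L → A) (nm : L → 𝓞 L) (D : ℕ),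
      Function.Injective j ∧ (∀ α ∈ T, j (lf α) = α) ∧
      ∀ (p : ℕ) [Fact p.Prime], D < p → ∀ φ : 𝓞 L →+* AlgebraicClosure (ZMod p),
        ∃ ψ : A →+* AlgebraicClosure (ZMod p), ∀ α ∈ T, ∀ d : ℕ,
          (ψ (lf α) ^ p ^ d = ψ (lf α) ↔ φ (nm α) ^ p ^ d = φ (nm α)) := by
  classical
  obtain ⟨D, hD0, hD⟩ := exists_integral_multiples ℤ ℚ T
  set Dm : 𝓞 L := (D : 𝓞 L) with hDm
  have hDm0 : Dm ≠ 0 := by
    rw [hDm]; exact_mod_cast hD0
  have hu : IsUnit (algebraMap (𝓞 L) L Dm) := by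
    rw [isUnit_iff_ne_zero]
    intro h
    apply hDm0
    exact (FaithfulSMul.algebraMap_injective (𝓞 L) L) (by rw [h, map_zero])
  let A := Localization.Away Dm
  let j : A →+* L := IsLocalization.Away.lift Dm hu
  have hj : Function.Injective j := by
    refine (IsLocalization.lift_injective_iff _).2 ?_
    intro x y
    constructor
    · intro h
      have h1 := congrArg j h
      rw [IsLocalization.Away.lift_eq, IsLocalization.Away.lift_eq] at h1
      exact h1
    · intro h
      rw [FaithfulSMul.algebraMap_injective (𝓞 L) L h]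
  let nm : L → 𝓞 L := fun α => if h : IsIntegral ℤ (D • α) then ⟨D • α, h⟩ else 0
  have hnm : ∀ α ∈ T, algebraMap (𝓞 L) L (nm α) = D • α := by
    intro α hα
    have h1 : nm α = ⟨D • α, hD α hα⟩ := dif_pos (hD α hα)
    rw [h1]
    rfl
  let lf : L → A := fun α => IsLocalization.mk' A (nm α) (⟨Dm, 1, pow_one Dm⟩ :
    Submonoid.powers Dm)
  refine ⟨A, inferInstance, j, lf, nm, D.natAbs, hj, ?_, ?_⟩
  · intro α hα
    have h1 : lf α * algebraMap (𝓞 L) A Dm = algebraMap (𝓞 L) A (nm α) :=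
      IsLocalization.mk'_spec A (nm α) (⟨Dm, 1, pow_one Dm⟩ : Submonoid.powers Dm)
    have h2 := congrArg j h1
    rw [map_mul, IsLocalization.Away.lift_eq, IsLocalization.Away.lift_eq, hnm α hα] at h2
    have h3 : (algebraMap (𝓞 L) L Dm) = (D : L) := by
      rw [hDm]; exact map_intCast _ _
    rw [h3] at h2
    have h4 : (D : L) ≠ 0 := by exact_mod_cast hD0
    have h5 : D • α = (D : L) * α := zsmul_eq_mul α D
    rw [h5] at h2
    exact mul_right_cancel₀ h4 (by rw [h2]; ring)
  · intro p _ hp φ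
    have hpD : ((D : ℤ) : ZMod p) ≠ 0 := by
      intro h
      rw [ZMod.intCast_zmod_eq_zero_iff_dvd] at h
      have h1 := Int.natAbs_dvd_natAbs.2 h
      rw [Int.natAbs_natCast] at h1
      have h2 := Nat.le_of_dvd (Int.natAbs_pos.2 hD0) h1
      omega
    have hφD : φ Dm = algebraMap (ZMod p) (AlgebraicClosure (ZMod p)) (D : ZMod p) := by
      rw [hDm, map_intCast, map_intCast]
    have hφD0 : φ Dm ≠ 0 := by
      rw [hφD]
      intro h
      exact hpD ((algebraMap (ZMod p) (AlgebraicClosure (ZMod p))).injective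
        (by rw [h, map_zero]))
    refine ⟨IsLocalization.Away.lift Dm (isUnit_iff_ne_zero.2 hφD0), fun α hα d => ?_⟩
    set ψ : A →+* AlgebraicClosure (ZMod p) :=
      IsLocalization.Away.lift Dm (isUnit_iff_ne_zero.2 hφD0) with hψ
    have h1 : lf α * algebraMap (𝓞 L) A Dm = algebraMap (𝓞 L) A (nm α) :=
      IsLocalization.mk'_spec A (nm α) (⟨Dm, 1, pow_one Dm⟩ : Submonoid.powers Dm)
    have h2 := congrArg ψ h1
    rw [map_mul, hψ, IsLocalization.Away.lift_eq, IsLocalization.Away.lift_eq, ← hψ] at h2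
    have h3 : (φ Dm) ^ p ^ d = φ Dm := by
      rw [hφD, ← map_pow, ZMod.pow_card_pow]
    rw [← h2, mul_pow, h3]
    constructor
    · intro h; rw [h]
    · intro h; exact mul_right_cancel₀ hφD0 h

end Stoll308.TD
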