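import Pool.Agent.Work.MP_308fa9_nt.TD.Red
import Pool.Agent.Work.MP_308fa9_nt.TD.TypA
import Pool.Agent.Work.MP_308fa9_nt.TD.TypB
import Pool.Agent.Work.MP_308fa9_nt.FQ.Act
import Pool.Agent.Work.MP_308fa9_nt.DQ.Scale

set_option autoImplicit false

/-!
The conditions `RW` and `REp` in terms of the Frobenius map on a number field.
-/

namespace Stoll308.TD

open Polynomial Finset BF NumberField

section
variable {p : ℕ} [Fact p.Prime]

lemma tc_zero (n : ℤ) : (n : AlgebraicClosure (ZMod p)) = 0 ↔ (p : ℤ) ∣ n := by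
  rw [← ZMod.intCast_zmod_eq_zero_iff_dvd n p, ← map_intCast (algebraMap (ZMod p)
    (AlgebraicClosure (ZMod p))) n, map_eq_zero_iff _ (algebraMap (ZMod p) _).injective]

lemma tc_int_fix (n : ℤ) (d : ℕ) :
    (n : AlgebraicClosure (ZMod p)) ^ p ^ d = n := by
  rw [← map_intCast (algebraMap (ZMod p) (AlgebraicClosure (ZMod p))) n, ← map_pow,
    ZMod.pow_card_pow]

lemma tc_int (v : AlgebraicClosure (ZMod p)) (h : v ^ p = v) : ∃ r : ℤ, (r : _) = v := by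
  obtain ⟨c, hc⟩ := ta_prime v h
  refine ⟨(c.val : ℤ), ?_⟩
  rw [← hc, ← map_intCast (algebraMap (ZMod p) (AlgebraicClosure (ZMod p)))]
  congr 1
  push_cast
  exact ZMod.natCast_zmod_val c

lemma tc_ne {N : ℤ} (hN : N ≠ 0) (h : N.natAbs < p) : (N : ZMod p) ≠ 0 := by
  intro h0
  rw [ZMod.intCast_zmod_eq_zero_iff_dvd] at h0
  have h1 := Int.natAbs_dvd_natAbs.2 h0
  rw [Int.natAbs_natCast] at h1
  have h2 := Nat.le_of_dvd (Int.natAbs_pos.2 hN) h1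
  omega

lemma tc_eval (P : ℤ[X]) (r : ℤ) :
    (P.map (Int.castRingHom (AlgebraicClosure (ZMod p)))).eval
      ((r : ℤ) : AlgebraicClosure (ZMod p)) = ((P.eval r : ℤ) : AlgebraicClosure (ZMod p)) := by
  rw [eval_intCast_map, eq_intCast, Int.cast_id]

lemma tc_aeval (P : ℤ[X]) (z : AlgebraicClosure (ZMod p)) :
    aeval z (P.map (Int.castRingHom (ZMod p))) =
      (P.map (Int.castRingHom (AlgebraicClosure (ZMod p)))).eval z := by
  rw [aeval_def, eval₂_eq_eval_map, Polynomial.map_map]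
  congr 2

/-- coprime modulo `p` -/
lemma tc_cop (U V P Q : ℤ[X]) {N : ℤ} (h : U * P + V * Q = C N) (hN : N ≠ 0)
    (hp : N.natAbs < p) :
    IsCoprime (P.map (Int.castRingHom (ZMod p))) (Q.map (Int.castRingHom (ZMod p))) := by
  have h1 := congrArg (Polynomial.map (Int.castRingHom (ZMod p))) h
  rw [Polynomial.map_add, Polynomial.map_mul, Polynomial.map_mul, map_C, eq_intCast] at h1
  have h2 := tc_ne (p := p) hN hp
  refine ⟨C (N : ZMod p)⁻¹ * U.map (Int.castRingHom (ZMod p)),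
    C (N : ZMod p)⁻¹ * V.map (Int.castRingHom (ZMod p)), ?_⟩
  have h3 : (C (N : ZMod p)⁻¹ * C (N : ZMod p) : (ZMod p)[X]) = 1 := by
    rw [← C_mul, inv_mul_cancel₀ h2, C_1]
  linear_combination C (N : ZMod p)⁻¹ * h1 + h3

variable {A' L : Type} [CommRing A'] [Field L] {j : A' →+* L} {lf : L → A'}

/-- the roots modulo `p` -/
lemma tc_roots (hj : Function.Injective j) (ψ : A' →+* AlgebraicClosure (ZMod p)) (P : ℤ[X])
    (hP : (P.map (Int.castRingHom L)).Splits) (hinj : Function.Injective (Int.castRingHom L))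
    (hT : ∀ θ ∈ (P.map (Int.castRingHom L)).roots, j (lf θ) = θ)
    (hlc : (P.leadingCoeff : ZMod p) ≠ 0) (z : AlgebraicClosure (ZMod p)) :
    (P.map (Int.castRingHom (AlgebraicClosure (ZMod p)))).eval z = 0 ↔
      ∃ θ ∈ (P.map (Int.castRingHom L)).roots, z = ψ (lf θ) := by
  have h1 := hP.eq_prod_roots
  rw [leadingCoeff_map_of_injective hinj] at h1
  set R := (P.map (Int.castRingHom L)).roots with hR
  have h2 : P.map (Int.castRingHom A') =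
      C ((P.leadingCoeff : ℤ) : A') * ((R.map lf).map fun a => X - C a).prod := by
    apply map_injective j hj
    rw [Polynomial.map_map, Polynomial.map_mul, map_C, Polynomial.map_multiset_prod,
      Multiset.map_map, Multiset.map_map, map_intCast]
    have e1 : j.comp (Int.castRingHom A') = Int.castRingHom L := RingHom.ext_int _ _
    rw [e1, h1, eq_intCast]
    congr 2
    refine Multiset.map_congr rfl fun θ hθ => ?_
    simp only [Function.comp_apply, Polynomial.map_sub, map_X, map_C, hT θ hθ]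
  have h3 := congrArg (Polynomial.map ψ) h2
  rw [Polynomial.map_map, Polynomial.map_mul, map_C, Polynomial.map_multiset_prod,
    Multiset.map_map, Multiset.map_map, map_intCast] at h3
  have e2 : ψ.comp (Int.castRingHom A') = Int.castRingHom (AlgebraicClosure (ZMod p)) :=
    RingHom.ext_int _ _
  rw [e2] at h3
  rw [h3, eval_mul, eval_C, eval_multiset_prod, mul_eq_zero, Multiset.prod_eq_zero_iff]
  have hlc' : ((P.leadingCoeff : ℤ) : AlgebraicClosure (ZMod p)) ≠ 0 := by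
    intro h
    rw [tc_zero, ← ZMod.intCast_zmod_eq_zero_iff_dvd] at h
    exact hlc h
  constructor
  · rintro (h | h)
    · exact absurd h hlc'
    · rw [Multiset.mem_map] at h
      obtain ⟨f, hf, hf0⟩ := h
      rw [Multiset.mem_map] at hf
      obtain ⟨θ, hθ, rfl⟩ := hf
      refine ⟨θ, hθ, ?_⟩
      simp only [Function.comp_apply, Polynomial.map_sub, map_X, map_C, eval_sub, eval_X,
        eval_C] at hf0
      exact sub_eq_zero.1 hf0
  · rintro ⟨θ, hθ, rfl⟩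
    right
    rw [Multiset.mem_map]
    refine ⟨_, Multiset.mem_map.2 ⟨θ, hθ, rfl⟩, ?_⟩
    simp only [Function.comp_apply, Polynomial.map_sub, map_X, map_C, eval_sub, eval_X,
      eval_C, sub_self]

lemma tc_tr {R S : Type} [CommRing R] [CommRing S] (k : R →+* S) (P : ℤ[X]) (a : R) :
    k ((P.map (Int.castRingHom R)).eval a) = (P.map (Int.castRingHom S)).eval (k a) := by
  rw [eval_map, hom_eval₂, eval_map]
  congr 1
  exact RingHom.ext_int _ _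

end

/-- a branch point, in terms of the fixed elements -/
def BrC {L : Type} (Rg RF : Finset L) (w : L → L) (Fx : L → ℕ → Prop) (θ : L) : Prop :=
  (θ ∈ Rg ∧ Fx θ 1 ∧ Fx (w θ) 1) ∨ (θ ∈ RF ∧ Fx θ 1)

/-- the class of a branch point -/
def AltC {L : Type} (Rq : Finset L) (x : L → L → L) (Fx : L → ℕ → Prop) (θ : L) : Prop :=
  (∀ ρ ∈ Rq, ∀ d : ℕ, 0 < d → Fx ρ d → Fx (x θ ρ) d) ∨
    (∀ ρ ∈ Rq, ∀ d : ℕ, 0 < d → Fx ρ d → (Fx (x θ ρ) d ↔ Even d))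

/-- the field data -/
structure Fd {L A' : Type} [Field L] [CommRing A'] (j : A' →+* L) (lf : L → A') (g F q e : ℤ[X])
    (Rg RF Rq T : Finset L) (w : L → L) (x : L → L → L) : Prop where
  jinj : Function.Injective j
  cinj : Function.Injective (Int.castRingHom L)
  lift : ∀ α ∈ T, j (lf α) = α
  gs : (g.map (Int.castRingHom L)).Splits
  Fs : (F.map (Int.castRingHom L)).Splits
  qs : (q.map (Int.castRingHom L)).Splits
  gr : ∀ θ, θ ∈ Rg ↔ θ ∈ (g.map (Int.castRingHom L)).roots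
  Fr : ∀ θ, θ ∈ RF ↔ θ ∈ (F.map (Int.castRingHom L)).roots
  qr : ∀ θ, θ ∈ Rq ↔ θ ∈ (q.map (Int.castRingHom L)).roots
  gT : ∀ θ ∈ Rg, θ ∈ T
  FT : ∀ θ ∈ RF, θ ∈ T
  qT : ∀ θ ∈ Rq, θ ∈ T
  wT : ∀ θ ∈ Rg, w θ ∈ T
  xT : ∀ θ, θ ∈ Rg ∨ θ ∈ RF → ∀ ρ ∈ Rq, x θ ρ ∈ T
  w2 : ∀ θ ∈ Rg, (w θ) ^ 2 = (q.map (Int.castRingHom L)).eval θ
  x2 : ∀ θ, θ ∈ Rg ∨ θ ∈ RF → ∀ ρ ∈ Rq,
    (x θ ρ) ^ 2 = (θ - ρ) * (e.map (Int.castRingHom L)).eval ρ

/-- conditions on the prime -/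
structure Pr (p : ℕ) (g F q e : ℤ[X]) : Prop where
  p2 : p ≠ 2
  gl : (g.leadingCoeff : ZMod p) ≠ 0
  Fl : (F.leadingCoeff : ZMod p) ≠ 0
  ql : (q.leadingCoeff : ZMod p) ≠ 0
  sq : Squarefree (q.map (Int.castRingHom (ZMod p)))
  eq : IsCoprime (e.map (Int.castRingHom (ZMod p))) (q.map (Int.castRingHom (ZMod p)))
  Gq : IsCoprime ((g * F).map (Int.castRingHom (ZMod p))) (q.map (Int.castRingHom (ZMod p)))

section
variable {p : ℕ} [Fact p.Prime] {L A' : Type} [Field L] [CommRing A'] {j : A' →+* L}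
  {lf : L → A'} {g F q e : ℤ[X]} {Rg RF Rq T : Finset L} {w : L → L} {x : L → L → L}

lemma tc_w2 (h : Fd j lf g F q e Rg RF Rq T w x) (ψ : A' →+* AlgebraicClosure (ZMod p)) {θ : L}
    (hθ : θ ∈ Rg) : (ψ (lf (w θ))) ^ 2 =
      (q.map (Int.castRingHom (AlgebraicClosure (ZMod p)))).eval (ψ (lf θ)) := by
  have h1 : (lf (w θ)) ^ 2 = (q.map (Int.castRingHom A')).eval (lf θ) := by
    apply h.jinj
    rw [map_pow, h.lift _ (h.wT θ hθ), tc_tr, h.lift _ (h.gT θ hθ), h.w2 θ hθ]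
  rw [← map_pow, h1, tc_tr]

lemma tc_x2 (h : Fd j lf g F q e Rg RF Rq T w x) (ψ : A' →+* AlgebraicClosure (ZMod p)) {θ ρ : L}
    (hθ : θ ∈ Rg ∨ θ ∈ RF) (hρ : ρ ∈ Rq) : (ψ (lf (x θ ρ))) ^ 2 =
      (ψ (lf θ) - ψ (lf ρ)) *
        (e.map (Int.castRingHom (AlgebraicClosure (ZMod p)))).eval (ψ (lf ρ)) := by
  have hθT : θ ∈ T := hθ.elim (h.gT θ) (h.FT θ)
  have h1 : (lf (x θ ρ)) ^ 2 = (lf θ - lf ρ) * (e.map (Int.castRingHom A')).eval (lf ρ) := by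
    apply h.jinj
    rw [map_pow, h.lift _ (h.xT θ hθ ρ hρ), map_mul, map_sub, tc_tr, h.lift _ hθT,
      h.lift _ (h.qT ρ hρ), h.x2 θ hθ ρ hρ]
  rw [← map_pow, h1, map_mul, map_sub, tc_tr]

/-- `Br` with the polynomials -/
def Br' (p : ℕ) (g F q : ℤ[X]) (r : ℤ) : Prop :=
  ((p : ℤ) ∣ g.eval r ∧ ∃ z : ℤ, ¬ (p : ℤ) ∣ z ∧ (p : ℤ) ∣ z ^ 2 - q.eval r) ∨
    (p : ℤ) ∣ F.eval r

lemma tc_br1 (h : Fd j lf g F q e Rg RF Rq T w x) (hp : Pr p g F q e)
    (ψ : A' →+* AlgebraicClosure (ZMod p)) {r : ℤ} (hr : Br' p g F q r) :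
    ∃ θ, BrC Rg RF w (fun α d => ψ (lf α) ^ p ^ d = ψ (lf α)) θ ∧
      (r : AlgebraicClosure (ZMod p)) = ψ (lf θ) := by
  rcases hr with ⟨h1, z, hz, hzq⟩ | h1
  · have h2 : (g.map (Int.castRingHom (AlgebraicClosure (ZMod p)))).eval
        ((r : ℤ) : AlgebraicClosure (ZMod p)) = 0 := by rw [tc_eval, tc_zero]; exact h1
    rw [tc_roots h.jinj ψ g h.gs h.cinj (fun θ hθ => h.lift θ (h.gT θ ((h.gr θ).2 hθ))) hp.gl]
      at h2
    obtain ⟨θ, hθ, hrθ⟩ := h2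
    have hθ' := (h.gr θ).2 hθ
    refine ⟨θ, Or.inl ⟨hθ', ?_, ?_⟩, hrθ⟩
    · show ψ (lf θ) ^ p ^ 1 = ψ (lf θ)
      rw [← hrθ, tc_int_fix]
    · show ψ (lf (w θ)) ^ p ^ 1 = ψ (lf (w θ))
      have h3 := tc_w2 h ψ hθ'
      rw [← hrθ, tc_eval] at h3
      have h4 : ((z ^ 2 - q.eval r : ℤ) : AlgebraicClosure (ZMod p)) = 0 := by
        rw [tc_zero]; exact hzq
      have h5 : (ψ (lf (w θ))) ^ 2 = (z : AlgebraicClosure (ZMod p)) ^ 2 := by
        rw [h3]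
        push_cast at h4
        exact (sub_eq_zero.1 h4).symm
      rcases sq_eq_sq_iff_eq_or_eq_neg.1 h5 with h6 | h6
      · rw [h6, tc_int_fix]
      · rw [h6, ← Int.cast_neg, tc_int_fix]
  · have h2 : (F.map (Int.castRingHom (AlgebraicClosure (ZMod p)))).eval
        ((r : ℤ) : AlgebraicClosure (ZMod p)) = 0 := by rw [tc_eval, tc_zero]; exact h1
    rw [tc_roots h.jinj ψ F h.Fs h.cinj (fun θ hθ => h.lift θ (h.FT θ ((h.Fr θ).2 hθ))) hp.Fl]
      at h2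
    obtain ⟨θ, hθ, hrθ⟩ := h2
    refine ⟨θ, Or.inr ⟨(h.Fr θ).2 hθ, ?_⟩, hrθ⟩
    show ψ (lf θ) ^ p ^ 1 = ψ (lf θ)
    rw [← hrθ, tc_int_fix]

lemma tc_qne (hp : Pr p g F q e) {r : ℤ} (hr : (p : ℤ) ∣ g.eval r ∨ (p : ℤ) ∣ F.eval r) :
    ((q.eval r : ℤ) : ZMod p) ≠ 0 := by
  intro h0
  obtain ⟨a, b, hab⟩ := hp.Gq
  have h1 := congrArg (Polynomial.eval (r : ZMod p)) hab
  have h2 : ∀ P : ℤ[X], (P.map (Int.castRingHom (ZMod p))).eval (r : ZMod p) =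
      ((P.eval r : ℤ) : ZMod p) := by
    intro P
    rw [eval_intCast_map, eq_intCast, Int.cast_id]
  have h3 : (((g * F).eval r : ℤ) : ZMod p) = 0 := by
    rw [ZMod.intCast_zmod_eq_zero_iff_dvd, eval_mul]
    rcases hr with hr | hr
    · exact Dvd.dvd.mul_right hr _
    · exact Dvd.dvd.mul_left hr _
  rw [eval_add, eval_mul, eval_mul, h2, h2, h3, h0, mul_zero, mul_zero, add_zero, eval_one] at h1
  exact zero_ne_one h1

lemma tc_br2 (h : Fd j lf g F q e Rg RF Rq T w x) (hp : Pr p g F q e)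
    (ψ : A' →+* AlgebraicClosure (ZMod p)) {θ : L}
    (hθ : BrC Rg RF w (fun α d => ψ (lf α) ^ p ^ d = ψ (lf α)) θ) :
    ∃ r : ℤ, Br' p g F q r ∧ (r : AlgebraicClosure (ZMod p)) = ψ (lf θ) := by
  rcases hθ with ⟨h1, h2, h3⟩ | ⟨h1, h2⟩
  · have h2' : ψ (lf θ) ^ p = ψ (lf θ) := by simpa using h2
    have h3' : ψ (lf (w θ)) ^ p = ψ (lf (w θ)) := by simpa using h3
    obtain ⟨r, hr⟩ := tc_int _ h2'
    obtain ⟨z, hz⟩ := tc_int _ h3'
    have h4 : (g.map (Int.castRingHom (AlgebraicClosure (ZMod p)))).eval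
        ((r : ℤ) : AlgebraicClosure (ZMod p)) = 0 := by
      rw [tc_roots h.jinj ψ g h.gs h.cinj (fun θ hθ => h.lift θ (h.gT θ ((h.gr θ).2 hθ))) hp.gl]
      exact ⟨θ, (h.gr θ).1 h1, hr⟩
    rw [tc_eval, tc_zero] at h4
    have h5 := tc_w2 h ψ h1
    rw [← hr, ← hz, tc_eval] at h5
    have h6 : (p : ℤ) ∣ z ^ 2 - q.eval r := by
      rw [← tc_zero]
      push_cast
      rw [h5, sub_self]
    refine ⟨r, Or.inl ⟨h4, z, ?_, h6⟩, hr⟩
    intro h7
    apply tc_qne hp (Or.inl h4)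
    rw [ZMod.intCast_zmod_eq_zero_iff_dvd]
    have h8 : (p : ℤ) ∣ z ^ 2 := dvd_pow h7 two_ne_zero
    have h9 := dvd_sub h8 h6
    rwa [sub_sub_cancel] at h9
  · have h2' : ψ (lf θ) ^ p = ψ (lf θ) := by simpa using h2
    obtain ⟨r, hr⟩ := tc_int _ h2'
    have h4 : (F.map (Int.castRingHom (AlgebraicClosure (ZMod p)))).eval
        ((r : ℤ) : AlgebraicClosure (ZMod p)) = 0 := by
      rw [tc_roots h.jinj ψ F h.Fs h.cinj (fun θ hθ => h.lift θ (h.FT θ ((h.Fr θ).2 hθ))) hp.Fl]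
      exact ⟨θ, (h.Fr θ).1 h1, hr⟩
    rw [tc_eval, tc_zero] at h4
    exact ⟨r, Or.inr h4, hr⟩

lemma tc_alt (h : Fd j lf g F q e Rg RF Rq T w x) (hp : Pr p g F q e)
    (ψ : A' →+* AlgebraicClosure (ZMod p)) {θ : L} (hθ : θ ∈ Rg ∨ θ ∈ RF) {r : ℤ}
    (hr : (r : AlgebraicClosure (ZMod p)) = ψ (lf θ)) (hbr : Br' p g F q r) :
    (∃ (u : ℤ) (s : (ZMod p)[X]), ¬ (p : ℤ) ∣ u ∧ q.map (Int.castRingHom (ZMod p)) ∣
      (C (r : ZMod p) - X) - C (u : ZMod p) * e.map (Int.castRingHom (ZMod p)) * s ^ 2) ↔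
    AltC Rq x (fun α d => ψ (lf α) ^ p ^ d = ψ (lf α)) θ := by
  have hodd : Odd p := (Fact.out : p.Prime).odd_of_ne_two hp.p2
  have hcop : IsCoprime (C (r : ZMod p) - X) (q.map (Int.castRingHom (ZMod p))) := by
    have h1 : IsCoprime (X - C (r : ZMod p)) (q.map (Int.castRingHom (ZMod p))) := by
      rw [(irreducible_X_sub_C (r : ZMod p)).coprime_iff_not_dvd, dvd_iff_isRoot, IsRoot,
        eval_intCast_map, eq_intCast, Int.cast_id]
      refine tc_qne hp ?_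
      rcases hbr with h1 | h1
      · exact Or.inl h1.1
      · exact Or.inr h1
    have h2 : (C (r : ZMod p) - X : (ZMod p)[X]) = -(X - C (r : ZMod p)) := by ring
    rw [h2]
    exact h1.neg_left
  have key := ta_iff hp.p2 (q.map (Int.castRingHom (ZMod p)))
    (e.map (Int.castRingHom (ZMod p))) (r : ZMod p) hp.sq hp.eq hcop
  have hlhs : (∃ (u : ℤ) (s : (ZMod p)[X]), ¬ (p : ℤ) ∣ u ∧ q.map (Int.castRingHom (ZMod p)) ∣
      (C (r : ZMod p) - X) - C (u : ZMod p) * e.map (Int.castRingHom (ZMod p)) * s ^ 2) ↔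
      (∃ (u : ZMod p) (s : (ZMod p)[X]), u ≠ 0 ∧ q.map (Int.castRingHom (ZMod p)) ∣
      (C (r : ZMod p) - X) - C u * e.map (Int.castRingHom (ZMod p)) * s ^ 2) := by
    constructor
    · rintro ⟨u, s, hu, hs⟩
      refine ⟨(u : ZMod p), s, ?_, hs⟩
      intro h0
      rw [ZMod.intCast_zmod_eq_zero_iff_dvd] at h0
      exact hu h0
    · rintro ⟨u, s, hu, hs⟩
      have hcast : (((u.val : ℤ)) : ZMod p) = u := by
        push_cast
        exact ZMod.natCast_zmod_val u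
      refine ⟨(u.val : ℤ), s, ?_, ?_⟩
      · intro h0
        rw [← ZMod.intCast_zmod_eq_zero_iff_dvd, hcast] at h0
        exact hu h0
      · rw [hcast]; exact hs
  rw [hlhs, key]
  have hrr : algebraMap (ZMod p) (AlgebraicClosure (ZMod p)) (r : ZMod p) = ψ (lf θ) := by
    rw [map_intCast, hr]
  -- roots of q
  have hroot : ∀ z : AlgebraicClosure (ZMod p),
      aeval z (q.map (Int.castRingHom (ZMod p))) = 0 ↔ ∃ ρ ∈ Rq, z = ψ (lf ρ) := by
    intro z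
    rw [tc_aeval, tc_roots h.jinj ψ q h.qs h.cinj
      (fun θ hθ => h.lift θ (h.qT θ ((h.qr θ).2 hθ))) hp.ql]
    constructor
    · rintro ⟨ρ, h1, h2⟩; exact ⟨ρ, (h.qr ρ).2 h1, h2⟩
    · rintro ⟨ρ, h1, h2⟩; exact ⟨ρ, (h.qr ρ).1 h1, h2⟩
  have hx2 : ∀ ρ ∈ Rq, (ψ (lf (x θ ρ))) ^ 2 =
      (algebraMap (ZMod p) (AlgebraicClosure (ZMod p)) (r : ZMod p) - ψ (lf ρ)) *
        aeval (ψ (lf ρ)) (e.map (Int.castRingHom (ZMod p))) := by
    intro ρ hρ
    rw [tc_x2 h ψ hθ hρ, hrr, tc_aeval]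
  have hfix : ∀ (y y' : AlgebraicClosure (ZMod p)) (d : ℕ), y ^ 2 = y' ^ 2 →
      (y ^ p ^ d = y ↔ y' ^ p ^ d = y') := by
    intro y y' d hy
    rcases sq_eq_sq_iff_eq_or_eq_neg.1 hy with h1 | h1
    · rw [h1]
    · rw [h1, (hodd.pow).neg_pow, neg_inj]
  unfold AltC
  refine or_congr ?_ ?_
  · constructor
    · intro h1 ρ hρ d hd hρd
      exact h1 (ψ (lf ρ)) (ψ (lf (x θ ρ))) ((hroot _).2 ⟨ρ, hρ, rfl⟩) (hx2 ρ hρ) d hd hρd
    · intro h1 z y hz hy d hd hzd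
      obtain ⟨ρ, hρ, rfl⟩ := (hroot z).1 hz
      rw [← hx2 ρ hρ] at hy
      exact (hfix y _ d hy).2 (h1 ρ hρ d hd hzd)
  · constructor
    · intro h1 ρ hρ d hd hρd
      exact h1 (ψ (lf ρ)) (ψ (lf (x θ ρ))) ((hroot _).2 ⟨ρ, hρ, rfl⟩) (hx2 ρ hρ) d hd hρd
    · intro h1 z y hz hy d hd hzd
      obtain ⟨ρ, hρ, rfl⟩ := (hroot z).1 hz
      rw [← hx2 ρ hρ] at hy
      rw [hfix y _ d hy]
      exact h1 ρ hρ d hd hzd

end

end Stoll308.TD
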