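import Pool.Agent.Work.MP_308fa9_nt.TD.Cyc
import Pool.Agent.Work.MP_308fa9_nt.TD.Red
import Pool.Agent.Work.MP_308fa9_nt.TD.TypC
import Pool.Agent.Work.MP_308fa9_nt.TD.ReS
import Pool.Agent.Work.MP_308fa9_nt.FQ.Upper

set_option autoImplicit false

/-!
The primes with a branch point over `𝔽_p`, but none of the class `ε`.
-/

namespace Stoll308.TD

open Polynomial Finset BF NumberField

/-- the polynomials split in a Galois number field, with the square roots -/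
private lemma ty_field (g F q e : ℤ[X])
    (hsq : Squarefree ((g * F * q).map (Int.castRingHom ℚ))) :
    ∃ (L : Type) (_ : Field L) (_ : NumberField L) (_ : IsGalois ℚ L) (A' : Type)
      (_ : CommRing A') (j : A' →+* L) (lf : L → A') (Rg RF Rq T : Finset L) (w : L → L)
      (x : L → L → L) (nm : L → 𝓞 L) (D : ℕ), Fd j lf g F q e Rg RF Rq T w x ∧
      ∀ (p : ℕ) [Fact p.Prime], D < p → ∀ φ : 𝓞 L →+* AlgebraicClosure (ZMod p),
        ∃ ψ : A' →+* AlgebraicClosure (ZMod p), ∀ α ∈ T, ∀ d : ℕ,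
          (ψ (lf α) ^ p ^ d = ψ (lf α) ↔ φ (nm α) ^ p ^ d = φ (nm α)) := by
  classical
  have h0 : (g * F * q).map (Int.castRingHom ℚ) ≠ 0 := hsq.ne_zero
  rw [Polynomial.map_mul] at h0
  have hG0 := left_ne_zero_of_mul h0
  have hq0 := right_ne_zero_of_mul h0
  obtain ⟨L, iF, iN, iG, hGs, hqs, hw, hx⟩ := tb_exists _ _ (e.map (Int.castRingHom ℚ)) hG0 hq0
  have hmm : ∀ P : ℤ[X], (P.map (Int.castRingHom ℚ)).map (algebraMap ℚ L) =
      P.map (Int.castRingHom L) := by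
    intro P
    rw [Polynomial.map_map]
    congr 1
    exact RingHom.ext_int _ _
  have hae : ∀ (P : ℤ[X]) (a : L), aeval a (P.map (Int.castRingHom ℚ)) =
      (P.map (Int.castRingHom L)).eval a := by
    intro P a
    rw [aeval_def, eval₂_eq_eval_map, hmm]
  rw [hmm] at hGs hqs
  have hcinj : Function.Injective (Int.castRingHom L) := Int.cast_injective
  have hG0L : (g * F).map (Int.castRingHom L) ≠ 0 := by
    rw [← hmm]
    exact (Polynomial.map_ne_zero_iff (algebraMap ℚ L).injective).2 hG0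
  have hq0L : q.map (Int.castRingHom L) ≠ 0 := by
    rw [← hmm]
    exact (Polynomial.map_ne_zero_iff (algebraMap ℚ L).injective).2 hq0
  have hgdvd : g.map (Int.castRingHom L) ∣ (g * F).map (Int.castRingHom L) :=
    Polynomial.map_dvd _ (dvd_mul_right _ _)
  have hFdvd : F.map (Int.castRingHom L) ∣ (g * F).map (Int.castRingHom L) :=
    Polynomial.map_dvd _ (dvd_mul_left _ _)
  have hrg : ∀ θ, θ ∈ (g.map (Int.castRingHom L)).roots →
      aeval θ ((g * F).map (Int.castRingHom ℚ)) = 0 := by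
    intro θ hθ
    rw [hae]
    obtain ⟨c, hc⟩ := hgdvd
    rw [hc, eval_mul, (mem_roots'.1 hθ).2, zero_mul]
  have hrF : ∀ θ, θ ∈ (F.map (Int.castRingHom L)).roots →
      aeval θ ((g * F).map (Int.castRingHom ℚ)) = 0 := by
    intro θ hθ
    rw [hae]
    obtain ⟨c, hc⟩ := hFdvd
    rw [hc, eval_mul, (mem_roots'.1 hθ).2, zero_mul]
  have hrq : ∀ θ, θ ∈ (q.map (Int.castRingHom L)).roots →
      aeval θ (q.map (Int.castRingHom ℚ)) = 0 := by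
    intro θ hθ
    rw [hae]
    exact (mem_roots'.1 hθ).2
  choose! w hw using hw
  have hx' : ∀ θ ρ : L, ∃ x : L, aeval θ ((g * F).map (Int.castRingHom ℚ)) = 0 →
      aeval ρ (q.map (Int.castRingHom ℚ)) = 0 →
      x ^ 2 = (θ - ρ) * aeval ρ (e.map (Int.castRingHom ℚ)) := by
    intro θ ρ
    by_cases h1 : aeval θ ((g * F).map (Int.castRingHom ℚ)) = 0
    · by_cases h2 : aeval ρ (q.map (Int.castRingHom ℚ)) = 0
      · obtain ⟨x, hx⟩ := hx θ ρ h1 h2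
        exact ⟨x, fun _ _ => hx⟩
      · exact ⟨0, fun _ h => absurd h h2⟩
    · exact ⟨0, fun h => absurd h h1⟩
  choose x hx' using hx'
  set Rg := (g.map (Int.castRingHom L)).roots.toFinset with hRg
  set RF := (F.map (Int.castRingHom L)).roots.toFinset with hRF
  set Rq := (q.map (Int.castRingHom L)).roots.toFinset with hRq
  set T : Finset L := (Rg ∪ RF) ∪ Rq ∪ (Rg.image w ∪
    ((Rg ∪ RF) ×ˢ Rq).image (fun z => x z.1 z.2)) with hT
  obtain ⟨A', iA, j, lf, nm, D, hj, hlift, hred⟩ := tb_red L T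
  have hgm : ∀ θ, θ ∈ Rg ↔ θ ∈ (g.map (Int.castRingHom L)).roots := fun θ =>
    Multiset.mem_toFinset
  have hFm : ∀ θ, θ ∈ RF ↔ θ ∈ (F.map (Int.castRingHom L)).roots := fun θ =>
    Multiset.mem_toFinset
  have hqm : ∀ θ, θ ∈ Rq ↔ θ ∈ (q.map (Int.castRingHom L)).roots := fun θ =>
    Multiset.mem_toFinset
  refine ⟨L, iF, iN, iG, A', iA, j, lf, Rg, RF, Rq, T, w, x, nm, D, ?_, hred⟩
  refine ⟨hj, hcinj, hlift, hGs.of_dvd hG0L hgdvd, hGs.of_dvd hG0L hFdvd, hqs, hgm, hFm, hqm,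
    ?_, ?_, ?_, ?_, ?_, ?_, ?_⟩
  · intro θ hθ
    exact mem_union_left _ (mem_union_left _ (mem_union_left _ hθ))
  · intro θ hθ
    exact mem_union_left _ (mem_union_left _ (mem_union_right _ hθ))
  · intro θ hθ
    exact mem_union_left _ (mem_union_right _ hθ)
  · intro θ hθ
    exact mem_union_right _ (mem_union_left _ (mem_image_of_mem _ hθ))
  · intro θ hθ ρ hρ
    refine mem_union_right _ (mem_union_right _ (mem_image.2 ⟨(θ, ρ), ?_, rfl⟩))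
    exact mem_product.2 ⟨mem_union.2 hθ, hρ⟩
  · intro θ hθ
    rw [← hae]
    exact hw θ (hrg θ ((hgm θ).1 hθ))
  · intro θ hθ ρ hρ
    rw [← hae]
    refine hx' θ ρ ?_ (hrq ρ ((hqm ρ).1 hρ))
    rcases hθ with hθ | hθ
    · exact hrg θ ((hgm θ).1 hθ)
    · exact hrF θ ((hFm θ).1 hθ)

/-- almost all primes are good -/
private lemma ty_prime (g F q e : ℤ[X])
    (hsq : Squarefree ((g * F * q).map (Int.castRingHom ℚ)))
    (he : IsCoprime (e.map (Int.castRingHom ℚ)) (q.map (Int.castRingHom ℚ))) :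
    ∃ M : ℕ, ∀ (p : ℕ) [Fact p.Prime], M < p → Pr p g F q e := by
  have h0 : (g * F * q).map (Int.castRingHom ℚ) ≠ 0 := hsq.ne_zero
  have h1 : g * F * q ≠ 0 := by
    rintro h1
    rw [h1, Polynomial.map_zero] at h0
    exact h0 rfl
  have hg0 : g ≠ 0 := left_ne_zero_of_mul (left_ne_zero_of_mul h1)
  have hF0 : F ≠ 0 := right_ne_zero_of_mul (left_ne_zero_of_mul h1)
  have hq0 : q ≠ 0 := right_ne_zero_of_mul h1
  rw [Polynomial.map_mul] at hsq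
  obtain ⟨hrel, -, hqsq⟩ := squarefree_mul_iff.1 hsq
  have hcop : IsCoprime ((g * F).map (Int.castRingHom ℚ)) (q.map (Int.castRingHom ℚ)) :=
    hrel.isCoprime
  have hsep : IsCoprime (q.map (Int.castRingHom ℚ))
      ((derivative q).map (Int.castRingHom ℚ)) := by
    have h2 := PerfectField.separable_iff_squarefree.2 hqsq
    rw [← derivative_map]
    exact h2
  obtain ⟨N1, U1, V1, hN1, e1⟩ := DQ.sc_bezout _ _ hcop
  obtain ⟨N2, U2, V2, hN2, e2⟩ := DQ.sc_bezout _ _ hsep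
  obtain ⟨N3, U3, V3, hN3, e3⟩ := DQ.sc_bezout _ _ he
  refine ⟨2 + N1.natAbs + N2.natAbs + N3.natAbs + g.leadingCoeff.natAbs +
    F.leadingCoeff.natAbs + q.leadingCoeff.natAbs, fun p _ hp => ?_⟩
  refine ⟨by omega, tc_ne (leadingCoeff_ne_zero.2 hg0) (by omega),
    tc_ne (leadingCoeff_ne_zero.2 hF0) (by omega), tc_ne (leadingCoeff_ne_zero.2 hq0) (by omega),
    ?_, tc_cop _ _ _ _ e3 hN3 (by omega), tc_cop _ _ _ _ e1 hN1 (by omega)⟩
  have h3 := tc_cop (p := p) _ _ _ _ e2 hN2 (by omega)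
  rw [← derivative_map] at h3
  exact Polynomial.Separable.squarefree h3

private lemma ty_br {L : Type} {Rg RF T : Finset L} {w : L → L} {Fx Fx' : L → ℕ → Prop}
    (h1 : ∀ θ ∈ Rg, θ ∈ T) (h2 : ∀ θ ∈ RF, θ ∈ T) (h3 : ∀ θ ∈ Rg, w θ ∈ T)
    (h : ∀ α ∈ T, ∀ d, Fx α d ↔ Fx' α d) (θ : L) : BrC Rg RF w Fx θ ↔ BrC Rg RF w Fx' θ := by
  unfold BrC
  constructor
  · rintro (⟨a1, a2, a3⟩ | ⟨a1, a2⟩)
    · exact Or.inl ⟨a1, (h θ (h1 θ a1) 1).1 a2, (h _ (h3 θ a1) 1).1 a3⟩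
    · exact Or.inr ⟨a1, (h θ (h2 θ a1) 1).1 a2⟩
  · rintro (⟨a1, a2, a3⟩ | ⟨a1, a2⟩)
    · exact Or.inl ⟨a1, (h θ (h1 θ a1) 1).2 a2, (h _ (h3 θ a1) 1).2 a3⟩
    · exact Or.inr ⟨a1, (h θ (h2 θ a1) 1).2 a2⟩

private lemma ty_alt {L : Type} {Rq T : Finset L} {x : L → L → L} {Fx Fx' : L → ℕ → Prop}
    (h1 : ∀ θ ∈ Rq, θ ∈ T) {θ : L} (h2 : ∀ ρ ∈ Rq, x θ ρ ∈ T)
    (h : ∀ α ∈ T, ∀ d, Fx α d ↔ Fx' α d) : AltC Rq x Fx θ ↔ AltC Rq x Fx' θ := by
  unfold AltC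
  refine or_congr ?_ ?_
  · refine forall₂_congr fun ρ hρ => forall₂_congr fun d _ => ?_
    rw [h ρ (h1 ρ hρ) d, h _ (h2 ρ hρ) d]
  · refine forall₂_congr fun ρ hρ => forall₂_congr fun d _ => ?_
    rw [h ρ (h1 ρ hρ) d, h _ (h2 ρ hρ) d]

theorem dense_of_freq {m : ℕ} (b : Fin (m + 1) → ℤ) (g A B : ℤ[X]) (hD : Data b g A B) (ε : ℚ[X])
    (hε : IsCoprime ε (GZ ℚ b))
    (h : ∀ N : ℕ, ∃ p : ℕ, N < p ∧ p.Prime ∧ RW b g A B p ∧ ¬ RE b g A B ε p) :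
    FQ.Dense {p | RW b g A B p ∧ ¬ RE b g A B ε p} := by
  classical
  -- integral class
  obtain ⟨c, e, hc, hce⟩ := DQ.sc_exists_int ε
  have hc' : (c : ℚ) ≠ 0 := by exact_mod_cast hc
  have hQ : (GZ ℤ b).map (Int.castRingHom ℚ) = GZ ℚ b := FQ.ActAux.GZ_map b
  have he : IsCoprime (e.map (Int.castRingHom ℚ)) (GZ ℚ b) := by
    rw [hce]
    refine IsCoprime.mul_left ?_ hε
    exact ⟨C (c : ℚ)⁻¹, 0, by rw [← C_mul, inv_mul_cancel₀ hc', C_1, zero_mul, add_zero]⟩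
  have hre : ∀ p, RE b g A B ε p ↔ RE b g A B (e.map (Int.castRingHom ℚ)) p := by
    intro p
    constructor
    · refine re_congr b g A B _ _ ((c : ℚ)⁻¹) 1 (inv_ne_zero hc') ?_ p
      rw [hce, one_pow, mul_one, ← mul_assoc, ← C_mul, inv_mul_cancel₀ hc', C_1, one_mul,
        sub_self]
      exact dvd_zero _
    · refine re_congr b g A B _ _ (c : ℚ) 1 hc' ?_ p
      rw [hce, one_pow, mul_one, sub_self]
      exact dvd_zero _
  obtain ⟨M1, hM1⟩ := re_iff b g A B hD e he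
  obtain ⟨L, iF, iN, iG, A', iA, j, lf, Rg, RF, Rq, T, w, x, nm, D, hfd, hred⟩ :=
    ty_field g (nF b A B) (GZ ℤ b) e hD.sq
  obtain ⟨M2, hM2⟩ := ty_prime g (nF b A B) (GZ ℤ b) e hD.sq (by rw [hQ]; exact he)
  obtain ⟨M3, hM3⟩ := cyc L (T.image nm)
  -- the conditions at one prime
  have hone : ∀ (p : ℕ) [Fact p.Prime], max M1 (max M2 D) < p →
      ∀ φ : 𝓞 L →+* AlgebraicClosure (ZMod p),
      (RW b g A B p ↔ ∃ θ, BrC Rg RF w (fun α d => φ (nm α) ^ p ^ d = φ (nm α)) θ) ∧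
      (RE b g A B ε p ↔ ∃ θ, BrC Rg RF w (fun α d => φ (nm α) ^ p ^ d = φ (nm α)) θ ∧
        AltC Rq x (fun α d => φ (nm α) ^ p ^ d = φ (nm α)) θ) := by
    intro p hF hp φ
    have h1 : M1 < p := lt_of_le_of_lt (le_max_left _ _) hp
    have h2 : M2 < p := lt_of_le_of_lt (le_trans (le_max_left _ _) (le_max_right _ _)) hp
    have h3 : D < p := lt_of_le_of_lt (le_trans (le_max_right _ _) (le_max_right _ _)) hp
    have hpr := hM2 p h2
    obtain ⟨ψ, hψ⟩ := hred p h3 φ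
    have hB := fun θ => ty_br (w := w) (T := T) hfd.gT hfd.FT hfd.wT hψ θ
    have hbr : ∀ r : ℤ, Br b g A B p r ↔ Br' p g (nF b A B) (GZ ℤ b) r := fun r => Iff.rfl
    refine ⟨?_, ?_⟩
    · unfold RW
      constructor
      · rintro ⟨r, hr⟩
        obtain ⟨θ, hθ, -⟩ := tc_br1 hfd hpr ψ ((hbr r).1 hr)
        exact ⟨θ, (hB θ).1 hθ⟩
      · rintro ⟨θ, hθ⟩
        obtain ⟨r, hr, -⟩ := tc_br2 hfd hpr ψ ((hB θ).2 hθ)
        exact ⟨r, (hbr r).2 hr⟩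
    · rw [hre, hM1 p hF.out h1]
      have hGp : GZ (ZMod p) b = (GZ ℤ b).map (Int.castRingHom (ZMod p)) := (FQ.ActAux.GZ_map b).symm
      unfold REp
      rw [hGp]
      constructor
      · rintro ⟨r, u, s, hr, hu, hs⟩
        obtain ⟨θ, hθ, hrθ⟩ := tc_br1 hfd hpr ψ ((hbr r).1 hr)
        have hθ2 : θ ∈ Rg ∨ θ ∈ RF := by
          rcases hθ with hθ | hθ
          · exact Or.inl hθ.1
          · exact Or.inr hθ.1
        have h4 := (tc_alt hfd hpr ψ hθ2 hrθ ((hbr r).1 hr)).1 ⟨u, s, hu, hs⟩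
        exact ⟨θ, (hB θ).1 hθ, (ty_alt hfd.qT (hfd.xT θ hθ2) hψ).1 h4⟩
      · rintro ⟨θ, hθ, hal⟩
        have hθ2 : θ ∈ Rg ∨ θ ∈ RF := by
          rcases hθ with hθ | hθ
          · exact Or.inl hθ.1
          · exact Or.inr hθ.1
        obtain ⟨r, hr, hrθ⟩ := tc_br2 hfd hpr ψ ((hB θ).2 hθ)
        obtain ⟨u, s, hu, hs⟩ := (tc_alt hfd hpr ψ hθ2 hrθ hr).2
          ((ty_alt hfd.qT (hfd.xT θ hθ2) hψ).2 hal)
        exact ⟨r, u, s, (hbr r).2 hr, hu, hs⟩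
  obtain ⟨p₀, hp₀, hp₀p, hW, hE⟩ := h (max M3 (max M1 (max M2 D)))
  have hdense := hM3 p₀ hp₀p (lt_of_le_of_lt (le_max_left _ _) hp₀)
  refine hdense.of_gt (max M1 (max M2 D)) ?_
  intro p hp hlt
  obtain ⟨f0, f1, φ₀, φ, hS⟩ := hp
  obtain ⟨a1, a2⟩ := hone p₀ (lt_of_le_of_lt (le_max_right _ _) hp₀) φ₀
  obtain ⟨b1, b2⟩ := hone p hlt φ
  have hFx : ∀ α ∈ T, ∀ d : ℕ, (φ₀ (nm α) ^ p₀ ^ d = φ₀ (nm α) ↔
      φ (nm α) ^ p ^ d = φ (nm α)) := fun α hα d => hS _ (mem_image_of_mem _ hα) d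
  have hB := fun θ => ty_br (w := w) (T := T) hfd.gT hfd.FT hfd.wT hFx θ
  refine ⟨?_, ?_⟩
  · rw [b1]
    obtain ⟨θ, hθ⟩ := a1.1 hW
    exact ⟨θ, (hB θ).1 hθ⟩
  · rw [b2]
    rintro ⟨θ, hθ, hal⟩
    apply hE
    rw [a2]
    have hθ2 : θ ∈ Rg ∨ θ ∈ RF := by
      rcases hθ with hθ | hθ
      · exact Or.inl hθ.1
      · exact Or.inr hθ.1
    exact ⟨θ, (hB θ).2 hθ, (ty_alt hfd.qT (hfd.xT θ hθ2) hFx).2 hal⟩

end Stoll308.TD
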