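import Pool.Agent.Work.MP_308fa9_nt.TD.Defs
import Pool.Agent.Work.MP_308fa9_nt.HT
import Pool.Agent.Work.MP_308fa9_nt.Rankin
import Pool.Agent.Work.MP_308fa9_nt.FQ.Basic
import Pool.Agent.Work.MP_308fa9_nt.Gen.Euler

set_option autoImplicit false

/-!
Upper bound for the number of squarefree integers whose large primes have a given property.
-/

namespace Stoll308.TD

open Polynomial Finset

theorem upper (P : ℕ → Prop) (M : ℕ) : ∃ C : ℝ, 0 < C ∧ ∀ X : ℕ, 2 ≤ X →
    (cnt (fun k => ∀ p : ℕ, p.Prime → M < p → (p : ℤ) ∣ k → P p) X : ℝ) ≤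
      C * X / Real.log X * AP.V P X := by
  classical
  set S : ℝ := ∑ p ∈ (Icc 1 M).filter Nat.Prime, 1 / (p : ℝ) with hS
  refine ⟨2 * (3 * Real.exp (S + 1)), by positivity, fun X hX => ?_⟩
  set H : ℕ → ℝ := fun p => if P p ∨ p ≤ M then 1 else 0 with hH
  have hH0 : ∀ p : ℕ, p.Prime → 0 ≤ H p := by
    intro p _
    simp only [hH]
    split_ifs <;> norm_num
  have hH1 : ∀ p : ℕ, p.Prime → H p ≤ 1 := by
    intro p _
    simp only [hH]
    split_ifs <;> norm_num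
  set T : Finset ℕ := (Icc 1 X).filter fun n => Squarefree n ∧
    ∀ p : ℕ, p.Prime → M < p → p ∣ n → P p with hT
  -- the number of the elements of `T`
  have hTcard : (T.card : ℝ) ≤ ∑ n ∈ Icc 1 X, HT.hf H n := by
    have h1 : (T.card : ℝ) = ∑ n ∈ T, HT.hf H n := by
      rw [card_eq_sum_ones, Nat.cast_sum]
      refine sum_congr rfl fun n hn => ?_
      obtain ⟨_, h2, h3⟩ := mem_filter.1 hn
      unfold HT.hf
      rw [if_pos h2, Nat.cast_one, eq_comm]
      refine prod_eq_one fun p hp => ?_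
      simp only [hH]
      rw [if_pos]
      rcases le_or_gt p M with h | h
      · exact Or.inr h
      · exact Or.inl (h3 p (Nat.prime_of_mem_primeFactors hp) h (Nat.dvd_of_mem_primeFactors hp))
    rw [h1]
    exact sum_le_sum_of_subset_of_nonneg (filter_subset _ _) fun n _ _ => HT.hf_nonneg hH0 n
  -- the number of integers
  have hcnt : (cnt (fun k => ∀ p : ℕ, p.Prime → M < p → (p : ℤ) ∣ k → P p) X : ℝ) ≤
      2 * T.card := by
    unfold cnt
    have hsub : ((Icc (-(X : ℤ)) X).filter fun k => Squarefree k ∧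
        ∀ p : ℕ, p.Prime → M < p → (p : ℤ) ∣ k → P p) ⊆
        T.image (fun n : ℕ => (n : ℤ)) ∪ T.image (fun n : ℕ => -(n : ℤ)) := by
      intro k hk
      obtain ⟨h1, h2, h3⟩ := mem_filter.1 hk
      have hkT : k.natAbs ∈ T := by
        rw [hT, mem_filter, mem_Icc]
        have h4 : k ≠ 0 := h2.ne_zero
        rw [mem_Icc] at h1
        refine ⟨⟨by omega, by omega⟩, Int.squarefree_natAbs.2 h2, fun p hp hM hd => ?_⟩
        exact h3 p hp hM (Int.natCast_dvd.2 hd)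
      rw [mem_union, mem_image, mem_image]
      rcases le_total 0 k with h | h
      · exact Or.inl ⟨_, hkT, by omega⟩
      · exact Or.inr ⟨_, hkT, by omega⟩
    have h5 := (card_le_card hsub).trans (card_union_le _ _)
    have h6 := card_image_le (s := T) (f := fun n : ℕ => (n : ℤ))
    have h7 := card_image_le (s := T) (f := fun n : ℕ => -(n : ℤ))
    have h8 := h5.trans (Nat.add_le_add h6 h7)
    rw [← two_mul] at h8
    exact_mod_cast h8
  -- the Euler product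
  have hsum : ∑ p ∈ MeanSum.PR X, H p / (p : ℝ) ≤ S + ∑ p ∈ AP.PP P X, 1 / (p : ℝ) := by
    have h1 : ∑ p ∈ MeanSum.PR X, H p / (p : ℝ) =
        ∑ p ∈ (MeanSum.PR X).filter (fun p => P p ∨ p ≤ M), 1 / (p : ℝ) := by
      rw [sum_filter (s := MeanSum.PR X) (fun p => P p ∨ p ≤ M) (fun p => 1 / (p : ℝ))]
      refine sum_congr rfl fun p _ => ?_
      simp only [hH]
      split_ifs
      · rfl
      · rw [zero_div]
    rw [h1]
    have hsub : (MeanSum.PR X).filter (fun p => P p ∨ p ≤ M) ⊆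
        (Icc 1 M).filter Nat.Prime ∪ AP.PP P X := by
      intro p hp
      obtain ⟨h2, h3⟩ := mem_filter.1 hp
      obtain ⟨h4, h5⟩ := MeanSum.mem_PR.1 h2
      rw [mem_union, mem_filter, mem_Icc, AP.mem_PP]
      rcases h3 with h | h
      · exact Or.inr ⟨h5, h4, h⟩
      · exact Or.inl ⟨⟨h4.one_lt.le, h⟩, h4⟩
    refine (sum_le_sum_of_subset_of_nonneg hsub fun _ _ _ => by positivity).trans ?_
    have h2 := sum_union_inter (s₁ := (Icc 1 M).filter Nat.Prime) (s₂ := AP.PP P X)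
      (f := fun p : ℕ => 1 / (p : ℝ))
    have h3 : 0 ≤ ∑ p ∈ (Icc 1 M).filter Nat.Prime ∩ AP.PP P X, 1 / (p : ℝ) :=
      sum_nonneg fun _ _ => by positivity
    linarith
  have hexp : Real.exp (∑ p ∈ MeanSum.PR X, H p / (p : ℝ)) ≤ Real.exp (S + 1) * AP.V P X := by
    have h1 := Gen.prod_ge_exp (AP.PP P X) (fun p hp => (AP.mem_PP.1 hp).2.1)
    unfold AP.V
    refine le_trans ?_ (mul_le_mul_of_nonneg_left h1 (Real.exp_pos _).le)
    rw [← Real.exp_add]
    exact Real.exp_le_exp.2 (by linarith)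
  have hXr : (2 : ℝ) ≤ X := by exact_mod_cast hX
  have hlog : 0 < Real.log X := Real.log_pos (by linarith)
  have hmain := HT.sum_hf_le hH0 hH1 hX
  calc (cnt (fun k => ∀ p : ℕ, p.Prime → M < p → (p : ℤ) ∣ k → P p) X : ℝ) ≤ 2 * T.card := hcnt
    _ ≤ 2 * ((2 * 1 + 1) * (X / Real.log X) * Real.exp (∑ p ∈ MeanSum.PR X, H p / (p : ℝ))) := by
        linarith
    _ ≤ 2 * ((2 * 1 + 1) * (X / Real.log X) * (Real.exp (S + 1) * AP.V P X)) := by
        gcongr
    _ = _ := by ring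

private lemma one_add_sum_le (s : Finset ℕ) (a : ℕ → ℝ) (ha : ∀ i ∈ s, 0 ≤ a i) :
    1 + ∑ i ∈ s, a i ≤ ∏ i ∈ s, (1 + a i) := by
  classical
  induction s using Finset.induction_on with
  | empty => simp
  | insert i s hi ih =>
    rw [sum_insert hi, prod_insert hi]
    have h1 := ih fun j hj => ha j (mem_insert_of_mem hj)
    have h2 := ha i (mem_insert_self i s)
    have h3 : 0 ≤ ∑ j ∈ s, a j := sum_nonneg fun j hj => ha j (mem_insert_of_mem hj)
    nlinarith

private lemma dense_spec (S : Set ℕ) (hd : FQ.Dense S) (T : ℝ) :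
    ∃ z : ℕ, T ≤ ∑ p ∈ AP.PP (fun p => p ∈ S) z, 1 / (p : ℝ) := by
  classical
  obtain ⟨z, hz⟩ := hd T
  refine ⟨z, hz.trans (sum_le_sum_of_subset_of_nonneg ?_ fun _ _ _ => by positivity)⟩
  intro p hp
  rw [mem_filter, mem_Icc] at hp
  rw [AP.mem_PP]
  exact ⟨hp.1.2, hp.2.1, hp.2.2⟩

/-- The quotient of the Euler products tends to `0`. -/
theorem quot (P P' : ℕ → Prop) (h : ∀ p, P' p → P p) (hd : FQ.Dense {p | P p ∧ ¬ P' p})
    (η : ℝ) (hη : 0 < η) : ∃ X₀ : ℕ, ∀ X : ℕ, X₀ ≤ X → AP.V P' X ≤ η * AP.V P X := by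
  classical
  obtain ⟨z, hz⟩ := dense_spec _ hd (1 / η)
  refine ⟨z, fun X hX => ?_⟩
  have hunion : AP.PP P X = AP.PP P' X ∪ AP.PP (fun p => P p ∧ ¬ P' p) X := by
    ext p
    rw [mem_union, AP.mem_PP, AP.mem_PP, AP.mem_PP]
    constructor
    · rintro ⟨h1, h2, h3⟩
      by_cases h4 : P' p
      · exact Or.inl ⟨h1, h2, h4⟩
      · exact Or.inr ⟨h1, h2, h3, h4⟩
    · rintro (⟨h1, h2, h3⟩ | ⟨h1, h2, h3, _⟩)
      · exact ⟨h1, h2, h p h3⟩
      · exact ⟨h1, h2, h3⟩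
  have hdisj : Disjoint (AP.PP P' X) (AP.PP (fun p => P p ∧ ¬ P' p) X) := by
    rw [disjoint_left]
    intro p hp hp'
    exact (AP.mem_PP.1 hp').2.2.2 (AP.mem_PP.1 hp).2.2
  have hprod : AP.V P X = AP.V P' X * ∏ p ∈ AP.PP (fun p => P p ∧ ¬ P' p) X, (1 + 1 / (p : ℝ)) := by
    unfold AP.V
    rw [hunion, prod_union hdisj]
  have hge : 1 / η ≤ ∏ p ∈ AP.PP (fun p => P p ∧ ¬ P' p) X, (1 + 1 / (p : ℝ)) := by
    refine le_trans ?_ (one_add_sum_le _ (fun p => 1 / (p : ℝ)) fun _ _ => by positivity)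
    refine (hz.trans (sum_le_sum_of_subset_of_nonneg
      (t := AP.PP (fun p => P p ∧ ¬ P' p) X) ?_ fun _ _ _ => by positivity)).trans ?_
    · intro p hp
      obtain ⟨h1, h2, h3⟩ := AP.mem_PP.1 hp
      rw [AP.mem_PP]
      exact ⟨h1.trans hX, h2, h3⟩
    · linarith
  have hV := AP.V_pos P' X
  rw [hprod]
  calc AP.V P' X = η * (AP.V P' X * (1 / η)) := by
        field_simp
    _ ≤ _ := by gcongr

end Stoll308.TD
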