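import Pool.Agent.Work.MP_308fa9_nt.TD.Fin
import Pool.Agent.Work.MP_308fa9_nt.TD.ReS
import Pool.Agent.Work.MP_308fa9_nt.TD.Typ
import Pool.Agent.Work.MP_308fa9_nt.TD.Upper
import Pool.Agent.Work.MP_308fa9_nt.TD.ElsLow

set_option autoImplicit false

/-!
Quadratic twists of the double covers of a fixed curve: the main theorem.
-/

namespace Stoll308.TD

open Polynomial Finset BF

private lemma re_rw {m : ℕ} (b : Fin (m + 1) → ℤ) (g A B : ℤ[X]) (ε : ℚ[X]) (p : ℕ)
    (h : RE b g A B ε p) : RW b g A B p := by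
  obtain ⟨-, r, hr, -⟩ := h
  exact ⟨r, hr⟩

private lemma one_le_V (P : ℕ → Prop) (X : ℕ) : 1 ≤ AP.V P X := by
  classical
  unfold AP.V
  exact Finset.prod_induction _ (fun x : ℝ => 1 ≤ x)
    (fun x y hx hy => one_le_mul_of_one_le_of_one_le hx hy) le_rfl
    (fun p _ => le_add_of_nonneg_right (by positivity))

private lemma cnt_le_sum (P : ℤ → Prop) (E : Finset ℚ[X]) (Q : ℚ[X] → ℤ → Prop)
    (h : ∀ k : ℤ, Squarefree k → P k → ∃ ε ∈ E, Q ε k) (X : ℕ) :
    cnt P X ≤ ∑ ε ∈ E, cnt (Q ε) X := by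
  classical
  unfold cnt
  refine le_trans (Finset.card_le_card ?_) Finset.card_biUnion_le
  intro k hk
  rw [Finset.mem_filter] at hk
  obtain ⟨ε, hε, hQ⟩ := h k hk.2.1 hk.2.2
  exact Finset.mem_biUnion.2 ⟨ε, hε, Finset.mem_filter.2 ⟨hk.1, hk.2.1, hQ⟩⟩

private lemma sel_class {m : ℕ} (b : Fin (m + 1) → ℤ) (g A B : ℤ[X]) (hD : Data b g A B)
    (hsq : Squarefree (GZ ℚ b)) :
    ∃ (M : ℕ) (E : Finset ℚ[X]), (∀ ε ∈ E, IsCoprime ε (GZ ℚ b)) ∧
      ∀ k : ℤ, Squarefree k → Sel b g A B k → ∃ ε ∈ E, ∀ p : ℕ, p.Prime → M < p → (p : ℤ) ∣ k →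
        RE b g A B ε p := by
  obtain ⟨E, hE, hE2⟩ := fin_cls hD.m2 hD.me b hD.b0 hsq
  obtain ⟨M, hM⟩ := re_of_loc b g A B hD
  refine ⟨max M 2, E, hE, fun k hk hsel => ?_⟩
  obtain ⟨ε, hε, hloc⟩ := hsel
  obtain ⟨ε₀, hε₀, κ, s, hκ, h⟩ := hE2 ε hε (by
    intro p _ hp
    obtain ⟨t, w, y, u, s, hw, hu, hpt, h⟩ := hloc p hp
    exact ⟨t, w, u, s, hw, hu, hpt.1, h⟩)
  refine ⟨ε₀, hε₀, fun p hp hlt hpk => ?_⟩
  haveI : Fact p.Prime := ⟨hp⟩
  refine re_congr b g A B ε ε₀ κ s hκ h p (hM p (lt_of_le_of_lt (le_max_left _ _) hlt) k hpk ?_ ε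
    (hloc p ?_))
  · intro h2
    rw [sq] at h2
    exact (Nat.prime_iff_prime_int.1 hp).not_unit (hk _ h2)
  · have := lt_of_le_of_lt (le_max_right _ _) hlt
    omega

theorem main {m : ℕ} (b : Fin (m + 1) → ℤ) (g A B : ℤ[X]) (hD : Data b g A B) (k₀ : ℤ)
    (hk : Squarefree k₀) (hels : ELS b g A B k₀)
    (hfreq : ∀ ε : ℚ[X], IsCoprime ε (GZ ℚ b) → ∀ N : ℕ, ∃ p : ℕ, N < p ∧ p.Prime ∧
      RW b g A B p ∧ ¬ RE b g A B ε p) :
    (∃ c : ℝ, 0 < c ∧ ∃ X₀ : ℕ, ∀ X : ℕ, X₀ ≤ X →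
      c * X / Real.log X ≤ (cnt (ELS b g A B) X : ℝ)) ∧
    ∀ η : ℝ, 0 < η → ∃ X₀ : ℕ, ∀ X : ℕ, X₀ ≤ X →
      (cnt (Sel b g A B) X : ℝ) ≤ η * cnt (ELS b g A B) X := by
  classical
  obtain ⟨c, hc, X₁, hlow⟩ := els_low b g A B hD k₀ hk hels
  have hlog : ∀ X : ℕ, 2 ≤ X → 0 < (X : ℝ) / Real.log X := by
    intro X hX
    have h1 : (2 : ℝ) ≤ X := by exact_mod_cast hX
    exact div_pos (by linarith) (Real.log_pos (by linarith))
  refine ⟨⟨c, hc, max X₁ 2, fun X hX => ?_⟩, fun η hη => ?_⟩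
  · have h1 := hlow X (le_trans (le_max_left _ _) hX)
    refine le_trans ?_ h1
    have h2 := one_le_V (RW b g A B) X
    have h3 := hlog X (le_trans (le_max_right _ _) hX)
    have h4 : 0 ≤ c * X / Real.log X := by
      rw [mul_div_assoc]
      positivity
    exact le_mul_of_one_le_right h4 h2
  · have hsq : Squarefree (GZ ℚ b) := by
      have h1 := hD.sq
      have h2 : GZ ℚ b = (GZ ℤ b).map (Int.castRingHom ℚ) := by
        simp [GZ, gpol, Polynomial.map_sum]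
      rw [Polynomial.map_mul, ← h2] at h1
      exact h1.of_mul_right
    obtain ⟨M, E, hE, hsel⟩ := sel_class b g A B hD hsq
    have hup : ∀ ε ∈ E, ∃ X₀ : ℕ, ∀ X : ℕ, X₀ ≤ X →
        (cnt (fun k => ∀ p : ℕ, p.Prime → M < p → (p : ℤ) ∣ k → RE b g A B ε p) X : ℝ) ≤
          η * c / (E.card + 1) * (X / Real.log X) * AP.V (RW b g A B) X := by
      intro ε hε
      obtain ⟨K, hK, h1⟩ := upper (RE b g A B ε) M
      obtain ⟨X₂, h2⟩ := quot (RW b g A B) (RE b g A B ε) (fun p hp => re_rw b g A B ε p hp)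
        (dense_of_freq b g A B hD ε (hE ε hε) (hfreq ε (hE ε hε)))
        (η * c / (E.card + 1) / K) (by positivity)
      refine ⟨max X₂ 2, fun X hX => ?_⟩
      refine le_trans (h1 X (le_trans (le_max_right _ _) hX)) ?_
      have h3 := h2 X (le_trans (le_max_left _ _) hX)
      have h4 := hlog X (le_trans (le_max_right _ _) hX)
      calc K * X / Real.log X * AP.V (RE b g A B ε) X
          ≤ K * X / Real.log X * (η * c / (E.card + 1) / K * AP.V (RW b g A B) X) := by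
            refine mul_le_mul_of_nonneg_left h3 ?_
            rw [mul_div_assoc]
            positivity
        _ = η * c / (E.card + 1) * (X / Real.log X) * AP.V (RW b g A B) X := by
            field_simp
    choose! Y hY using hup
    refine ⟨max (max X₁ 2) (E.sup Y), fun X hX => ?_⟩
    have hX1 : X₁ ≤ X := le_trans (le_trans (le_max_left _ _) (le_max_left _ _)) hX
    have hX2 : 2 ≤ X := le_trans (le_trans (le_max_right _ _) (le_max_left _ _)) hX
    have hXE : ∀ ε ∈ E, Y ε ≤ X := fun ε hε =>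
      le_trans (Finset.le_sup hε) (le_trans (le_max_right _ _) hX)
    have h1 : (cnt (Sel b g A B) X : ℝ) ≤
        ∑ ε ∈ E, (cnt (fun k => ∀ p : ℕ, p.Prime → M < p → (p : ℤ) ∣ k → RE b g A B ε p) X : ℝ) := by
      exact_mod_cast cnt_le_sum (Sel b g A B) E
        (fun ε k => ∀ p : ℕ, p.Prime → M < p → (p : ℤ) ∣ k → RE b g A B ε p) hsel X
    refine le_trans h1 (le_trans (Finset.sum_le_sum fun ε hε => hY ε hε X (hXE ε hε)) ?_)
    rw [Finset.sum_const, nsmul_eq_mul]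
    have h2 := hlow X hX1
    have h3 := one_le_V (RW b g A B) X
    have h4 := hlog X hX2
    have h5 : (E.card : ℝ) * (η * c / (E.card + 1) * (X / Real.log X) * AP.V (RW b g A B) X) ≤
        η * (c * X / Real.log X * AP.V (RW b g A B) X) := by
      have h6 : (E.card : ℝ) * (η * c / (E.card + 1) * (X / Real.log X) * AP.V (RW b g A B) X) =
          ((E.card : ℝ) / (E.card + 1)) * (η * (c * X / Real.log X * AP.V (RW b g A B) X)) := by
        field_simp
      rw [h6]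
      refine mul_le_of_le_one_left ?_ ?_
      · have h7 : c * X / Real.log X * AP.V (RW b g A B) X =
            c * (X / Real.log X) * AP.V (RW b g A B) X := by ring
        rw [h7]
        have h8 : 0 < AP.V (RW b g A B) X := by linarith
        positivity
      · rw [div_le_one (by positivity)]
        linarith
    exact le_trans h5 (mul_le_mul_of_nonneg_left h2 hη.le)

end Stoll308.TD
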