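import Pool.Agent.Work.MP_308fa9_nt.TD.Defs
import Pool.Agent.Work.MP_308fa9_nt.Gen.LowG
import Pool.Agent.Work.MP_308fa9_nt.Gen.ElsT
import Pool.Agent.Work.MP_308fa9_nt.NE.DenseNS

set_option autoImplicit false

/-!
There are many primes with a branch point over `𝔽_p`.
-/

namespace Stoll308.TD

open Polynomial Finset BF

namespace ManyAux

open NumberField

/-- A number field with a root of `G` and a square root of the value of `H` there. -/
lemma exists_L (G H : ℤ[X]) (hG : 0 < G.natDegree) :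
    ∃ (L : Type) (_ : Field L) (_ : NumberField L) (θ w : L),
      eval₂ (Int.castRingHom L) θ G = 0 ∧ w ^ 2 = eval₂ (Int.castRingHom L) θ H := by
  have h1 : ¬ IsUnit (G.map (Int.castRingHom ℚ)) := by
    intro h
    have h2 := natDegree_eq_zero_of_isUnit h
    rw [natDegree_map_eq_of_injective Int.cast_injective] at h2
    omega
  have h0 : G.map (Int.castRingHom ℚ) ≠ 0 := by
    intro h
    rw [Polynomial.map_eq_zero_iff Int.cast_injective] at h
    rw [h, natDegree_zero] at hG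
    exact lt_irrefl _ hG
  obtain ⟨g, hg, k, hk⟩ := WfDvdMonoid.exists_irreducible_factor h1 h0
  obtain ⟨L, i1, i2, -, ρ, s, hρ, hs⟩ := NE.DenseAux.exists_field g (H.map (Int.castRingHom ℚ)) hg
  have key : ∀ f : ℤ[X], aeval ρ (f.map (Int.castRingHom ℚ)) = eval₂ (Int.castRingHom L) ρ f := by
    intro f
    rw [aeval_def, eval₂_map]
    congr 1
    exact RingHom.ext_int _ _
  refine ⟨L, i1, i2, ρ, s, ?_, ?_⟩
  · rw [← key, hk, _root_.map_mul, hρ, zero_mul]
  · rw [← key, hs]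

/-- A common denominator of two elements. -/
lemma exists_den {L : Type} [Field L] [NumberField L] (θ w : L) :
    ∃ (a : ℤ) (_ : a ≠ 0) (t v : 𝓞 L), algebraMap (𝓞 L) L t = a * θ ∧
      algebraMap (𝓞 L) L v = a * w := by
  have h : ∀ x : L, ∃ (a : ℤ) (_ : a ≠ 0) (t : 𝓞 L), algebraMap (𝓞 L) L t = a * x := by
    intro x
    have h1 : IsAlgebraic ℤ x :=
      (IsFractionRing.isAlgebraic_iff ℤ ℚ L).2 (Algebra.IsAlgebraic.isAlgebraic x)
    obtain ⟨a, ha, hi⟩ := h1.exists_integral_multiple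
    rw [zsmul_eq_mul] at hi
    exact ⟨a, ha, ⟨_, hi⟩, rfl⟩
  obtain ⟨a, ha, t, ht⟩ := h θ
  obtain ⟨c, hc, v, hv⟩ := h w
  refine ⟨a * c, mul_ne_zero ha hc, (c : 𝓞 L) * t, (a : 𝓞 L) * v, ?_, ?_⟩
  · rw [_root_.map_mul, ht, map_intCast]
    push_cast
    ring
  · rw [_root_.map_mul, hv, map_intCast]
    push_cast
    ring

/-- The root and the square root modulo the primes of degree one. -/
lemma exists_mod (G H : ℤ[X]) (hG : 0 < G.natDegree) :
    ∃ (L : Type) (_ : Field L) (_ : NumberField L) (a : ℤ), a ≠ 0 ∧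
      ∀ p : ℕ, p.Prime → ¬ (p : ℤ) ∣ a → Cheb.aK L p ≠ 0 →
        ∃ r z : ℤ, (p : ℤ) ∣ G.eval r ∧ (p : ℤ) ∣ z ^ 2 - H.eval r := by
  obtain ⟨L, i1, i2, θ, w, hθ, hw⟩ := exists_L G H hG
  obtain ⟨a, ha, t, v, ht, hv⟩ := exists_den θ w
  refine ⟨L, i1, i2, a, ha, ?_⟩
  intro p hp hpa hK
  have : Fact p.Prime := ⟨hp⟩
  rw [Cheb.aK_eq_homs] at hK
  obtain ⟨⟨φ⟩, -⟩ := Nat.card_ne_zero.1 hK
  have ha' : (a : ZMod p) ≠ 0 := by
    intro h
    exact hpa ((ZMod.intCast_zmod_eq_zero_iff_dvd _ _).1 h)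
  obtain ⟨r, hr⟩ := ZMod.intCast_surjective (φ t / (a : ZMod p))
  obtain ⟨z, hz⟩ := ZMod.intCast_surjective (φ v / (a : ZMod p))
  have hφt : φ t = (a : ZMod p) * (r : ZMod p) := by rw [hr, mul_div_cancel₀ _ ha']
  have hφv : φ v = (a : ZMod p) * (z : ZMod p) := by rw [hz, mul_div_cancel₀ _ ha']
  have hLp : ∀ f : ℤ[X], algebraMap (𝓞 L) L (eval₂ (Int.castRingHom (𝓞 L)) t (scaleRoots f a)) =
      (a : L) ^ f.natDegree * eval₂ (Int.castRingHom L) θ f := by
    intro f
    rw [hom_eval₂, ht]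
    have h1 : (algebraMap (𝓞 L) L).comp (Int.castRingHom (𝓞 L)) = Int.castRingHom L :=
      RingHom.ext_int _ _
    rw [h1]
    have h2 := scaleRoots_eval₂_mul (p := f) (Int.castRingHom L) θ a
    rw [eq_intCast] at h2
    exact h2
  have hZp : ∀ f : ℤ[X], φ (eval₂ (Int.castRingHom (𝓞 L)) t (scaleRoots f a)) =
      (a : ZMod p) ^ f.natDegree * ((f.eval r : ℤ) : ZMod p) := by
    intro f
    rw [hom_eval₂, hφt]
    have h1 : φ.comp (Int.castRingHom (𝓞 L)) = Int.castRingHom (ZMod p) := RingHom.ext_int _ _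
    rw [h1]
    have h2 := scaleRoots_eval₂_mul (p := f) (Int.castRingHom (ZMod p)) (r : ZMod p) a
    rw [eq_intCast] at h2
    rw [h2, ← eval_map, eval_intCast_map, eq_intCast, Int.cast_id]
  refine ⟨r, z, ?_, ?_⟩
  · have h1 : eval₂ (Int.castRingHom (𝓞 L)) t (scaleRoots G a) = 0 := by
      apply RingOfIntegers.coe_injective (K := L)
      rw [hLp, hθ, mul_zero, map_zero]
    have h2 := hZp G
    rw [h1, map_zero] at h2
    exact (ZMod.intCast_zmod_eq_zero_iff_dvd _ _).1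
      ((mul_eq_zero.1 h2.symm).resolve_left (pow_ne_zero _ ha'))
  · have h1 : (a : 𝓞 L) ^ 2 * eval₂ (Int.castRingHom (𝓞 L)) t (scaleRoots H a) =
        (a : 𝓞 L) ^ H.natDegree * v ^ 2 := by
      apply RingOfIntegers.coe_injective (K := L)
      simp only [_root_.map_mul, _root_.map_pow, map_intCast]
      rw [hLp, hv, ← hw]
      ring
    have h2 := congrArg φ h1
    simp only [_root_.map_mul, _root_.map_pow, map_intCast] at h2
    rw [hZp, hφv] at h2
    have h3 : (a : ZMod p) ^ (H.natDegree + 2) * ((z : ZMod p) ^ 2 -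
        ((H.eval r : ℤ) : ZMod p)) = 0 := by
      linear_combination - h2
    have h4 := (mul_eq_zero.1 h3).resolve_left (pow_ne_zero _ ha')
    rw [← ZMod.intCast_zmod_eq_zero_iff_dvd]
    push_cast
    exact h4

/-- Many primes. -/
lemma many_of (P : ℕ → Prop) (L : Type) [Field L] [NumberField L] (C : ℕ)
    (h : ∀ p : ℕ, p.Prime → C < p → Cheb.aK L p ≠ 0 → P p) : AP.Many P := by
  classical
  obtain ⟨M, hM1, X₀, hX₀⟩ := Low.primes_lower L
  obtain ⟨K, hKM, hKX, hK2, hKC⟩ : ∃ K : ℕ, M ≤ K ∧ X₀ ≤ K ∧ 2 ≤ K ∧ M * (C + 1) ≤ K :=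
    ⟨M + X₀ + 2 + M * (C + 1), by omega, by omega, by omega, by omega⟩
  refine ⟨K, by omega, fun y hy => ?_⟩
  have hlog : 0 < Real.log y := Real.log_pos (by exact_mod_cast (by omega : 1 < y))
  have hMR : (0 : ℝ) < M := by exact_mod_cast hM1
  have hMM : (M : ℝ) ≤ (K : ℝ) := by exact_mod_cast hKM
  calc (y : ℝ) / ((K : ℝ) * Real.log y) ≤ y / (M * Real.log y) := by
        apply div_le_div_of_nonneg_left (Nat.cast_nonneg _) (by positivity)
        exact mul_le_mul_of_nonneg_right hMM hlog.le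
    _ ≤ _ := hX₀ y (by omega)
    _ ≤ _ := by
        apply Nat.cast_le.2
        apply card_le_card
        intro p hp
        rw [mem_filter, mem_Ioc] at hp ⊢
        have h1 : C + 1 ≤ y / M := by
          rw [Nat.le_div_iff_mul_le (by omega)]
          nlinarith
        refine ⟨⟨?_, hp.1.2⟩, hp.2.1, h p hp.2.1 (by omega) hp.2.2⟩
        refine lt_of_le_of_lt ?_ hp.1.1
        exact Nat.div_le_div_left hKM (by omega)

end ManyAux

open ManyAux in
theorem many_rw {m : ℕ} (b : Fin (m + 1) → ℤ) (g A B : ℤ[X]) (hD : Data b g A B) :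
    AP.Many (RW b g A B) := by
  by_cases hB : B = 0
  · have hg : 0 < g.natDegree := hD.nc.resolve_left (fun h => h hB)
    have hcop : IsCoprime (g.map (Int.castRingHom ℚ)) ((GZ ℤ b).map (Int.castRingHom ℚ)) := by
      have h1 := hD.sq
      rw [Polynomial.map_mul, Polynomial.map_mul] at h1
      have h2 := (squarefree_mul_iff.1 h1).1
      exact (IsRelPrime.isCoprime h2).of_mul_left_left
    obtain ⟨N, hN, U, V, hUV⟩ := NE.DenseAux.bezout _ _ hcop
    obtain ⟨L, i1, i2, a, ha, h⟩ := exists_mod g (GZ ℤ b) hg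
    refine many_of _ L (a * N).natAbs ?_
    intro p hp hlt hK
    have hnd : ∀ c : ℤ, c ∣ a * N → ¬ (p : ℤ) ∣ c := by
      intro c hc hd
      have h1 := Int.natAbs_dvd_natAbs.2 (hd.trans hc)
      rw [Int.natAbs_natCast] at h1
      exact absurd (Nat.le_of_dvd (Int.natAbs_pos.2 (mul_ne_zero ha hN)) h1) (by omega)
    obtain ⟨r, z, hr, hz⟩ := h p hp (hnd a (dvd_mul_right _ _)) hK
    refine ⟨r, Or.inl ⟨hr, z, ?_, hz⟩⟩
    intro hpz
    apply hnd N (dvd_mul_left _ _)
    have h1 := congrArg (fun f : ℤ[X] => f.eval r) hUV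
    simp only [eval_add, eval_mul, eval_C] at h1
    rw [← h1]
    refine dvd_add (hr.mul_left _) (Dvd.dvd.mul_left ?_ _)
    have h2 := dvd_sub (hpz.mul_left z) hz
    have e1 : z * z - (z ^ 2 - (GZ ℤ b).eval r) = (GZ ℤ b).eval r := by ring
    rwa [e1] at h2
  · obtain ⟨e, he1, -, he3, -⟩ := hD.deg
    have hF : 0 < (nF b A B).natDegree := by
      rw [natDegree_mul hB (pow_ne_zero _ X_ne_zero), natDegree_X_pow] at he3
      have := hD.m2
      omega
    obtain ⟨L, i1, i2, a, ha, h⟩ := exists_mod (nF b A B) 1 hF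
    refine many_of _ L a.natAbs ?_
    intro p hp hlt hK
    obtain ⟨r, z, hr, -⟩ := h p hp (by
      intro hd
      have h1 := Int.natAbs_dvd_natAbs.2 hd
      rw [Int.natAbs_natCast] at h1
      exact absurd (Nat.le_of_dvd (Int.natAbs_pos.2 ha) h1) (by omega)) hK
    exact ⟨r, Or.inr hr⟩

end Stoll308.TD
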