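import Pool.Agent.Work.MP_308fa9_nt.TD.Defs
import Pool.Agent.Work.MP_308fa9_nt.EA.Even
import Pool.Agent.Work.MP_308fa9_nt.DQ.Scale
import Pool.Agent.Work.MP_308fa9_nt.DQ.Norm

set_option autoImplicit false

/-!
At a large prime which divides the twisting parameter exactly, the points are near a branch point.
-/

namespace Stoll308.TD

open Polynomial Finset BF

section aux

variable {p : ℕ} [hp : Fact p.Prime]

private lemma nr_norm_int {z : ℤ} (h : ¬ (p : ℤ) ∣ z) : ‖(z : ℚ_[p])‖ = 1 := by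
  refine le_antisymm (Padic.norm_int_le_one _) (not_lt.1 fun h' => h ?_)
  rwa [Padic.norm_intCast_lt_one_iff] at h'

private lemma nr_aeval_le (P : ℤ[X]) {t : ℚ_[p]} (ht : 1 ≤ ‖t‖) {e : ℕ} (he : P.natDegree ≤ e) :
    ‖aeval t P‖ ≤ ‖t‖ ^ e := by
  rw [aeval_eq_sum_range' (Nat.lt_succ_of_le he)]
  refine IsUltrametricDist.norm_sum_le_of_forall_le_of_nonneg (by positivity) fun i hi => ?_
  rw [zsmul_eq_mul, norm_mul, norm_pow]
  calc ‖((P.coeff i : ℤ) : ℚ_[p])‖ * ‖t‖ ^ i ≤ 1 * ‖t‖ ^ e := by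
        refine mul_le_mul (Padic.norm_int_le_one _) ?_ (by positivity) zero_le_one
        refine pow_le_pow_right₀ ht ?_
        have := mem_range.1 hi
        omega
    _ = _ := one_mul _

private lemma nr_aeval_eq (P : ℤ[X]) {t : ℚ_[p]} (ht : 1 < ‖t‖)
    (hP : ¬ (p : ℤ) ∣ P.leadingCoeff) : ‖aeval t P‖ = ‖t‖ ^ P.natDegree := by
  have h0 : ‖((P.leadingCoeff : ℤ) : ℚ_[p]) * t ^ P.natDegree‖ = ‖t‖ ^ P.natDegree := by
    rw [norm_mul, norm_pow, nr_norm_int hP, one_mul]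
  have e : aeval t P = aeval t P.eraseLead +
      ((P.leadingCoeff : ℤ) : ℚ_[p]) * t ^ P.natDegree := by
    conv_lhs => rw [← P.eraseLead_add_C_mul_X_pow]
    simp
  rcases Nat.eq_zero_or_pos P.natDegree with hn | hn
  · have h1 : P.eraseLead = 0 := by
      rw [natDegree_eq_zero] at hn
      obtain ⟨c, rfl⟩ := hn
      exact eraseLead_C c
    rw [e, h1, map_zero, zero_add, h0]
  · have h1 : ‖aeval t P.eraseLead‖ ≤ ‖t‖ ^ (P.natDegree - 1) :=
      nr_aeval_le _ ht.le (eraseLead_natDegree_le P)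
    have h2 : ‖t‖ ^ (P.natDegree - 1) < ‖t‖ ^ P.natDegree := pow_lt_pow_right₀ ht (by omega)
    rw [e, Padic.add_eq_max_of_ne (by rw [h0]; exact (h1.trans_lt h2).ne), h0,
      max_eq_right (h1.trans h2.le)]

/-- The parity of the valuation. -/
private lemma nr_odd {y c : ℚ_[p]} (hy : y ≠ 0) (hc : c ≠ 0) :
    ‖(p : ℚ_[p]) * y ^ 2‖ ≠ ‖c‖ ^ 2 := by
  intro h
  rw [norm_mul, Padic.norm_p, norm_pow, Padic.norm_eq_zpow_neg_valuation hy,
    Padic.norm_eq_zpow_neg_valuation hc] at h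
  have h2 : (1 : ℝ) < p := by exact_mod_cast hp.out.one_lt
  have h3 : (p : ℝ) ≠ 0 := by linarith
  have e1 : ((p : ℝ))⁻¹ * ((p : ℝ) ^ (-y.valuation)) ^ 2 = (p : ℝ) ^ (-1 - 2 * y.valuation) := by
    rw [← zpow_natCast, ← zpow_mul, ← zpow_neg_one, ← zpow_add₀ h3]
    congr 1
    push_cast
    ring
  have e2 : ((p : ℝ) ^ (-c.valuation)) ^ 2 = (p : ℝ) ^ (-2 * c.valuation) := by
    rw [← zpow_natCast, ← zpow_mul]
    congr 1
    push_cast
    ring
  rw [e1, e2] at h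
  have h4 := zpow_right_injective₀ (by linarith) h2.ne' h
  have h5 : -1 - 2 * y.valuation = -2 * c.valuation := h4
  omega

/-- The values of integral polynomials at near points. -/
private lemma nr_sub (P : ℤ[X]) {t : ℚ_[p]} {r : ℤ} (hr : ‖t - (r : ℚ_[p])‖ < 1) :
    ‖aeval t P - ((P.eval r : ℤ) : ℚ_[p])‖ < 1 := by
  have ht : ‖t‖ ≤ 1 := by
    have : t = (t - (r : ℚ_[p])) + (r : ℚ_[p]) := by ring
    rw [this]
    exact (Padic.nonarchimedean _ _).trans (max_le hr.le (Padic.norm_int_le_one _))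
  set T : ℤ_[p] := ⟨t, ht⟩ with hT
  have h1 : T - (r : ℤ_[p]) ∣ (P.map (Int.castRingHom ℤ_[p])).eval T -
      (P.map (Int.castRingHom ℤ_[p])).eval (r : ℤ_[p]) := sub_dvd_eval_sub _ _ _
  obtain ⟨c, hc⟩ := h1
  have e1 : (((P.map (Int.castRingHom ℤ_[p])).eval T : ℤ_[p]) : ℚ_[p]) = aeval t P := by
    rw [← PadicInt.Coe.ringHom_apply, ← Polynomial.eval₂_at_apply, Polynomial.eval₂_map,
      aeval_def]
    congr 1
  have e2 : (P.map (Int.castRingHom ℤ_[p])).eval (r : ℤ_[p]) = ((P.eval r : ℤ) : ℤ_[p]) := by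
    rw [eval_intCast_map, eq_intCast, Int.cast_id]
  have e3 : aeval t P - ((P.eval r : ℤ) : ℚ_[p]) = (t - (r : ℚ_[p])) * (c : ℚ_[p]) := by
    have := congrArg (fun x : ℤ_[p] => (x : ℚ_[p])) hc
    simp only [PadicInt.coe_sub, PadicInt.coe_mul, e1, e2, PadicInt.coe_intCast] at this
    exact this
  rw [e3, norm_mul]
  calc ‖t - (r : ℚ_[p])‖ * ‖(c : ℚ_[p])‖ ≤ ‖t - (r : ℚ_[p])‖ * 1 :=
        mul_le_mul_of_nonneg_left (PadicInt.norm_le_one c) (norm_nonneg _)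
    _ < 1 := by rwa [mul_one]

private lemma nr_aeval_le_one (P : ℤ[X]) {t : ℚ_[p]} (ht : ‖t‖ ≤ 1) : ‖aeval t P‖ ≤ 1 := by
  rw [aeval_eq_sum_range]
  refine IsUltrametricDist.norm_sum_le_of_forall_le_of_nonneg zero_le_one fun i _ => ?_
  rw [zsmul_eq_mul, norm_mul, norm_pow]
  exact mul_le_one₀ (Padic.norm_int_le_one _) (by positivity) (pow_le_one₀ (norm_nonneg _) ht)

private lemma nr_dvd (P : ℤ[X]) {t : ℚ_[p]} {r : ℤ} (hr : ‖t - (r : ℚ_[p])‖ < 1)
    (h : ‖aeval t P‖ < 1) : (p : ℤ) ∣ P.eval r := by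
  rw [← Padic.norm_intCast_lt_one_iff]
  have : ((P.eval r : ℤ) : ℚ_[p]) = aeval t P + -(aeval t P - ((P.eval r : ℤ) : ℚ_[p])) := by
    ring
  rw [this]
  refine (Padic.nonarchimedean _ _).trans_lt (max_lt h ?_)
  rw [norm_neg]
  exact nr_sub P hr

private lemma nr_exists {t : ℚ_[p]} (ht : ‖t‖ ≤ 1) : ∃ r : ℤ, ‖t - (r : ℚ_[p])‖ < 1 := by
  obtain ⟨T, rfl⟩ : ∃ T : ℤ_[p], (T : ℚ_[p]) = t := ⟨⟨t, ht⟩, rfl⟩
  obtain ⟨n, _, hn⟩ := PadicInt.exists_mem_range (p := p) T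
  refine ⟨n, ?_⟩
  rw [PadicInt.maximalIdeal_eq_span_p, Ideal.mem_span_singleton, ← PadicInt.norm_lt_one_iff_dvd]
    at hn
  rw [Int.cast_natCast, ← PadicInt.coe_natCast, ← PadicInt.coe_sub, ← PadicInt.norm_def]
  exact hn

end aux

private lemma nr_GZ {K : Type} [Field K] {m : ℕ} (b : Fin (m + 1) → ℤ) (t : K) :
    (GZ K b).eval t = aeval t (GZ ℤ b) := by
  rw [aeval_def, ← eval_map, algebraMap_int_eq, DQ.NormAux.GZ_map b (Int.castRingHom K)]

theorem near {m : ℕ} (b : Fin (m + 1) → ℤ) (g A B : ℤ[X]) (hD : Data b g A B) :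
    ∃ M : ℕ, ∀ (p : ℕ) [Fact p.Prime], M < p → ∀ k : ℤ, (p : ℤ) ∣ k → ¬ (p : ℤ) ^ 2 ∣ k →
      ∀ t w y : ℚ_[p], w ≠ 0 → Pt b g A B k t w y →
        ∃ r : ℤ, Br b g A B p r ∧ ¬ (p : ℤ) ∣ (GZ ℤ b).eval r ∧ ‖t - (r : ℚ_[p])‖ < 1 := by
  have hinj : Function.Injective (Int.castRingHom ℚ) := (Int.castRingHom ℚ).injective_int
  have hsq := hD.sq
  rw [Polynomial.map_mul, Polynomial.map_mul] at hsq
  have hne := hsq.ne_zero
  have hg0 : g ≠ 0 := by
    rintro rfl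
    simp at hne
  have hF0 : nF b A B ≠ 0 := by
    intro h
    rw [h] at hne
    simp at hne
  obtain ⟨hr, hgF, -⟩ := squarefree_mul_iff.1 hsq
  have hcop := hr.isCoprime
  have hcg : IsCoprime (g.map (Int.castRingHom ℚ)) ((GZ ℤ b).map (Int.castRingHom ℚ)) :=
    hcop.of_mul_left_left
  have hcF : IsCoprime ((nF b A B).map (Int.castRingHom ℚ)) ((GZ ℤ b).map (Int.castRingHom ℚ)) :=
    hcop.of_mul_left_right
  obtain ⟨N1, U1, V1, hN1, h1⟩ := DQ.sc_bezout _ _ hcg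
  obtain ⟨N2, U2, V2, hN2, h2⟩ := DQ.sc_bezout _ _ hcF
  have hlg : g.leadingCoeff ≠ 0 := leadingCoeff_ne_zero.2 hg0
  have hlF : (nF b A B).leadingCoeff ≠ 0 := leadingCoeff_ne_zero.2 hF0
  refine ⟨N1.natAbs + N2.natAbs + g.leadingCoeff.natAbs + (nF b A B).leadingCoeff.natAbs +
    (b 0).natAbs, fun p hp hM k hk hk2 t w y hw hPt => ?_⟩
  have hnd : ∀ z : ℤ, z ≠ 0 → z.natAbs < p → ¬ (p : ℤ) ∣ z := by
    intro z hz hzp hd
    have h3 := Int.natAbs_dvd_natAbs.2 hd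
    rw [Int.natAbs_natCast] at h3
    have h4 := Nat.le_of_dvd (Int.natAbs_pos.2 hz) h3
    omega
  have pN1 := hnd N1 hN1 (by omega)
  have pN2 := hnd N2 hN2 (by omega)
  have plg := hnd _ hlg (by omega)
  have plF := hnd _ hlF (by omega)
  have pb0 := hnd _ hD.b0 (by omega)
  obtain ⟨hw2, hky⟩ := hPt
  obtain ⟨k', rfl⟩ := hk
  have hk' : ¬ (p : ℤ) ∣ k' := by
    rintro ⟨z, rfl⟩
    exact hk2 ⟨z, by ring⟩
  have hknorm : ∀ y : ℚ_[p], ‖(((p : ℤ) * k' : ℤ) : ℚ_[p]) * y ^ 2‖ = ‖(p : ℚ_[p]) * y ^ 2‖ := by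
    intro y
    push_cast
    rw [norm_mul, norm_mul, norm_mul, nr_norm_int hk', mul_one]
  have hp1 : (1 : ℝ) < p := by exact_mod_cast hp.out.one_lt
  set Aw := aeval t A + aeval t B * w with hAw
  set Aw' := aeval t A - aeval t B * w with hAw'
  have hprod : Aw * Aw' = aeval t (nF b A B) := by
    unfold nF
    rw [map_sub, map_mul, map_pow, map_pow, ← nr_GZ, ← hw2, hAw, hAw']
    ring
  rcases le_or_gt ‖t‖ 1 with ht | ht
  · -- the integral case
    obtain ⟨r, hr⟩ := nr_exists ht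
    have hqt : ‖aeval t (GZ ℤ b)‖ ≤ 1 := nr_aeval_le_one _ ht
    have hw1 : ‖w‖ ≤ 1 := by
      have : ‖w‖ ^ 2 ≤ 1 := by
        rw [← norm_pow, hw2, nr_GZ]
        exact hqt
      exact (sq_le_one_iff₀ (norm_nonneg _)).1 this
    have hAw1 : ‖Aw‖ ≤ 1 := by
      refine (Padic.nonarchimedean _ _).trans (max_le (nr_aeval_le_one _ ht) ?_)
      rw [norm_mul]
      exact mul_le_one₀ (nr_aeval_le_one _ ht) (norm_nonneg _) hw1
    have hAw1' : ‖Aw'‖ ≤ 1 := by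
      rw [hAw', sub_eq_add_neg]
      refine (Padic.nonarchimedean _ _).trans (max_le (nr_aeval_le_one _ ht) ?_)
      rw [norm_neg, norm_mul]
      exact mul_le_one₀ (nr_aeval_le_one _ ht) (norm_nonneg _) hw1
    have hgt : ‖aeval t g‖ ≤ 1 := nr_aeval_le_one _ ht
    have hs : ‖aeval t g * Aw‖ < 1 := by
      rw [← hky, hknorm]
      have hle : ‖(p : ℚ_[p]) * y ^ 2‖ ≤ 1 := by
        rw [← hknorm, hky, norm_mul]
        exact mul_le_one₀ hgt (norm_nonneg _) hAw1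
      refine lt_of_le_of_ne hle fun heq => ?_
      rcases eq_or_ne y 0 with rfl | hy
      · simp at heq
      · refine nr_odd hy (c := (1 : ℚ_[p])) one_ne_zero ?_
        rw [heq, norm_one, one_pow]
    have hcases : ‖aeval t g‖ < 1 ∨ ‖Aw‖ < 1 := by
      by_contra hcon
      push Not at hcon
      rw [norm_mul, le_antisymm hgt hcon.1, le_antisymm hAw1 hcon.2, one_mul] at hs
      exact lt_irrefl _ hs
    rcases hcases with h | h
    · have hd := nr_dvd g hr h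
      have hq : ¬ (p : ℤ) ∣ (GZ ℤ b).eval r := by
        intro hq
        apply pN1
        have := congrArg (eval r) h1
        rw [eval_add, eval_mul, eval_mul, eval_C] at this
        rw [← this]
        exact dvd_add (dvd_mul_of_dvd_right hd _) (dvd_mul_of_dvd_right hq _)
      refine ⟨r, Or.inl ⟨hd, ?_⟩, hq, hr⟩
      obtain ⟨z, hz⟩ := nr_exists hw1
      refine ⟨z, ?_, ?_⟩
      · intro hz0
        apply hq
        refine nr_dvd _ hr ?_
        rw [← nr_GZ, ← hw2, norm_pow]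
        have h3 : ‖w‖ < 1 := by
          have : w = (w - (z : ℚ_[p])) + (z : ℚ_[p]) := by ring
          rw [this]
          refine (Padic.nonarchimedean _ _).trans_lt (max_lt hz ?_)
          rwa [Padic.norm_intCast_lt_one_iff]
        exact pow_lt_one₀ (norm_nonneg _) h3 two_ne_zero
      · rw [← Padic.norm_intCast_lt_one_iff]
        have e : ((z ^ 2 - (GZ ℤ b).eval r : ℤ) : ℚ_[p]) =
            -((w - (z : ℚ_[p])) * (w + (z : ℚ_[p]))) +
              (aeval t (GZ ℤ b) - (((GZ ℤ b).eval r : ℤ) : ℚ_[p])) := by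
          push_cast
          rw [← nr_GZ, ← hw2]
          ring
        rw [e]
        refine (Padic.nonarchimedean _ _).trans_lt (max_lt ?_ (nr_sub _ hr))
        rw [norm_neg, norm_mul]
        calc ‖w - (z : ℚ_[p])‖ * ‖w + (z : ℚ_[p])‖ ≤ ‖w - (z : ℚ_[p])‖ * 1 := by
              refine mul_le_mul_of_nonneg_left ?_ (norm_nonneg _)
              exact (Padic.nonarchimedean _ _).trans (max_le hw1 (Padic.norm_int_le_one _))
          _ < 1 := by rwa [mul_one]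
    · have hd : (p : ℤ) ∣ (nF b A B).eval r := by
        refine nr_dvd _ hr ?_
        rw [← hprod, norm_mul]
        calc ‖Aw‖ * ‖Aw'‖ ≤ ‖Aw‖ * 1 := mul_le_mul_of_nonneg_left hAw1' (norm_nonneg _)
          _ < 1 := by rwa [mul_one]
      have hq : ¬ (p : ℤ) ∣ (GZ ℤ b).eval r := by
        intro hq
        apply pN2
        have := congrArg (eval r) h2
        rw [eval_add, eval_mul, eval_mul, eval_C] at this
        rw [← this]
        exact dvd_add (dvd_mul_of_dvd_right hd _) (dvd_mul_of_dvd_right hq _)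
      exact ⟨r, Or.inr hd, hq, hr⟩
  · -- the points near infinity
    exfalso
    obtain ⟨e, he1, he2, he3, he4⟩ := hD.deg
    have ht0 : t ≠ 0 := by
      rintro rfl
      rw [norm_zero] at ht
      linarith
    have hwn : ‖w‖ = ‖t‖ ^ (m / 2) := by
      have h3 : ‖w‖ ^ 2 = (‖t‖ ^ (m / 2)) ^ 2 := by
        rw [← norm_pow, hw2, EA.norm_large b t ht pb0, ← pow_mul]
        congr 1
        have := Nat.div_two_mul_two_of_even hD.me
        omega
      exact (sq_eq_sq₀ (norm_nonneg _) (by positivity)).1 h3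
    have hBw : ‖aeval t B * w‖ ≤ ‖t‖ ^ e := by
      rcases eq_or_ne B 0 with rfl | hB
      · simp only [map_zero, zero_mul, norm_zero]
        positivity
      · rw [natDegree_mul_X_pow _ hB] at he3
        rw [norm_mul, hwn]
        calc ‖aeval t B‖ * ‖t‖ ^ (m / 2) ≤ ‖t‖ ^ B.natDegree * ‖t‖ ^ (m / 2) :=
              mul_le_mul_of_nonneg_right (nr_aeval_le _ ht.le le_rfl) (by positivity)
          _ = ‖t‖ ^ (B.natDegree + m / 2) := (pow_add _ _ _).symm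
          _ ≤ ‖t‖ ^ e := pow_le_pow_right₀ ht.le he3
    have hA1 : ‖aeval t A‖ ≤ ‖t‖ ^ e := nr_aeval_le _ ht.le he2
    have hAw1 : ‖Aw‖ ≤ ‖t‖ ^ e := (Padic.nonarchimedean _ _).trans (max_le hA1 hBw)
    have hAw1' : ‖Aw'‖ ≤ ‖t‖ ^ e := by
      rw [hAw', sub_eq_add_neg]
      refine (Padic.nonarchimedean _ _).trans (max_le hA1 ?_)
      rwa [norm_neg]
    have hte : 0 < ‖t‖ ^ e := by positivity
    have hAweq : ‖Aw‖ = ‖t‖ ^ e := by
      refine le_antisymm hAw1 ?_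
      have h3 : ‖Aw‖ * ‖Aw'‖ = ‖t‖ ^ e * ‖t‖ ^ e := by
        rw [← norm_mul, hprod, nr_aeval_eq _ ht plF, he1, ← pow_add]
        congr 1
        omega
      by_contra hcon
      push Not at hcon
      have h4 : ‖Aw‖ * ‖Aw'‖ < ‖t‖ ^ e * ‖t‖ ^ e :=
        (mul_le_mul_of_nonneg_left hAw1' (norm_nonneg _)).trans_lt
          (mul_lt_mul_of_pos_right hcon hte)
      exact h4.ne h3
    obtain ⟨j, hj⟩ := he4
    have hs : ‖(p : ℚ_[p]) * y ^ 2‖ = ‖t ^ j‖ ^ 2 := by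
      rw [← hknorm, hky, norm_mul, hAweq, nr_aeval_eq _ ht plg, ← pow_add, norm_pow, ← pow_mul]
      congr 1
      omega
    have hy : y ≠ 0 := by
      rintro rfl
      have h5 : 0 < ‖t ^ j‖ ^ 2 := pow_pos (norm_pos_iff.2 (pow_ne_zero j ht0)) 2
      rw [← hs] at h5
      simp at h5
    exact nr_odd hy (pow_ne_zero j ht0) hs

end Stoll308.TD
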